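import Pool.Agent.K9h59.OM.Sd
import Pool.Agent.K9h54.TF.Fin2

set_option autoImplicit false

/-! The ratio of the singular series for a random shift. -/

namespace Pool.Agent.K9h59.OM

open Finset Filter
open Pool.Agent.H387R2.Uni (nuT locT CT CT_hasProd CT_nonneg)
open Pool.Agent.H373R2.T7 (pz mem_pz Vz Vz_pos)
open Pool.Agent.K9h54.TF (sg tail_sq sum_inv_le)

/-- the number of the prime factors -/
lemma few_pf (x v : ℕ) (hv : 1 ≤ v) (hvx : v ≤ x) (F : Finset ℕ) (hF : ∀ p ∈ F, p.Prime ∧ p ∣ v) :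
    (F.card : ℝ) ≤ 2 * Real.log x := by
  have h1 : ∏ p ∈ F, p ∣ v := Finset.prod_primes_dvd v (fun p hp => (hF p hp).1.prime) (fun p hp => (hF p hp).2)
  have h2 : 2 ^ F.card ≤ ∏ p ∈ F, p := by
    rw [← prod_const]
    exact prod_le_prod' fun p hp => (hF p hp).1.two_le
  have h3 : 2 ^ F.card ≤ x := h2.trans ((Nat.le_of_dvd (by omega) h1).trans hvx)
  have h4 : ((2 : ℝ)) ^ F.card ≤ x := by exact_mod_cast h3
  have h5 := Real.log_le_log (by positivity) h4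
  rw [Real.log_pow] at h5
  have h6 := Real.log_two_gt_d9
  have h7 : (0 : ℝ) ≤ F.card := Nat.cast_nonneg _
  nlinarith

open Classical in
/-- the sum `sg` is small with high probability -/
theorem avgL (T : Finset ℕ) (u w x Y : ℕ) (hT : T.card = u) (hTx : ∀ h ∈ T, h ≤ x) (hw1 : 1 ≤ w) (hY : 1 ≤ Y) {ι : Type}
    (Ω : Finset ι) (P : ι → ℝ) (d : ι → ℕ) (hP0 : ∀ ω ∈ Ω, 0 ≤ P ω) (hP1 : ∑ ω ∈ Ω, P ω ≤ 1)
    (hd : ∀ ω ∈ Ω, d ω ≤ x ∧ d ω ∉ T) (κ : ℝ) (hκ : 0 ≤ κ)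
    (hcls : ∀ q : ℕ, q.Prime → w < q → q ≤ Y → ∀ h : ℕ, ∑ ω ∈ Ω.filter (fun ω => h % q = d ω % q), P ω ≤ 1 / (q : ℝ) + κ)
    (δ : ℝ) (hδ : 0 < δ) :
    ∑ ω ∈ Ω.filter (fun ω => δ < sg T w x (d ω)), P ω ≤
      u / δ * (1 / (w : ℝ) + (κ * (1 + Real.log Y) + 2 * Real.log x / Y)) := by
  obtain ⟨R, hR⟩ : ∃ R, R = (pz Y).filter (fun p => w < p) := ⟨_, rfl⟩
  have hRm : ∀ p ∈ R, p.Prime ∧ w < p ∧ p ≤ Y := by
    intro p hp
    rw [hR, mem_filter] at hp
    exact ⟨(mem_pz.1 hp.1).2, hp.2, (mem_pz.1 hp.1).1⟩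
  have hY0 : (0 : ℝ) < Y := by exact_mod_cast hY
  have h1 : ∀ ω ∈ Ω, sg T w x (d ω) ≤ ∑ p ∈ R, 1 / (p : ℝ) * ∑ h ∈ T, (if h % p = d ω % p then 1 else 0) +
      u * (2 * Real.log x / Y) := by
    intro ω hω
    obtain ⟨hdx, hdT⟩ := hd ω hω
    unfold sg
    obtain ⟨F1, hF1⟩ : ∃ F1, F1 = R.filter (fun p => ∃ h ∈ T, h % p = d ω % p) := ⟨_, rfl⟩
    obtain ⟨F2, hF2⟩ : ∃ F2, F2 = (pz x).filter (fun p => Y < p ∧ ∃ h ∈ T, h % p = d ω % p) := ⟨_, rfl⟩
    have e1 : (pz x).filter (fun p => w < p ∧ ∃ h ∈ T, h % p = d ω % p) ⊆ F1 ∪ F2 := by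
      intro p hp
      rw [mem_filter] at hp
      obtain ⟨g1, g2, g3⟩ := hp
      rw [mem_union, hF1, hF2, hR, mem_filter, mem_filter, mem_filter]
      by_cases g4 : p ≤ Y
      · exact Or.inl ⟨⟨mem_pz.2 ⟨g4, (mem_pz.1 g1).2⟩, g2⟩, g3⟩
      · exact Or.inr ⟨g1, by omega, g3⟩
    have e2 : ∑ p ∈ (pz x).filter (fun p => w < p ∧ ∃ h ∈ T, h % p = d ω % p), 1 / (p : ℝ) ≤
        ∑ p ∈ F1, 1 / (p : ℝ) + ∑ p ∈ F2, 1 / (p : ℝ) := by
      have e3 : ∑ p ∈ (pz x).filter (fun p => w < p ∧ ∃ h ∈ T, h % p = d ω % p), 1 / (p : ℝ) ≤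
          ∑ p ∈ F1 ∪ F2, 1 / (p : ℝ) := sum_le_sum_of_subset_of_nonneg e1 fun p _ _ => by positivity
      have e4 := sum_union_inter (s₁ := F1) (s₂ := F2) (f := fun p : ℕ => 1 / (p : ℝ))
      have e5 : 0 ≤ ∑ p ∈ F1 ∩ F2, 1 / (p : ℝ) := sum_nonneg fun p _ => by positivity
      linarith
    have e6 : ∑ p ∈ F1, 1 / (p : ℝ) ≤ ∑ p ∈ R, 1 / (p : ℝ) * ∑ h ∈ T, (if h % p = d ω % p then 1 else 0) := by
      rw [hF1, sum_filter]
      apply sum_le_sum
      intro p hp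
      split_ifs with h
      · obtain ⟨a, ha, hb⟩ := h
        have h2 : (1 : ℝ) ≤ ∑ h ∈ T, (if h % p = d ω % p then 1 else 0) := by
          have h3 := single_le_sum (f := fun h : ℕ => if h % p = d ω % p then (1 : ℝ) else 0)
            (fun i _ => by positivity) ha
          simp only [hb, if_true] at h3
          exact h3
        exact le_mul_of_one_le_right (by positivity) h2
      · exact mul_nonneg (by positivity) (sum_nonneg fun i _ => by positivity)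
    have e7 : ∑ p ∈ F2, 1 / (p : ℝ) ≤ u * (2 * Real.log x / Y) := by
      have e8 : ∑ p ∈ F2, 1 / (p : ℝ) ≤ ∑ _p ∈ F2, 1 / (Y : ℝ) := by
        apply sum_le_sum
        intro p hp
        rw [hF2, mem_filter] at hp
        apply one_div_le_one_div_of_le hY0
        exact_mod_cast hp.2.1.le
      rw [sum_const, nsmul_eq_mul] at e8
      have e9 : F2.card ≤ ∑ h ∈ T, (F2.filter (fun p => h % p = d ω % p)).card := by
        have e10 : F2 ⊆ T.biUnion (fun h => F2.filter (fun p => h % p = d ω % p)) := by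
          intro p hp
          have hp' := hp
          rw [hF2, mem_filter] at hp'
          obtain ⟨_, _, h, hh, hhd⟩ := hp'
          rw [mem_biUnion]
          exact ⟨h, hh, mem_filter.2 ⟨hp, hhd⟩⟩
        exact (card_le_card e10).trans card_biUnion_le
      have e11 : ((∑ h ∈ T, (F2.filter (fun p => h % p = d ω % p)).card : ℕ) : ℝ) ≤ u * (2 * Real.log x) := by
        push_cast
        rw [← hT]
        have e12 : ∀ h ∈ T, (((F2.filter (fun p => h % p = d ω % p)).card : ℕ) : ℝ) ≤ 2 * Real.log x := by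
          intro h hh
          have hne : h ≠ d ω := fun e => hdT (e ▸ hh)
          have hhx := hTx h hh
          apply few_pf x ((d ω - h) + (h - d ω)) (by omega) (by omega)
          intro p hp
          rw [mem_filter, hF2, mem_filter] at hp
          obtain ⟨⟨g1, _⟩, g2⟩ := hp
          refine ⟨(mem_pz.1 g1).2, ?_⟩
          rcases lt_or_gt_of_ne hne with h3 | h3
          · have h4 : p ∣ d ω - h := (Nat.modEq_iff_dvd' h3.le).1 g2
            have h5 : h - d ω = 0 := by omega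
            rw [h5, add_zero]
            exact h4
          · have h4 : p ∣ h - d ω := (Nat.modEq_iff_dvd' h3.le).1 g2.symm
            have h5 : d ω - h = 0 := by omega
            rw [h5, zero_add]
            exact h4
        refine (sum_le_sum e12).trans ?_
        rw [sum_const, nsmul_eq_mul]
      have e13 : (F2.card : ℝ) ≤ u * (2 * Real.log x) := le_trans (by exact_mod_cast e9) e11
      refine e8.trans ?_
      have e14 := mul_le_mul_of_nonneg_right e13 (by positivity : (0 : ℝ) ≤ 1 / Y)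
      refine e14.trans (le_of_eq ?_)
      ring
    linarith
  have hlog : 0 ≤ Real.log x := Real.log_natCast_nonneg _
  have h2 : ∑ ω ∈ Ω, P ω * sg T w x (d ω) ≤ u * (1 / (w : ℝ) + (κ * (1 + Real.log Y) + 2 * Real.log x / Y)) := by
    have g1 : ∑ ω ∈ Ω, P ω * sg T w x (d ω) ≤
        ∑ ω ∈ Ω, P ω * ∑ p ∈ R, 1 / (p : ℝ) * ∑ h ∈ T, (if h % p = d ω % p then (1 : ℝ) else 0) +
        ∑ ω ∈ Ω, P ω * (u * (2 * Real.log x / Y)) := by
      rw [← sum_add_distrib]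
      apply sum_le_sum
      intro ω hω
      rw [← mul_add]
      exact mul_le_mul_of_nonneg_left (h1 ω hω) (hP0 ω hω)
    have g2 : ∑ ω ∈ Ω, P ω * (u * (2 * Real.log x / Y)) ≤ u * (2 * Real.log x / Y) := by
      rw [← sum_mul]
      exact mul_le_of_le_one_left (by positivity) hP1
    have g3 : ∑ ω ∈ Ω, P ω * ∑ p ∈ R, 1 / (p : ℝ) * ∑ h ∈ T, (if h % p = d ω % p then (1 : ℝ) else 0) =
        ∑ p ∈ R, 1 / (p : ℝ) * ∑ h ∈ T, ∑ ω ∈ Ω.filter (fun ω => h % p = d ω % p), P ω := by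
      have g4 : ∀ ω ∈ Ω, P ω * ∑ p ∈ R, 1 / (p : ℝ) * ∑ h ∈ T, (if h % p = d ω % p then (1 : ℝ) else 0) =
          ∑ p ∈ R, ∑ h ∈ T, 1 / (p : ℝ) * (if h % p = d ω % p then P ω else 0) := by
        intro ω _
        rw [mul_sum]
        apply sum_congr rfl
        intro p _
        rw [mul_sum, mul_sum]
        apply sum_congr rfl
        intro h _
        split_ifs <;> ring
      rw [sum_congr rfl g4, sum_comm]
      apply sum_congr rfl
      intro p _
      rw [sum_comm, mul_sum]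
      apply sum_congr rfl
      intro h _
      rw [← mul_sum, sum_filter]
    have g5 : ∑ p ∈ R, 1 / (p : ℝ) * ∑ h ∈ T, ∑ ω ∈ Ω.filter (fun ω => h % p = d ω % p), P ω ≤
        ∑ p ∈ R, 1 / (p : ℝ) * (u * (1 / (p : ℝ) + κ)) := by
      apply sum_le_sum
      intro p hp
      apply mul_le_mul_of_nonneg_left _ (by positivity)
      have g6 : ∀ h ∈ T, ∑ ω ∈ Ω.filter (fun ω => h % p = d ω % p), P ω ≤ 1 / (p : ℝ) + κ :=
        fun h _ => hcls p (hRm p hp).1 (hRm p hp).2.1 (hRm p hp).2.2 h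
      refine (sum_le_sum g6).trans ?_
      rw [sum_const, nsmul_eq_mul, hT]
    have g7 : ∑ p ∈ R, 1 / (p : ℝ) * (u * (1 / (p : ℝ) + κ)) =
        u * (∑ p ∈ R, 1 / (p : ℝ) ^ 2 + κ * ∑ p ∈ R, 1 / (p : ℝ)) := by
      rw [mul_sum, ← sum_add_distrib, mul_sum]
      apply sum_congr rfl
      intro p hp
      have hp0 : (0 : ℝ) < p := by exact_mod_cast (hRm p hp).1.pos
      field_simp
    have g8 := tail_sq R w hw1 (fun p hp => (hRm p hp).2.1)
    have g9 := sum_inv_le Y R (fun p hp => ⟨(hRm p hp).1.pos, (hRm p hp).2.2⟩)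
    have g10 : κ * ∑ p ∈ R, 1 / (p : ℝ) ≤ κ * (1 + Real.log Y) := mul_le_mul_of_nonneg_left g9 hκ
    have g11 : (u : ℝ) * (∑ p ∈ R, 1 / (p : ℝ) ^ 2 + κ * ∑ p ∈ R, 1 / (p : ℝ)) ≤
        u * (1 / (w : ℝ) + κ * (1 + Real.log Y)) := mul_le_mul_of_nonneg_left (by linarith) (Nat.cast_nonneg _)
    rw [g3] at g1
    rw [g7] at g5
    linarith
  have h3 : (∑ ω ∈ Ω.filter (fun ω => δ < sg T w x (d ω)), P ω) * δ ≤ ∑ ω ∈ Ω, P ω * sg T w x (d ω) := by
    rw [sum_mul]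
    calc ∑ ω ∈ Ω.filter (fun ω => δ < sg T w x (d ω)), P ω * δ ≤
        ∑ ω ∈ Ω.filter (fun ω => δ < sg T w x (d ω)), P ω * sg T w x (d ω) := by
          apply sum_le_sum
          intro ω hω
          rw [mem_filter] at hω
          exact mul_le_mul_of_nonneg_left hω.2.le (hP0 ω hω.1)
      _ ≤ ∑ ω ∈ Ω, P ω * sg T w x (d ω) := by
          apply sum_le_sum_of_subset_of_nonneg (filter_subset _ _)
          intro ω hω _
          apply mul_nonneg (hP0 ω hω)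
          unfold sg
          exact sum_nonneg fun p _ => by positivity
  rw [div_mul_eq_mul_div, le_div_iff₀ hδ]
  linarith

/-- the errors are small -/
theorem small (b D' w B : ℕ) (hb : 2 ≤ b) (K : ℝ) (hK : 0 < K) : ∃ k₀ : ℕ, ∀ k x z : ℕ, k₀ ≤ k → b ^ k ≤ k ^ D' * x →
    x ≤ D' * b ^ k → Real.log x ^ 2 ≤ z → 1 ≤ z → (z : ℝ) ≤ (k : ℝ) ^ B →
    Real.exp (-√(k : ℝ)) * (1 + Real.log z) + 2 * Real.log x / z ≤ K ∧ 2 / (z : ℝ) + Real.exp (-√(k : ℝ)) ≤ K ∧
      Sz b k x (3 * D') D' w := by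
  obtain ⟨k₁, h1⟩ := sizes b D' w hb
  obtain ⟨k₂, h2⟩ := sv_num b hb B 2
  refine ⟨max (max k₁ k₂) ⌈(3 / K) ^ 2⌉₊, fun k x z hk hx1 hx2 hxz hz hzB => ?_⟩
  have hs := h1 k x ((le_max_left _ _).trans ((le_max_left _ _).trans hk)) hx1 hx2
  obtain ⟨_, _, _, n4, n5⟩ := h2 k ((le_max_right _ _).trans ((le_max_left _ _).trans hk))
  have hkK : (3 / K) ^ 2 ≤ k := (Nat.le_ceil _).trans (by exact_mod_cast (le_max_right _ _).trans hk)
  have hs' := hs
  obtain ⟨s1, s2, s3, s4, s5, s6, s7, s8, s9⟩ := hs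
  obtain ⟨l, hl⟩ : ∃ l, l = Real.log x := ⟨_, rfl⟩
  rw [← hl] at s7 s8 s9 hxz ⊢
  have hkr : (16 : ℝ) ≤ k := by exact_mod_cast s1
  have hz0 : (0 : ℝ) < z := by exact_mod_cast hz
  have hl0 : 0 < l := by linarith
  have hlK : 3 / K ≤ l := by
    by_contra h
    push Not at h
    have h3 : l ^ 2 < (3 / K) ^ 2 := pow_lt_pow_left₀ h hl0.le (by norm_num)
    linarith
  have hlz : 0 ≤ Real.log z := Real.log_natCast_nonneg _
  have hlk : 1 ≤ Real.log k := by
    rw [Real.le_log_iff_exp_le (by linarith)]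
    have := Real.exp_one_lt_d9
    linarith
  have h3 : 1 + Real.log z ≤ Real.exp (B * Real.log k ^ 2) := by
    have h4 : Real.log z ≤ B * Real.log k := by
      have h5 := Real.log_le_log hz0 hzB
      rwa [Real.log_pow] at h5
    have h5 : (B : ℝ) * Real.log k ≤ B * Real.log k ^ 2 := by
      apply mul_le_mul_of_nonneg_left _ (Nat.cast_nonneg _)
      nlinarith
    have h6 := Real.add_one_le_exp ((B : ℝ) * Real.log k ^ 2)
    linarith
  have h4 : Real.exp (-√(k : ℝ)) * (1 + Real.log z) ≤ 1 / (2 * (k : ℝ) ^ 2) := by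
    calc Real.exp (-√(k : ℝ)) * (1 + Real.log z) ≤ Real.exp (-√(k : ℝ)) * Real.exp (B * Real.log k ^ 2) :=
          mul_le_mul_of_nonneg_left h3 (Real.exp_pos _).le
      _ = Real.exp (B * Real.log k ^ 2) * Real.exp (-√(k : ℝ)) := mul_comm _ _
      _ ≤ _ := n4
  have h5 : 1 / (2 * (k : ℝ) ^ 2) ≤ 1 / l := by
    apply one_div_le_one_div_of_le hl0
    have := s7.trans s5
    nlinarith
  have h6 : 2 * l / z ≤ 2 / l := by
    rw [div_le_div_iff₀ hz0 hl0]
    nlinarith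
  have h7 : 2 / (z : ℝ) ≤ 2 / l := by
    apply div_le_div_of_nonneg_left (by norm_num) hl0
    nlinarith
  have h8 : Real.exp (-√(k : ℝ)) ≤ Real.exp (-√(k : ℝ)) * (1 + Real.log z) :=
    le_mul_of_one_le_right (Real.exp_pos _).le (by linarith)
  have h9 : 1 / l + 2 / l ≤ K := by
    rw [← add_div, div_le_iff₀ hl0]
    rw [div_le_iff₀ hK] at hlK
    linarith
  exact ⟨by linarith, by linarith, hs'⟩

end Pool.Agent.K9h59.OM
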