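import Pool.Agent.K9h59.OM.Win

set_option autoImplicit false

/-! Random digits: the change to random integers at every scale, and the characteristic function at rational points. -/

namespace Pool.Agent.K9h59.OM

open Finset
open Pool.Agent.H807R2.Dav
open Pool.Agent.Y885 (fp char_all rd_natAbs)

/-- independent random digits `< H`; all but the `D log k` highest ones have no atom larger than `1 - η` -/
structure Dig (H k D : ℕ) (η : ℝ) (σ : ℕ → Finset ℕ) (p : ℕ → ℕ → ℝ) : Prop where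
  sub : ∀ j < k, ∀ a ∈ σ j, a < H ∧ 0 ≤ p j a
  one : ∀ j < k, ∑ a ∈ σ j, p j a = 1
  far : ∀ j < k, (j : ℝ) + D * Real.log k ≤ k → ∀ a ∈ σ j, p j a ≤ 1 - η

/-- the number with the digits `ω` -/
def val (b : ℕ) {k : ℕ} (ω : Fin k → ℕ) : ℕ := ∑ j : Fin k, b ^ (j : ℕ) * ω j

/-- the embedding of the digits -/
def em (m b j a : ℕ) : ℤ := ((m * b ^ j * a : ℕ) : ℤ)

def sI (m b : ℕ) (σ : ℕ → Finset ℕ) (j : ℕ) : Finset ℤ := (σ j).image (em m b j)

noncomputable def pI (m b : ℕ) (p : ℕ → ℕ → ℝ) (j : ℕ) (x : ℤ) : ℝ := p j (x.toNat / (m * b ^ j))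

lemma em_inj {m b j : ℕ} (hm : 1 ≤ m) (hb : 1 ≤ b) : Function.Injective (em m b j) := by
  intro a a' h
  unfold em at h
  have h1 : m * b ^ j * a = m * b ^ j * a' := by exact_mod_cast h
  have h2 : 0 < m * b ^ j := Nat.mul_pos (by omega) (Nat.pow_pos (by omega))
  exact Nat.eq_of_mul_eq_mul_left h2 h1

lemma pI_em {m b : ℕ} (hm : 1 ≤ m) (hb : 1 ≤ b) (p : ℕ → ℕ → ℝ) (j a : ℕ) : pI m b p j (em m b j a) = p j a := by
  unfold pI em
  rw [Int.toNat_natCast]
  have h2 : 0 < m * b ^ j := Nat.mul_pos (by omega) (Nat.pow_pos (by omega))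
  rw [Nat.mul_div_cancel_left _ h2]

/-- the change of variables -/
lemma conv {m b k : ℕ} (hm : 1 ≤ m) (hb : 1 ≤ b) (σ : ℕ → Finset ℕ) (p : ℕ → ℕ → ℝ) (F : (Fin k → ℤ) → ℂ) :
    ∑ ω ∈ Fintype.piFinset (fun j : Fin k => sI m b σ j), (((∏ j : Fin k, pI m b p j (ω j) : ℝ)) : ℂ) * F ω =
      ∑ ξ ∈ Fintype.piFinset (fun j : Fin k => σ j), (((∏ j : Fin k, p j (ξ j) : ℝ)) : ℂ) * F (fun j => em m b j (ξ j)) := by
  classical
  have h := Fintype.piFinset_image (fun j : Fin k => em m b (j : ℕ)) (fun j : Fin k => σ j)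
  have h2 : (Fintype.piFinset fun j : Fin k => sI m b σ j) =
      (Fintype.piFinset fun j : Fin k => σ j).image (fun (ξ : Fin k → ℕ) (j : Fin k) => em m b (j : ℕ) (ξ j)) := by
    rw [← h]
    rfl
  rw [h2, sum_image]
  · apply sum_congr rfl
    intro ξ _
    have h3 : ∏ j : Fin k, pI m b p j (em m b j (ξ j)) = ∏ j : Fin k, p j (ξ j) :=
      prod_congr rfl fun j _ => pI_em hm hb p j (ξ j)
    rw [h3]
  · intro ξ _ ξ' _ he
    funext j
    exact em_inj hm hb (congrFun he j)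

lemma sum_em {m b k : ℕ} (ξ : Fin k → ℕ) : ∑ j : Fin k, em m b j (ξ j) = ((m * val b ξ : ℕ) : ℤ) := by
  unfold em val
  push_cast
  rw [mul_sum]
  apply sum_congr rfl
  intro j _
  ring

lemma sI_sum {m b : ℕ} (hm : 1 ≤ m) (hb : 1 ≤ b) (σ : ℕ → Finset ℕ) (p : ℕ → ℕ → ℝ) (j : ℕ) :
    ∑ x ∈ sI m b σ j, pI m b p j x = ∑ a ∈ σ j, p j a := by
  unfold sI
  rw [sum_image (fun a _ a' _ h => em_inj hm hb h)]
  exact sum_congr rfl fun a _ => pI_em hm hb p j a

/-- the differences of the digits are far from the integers -/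
lemma fp_low {H k D : ℕ} {η : ℝ} {σ : ℕ → Finset ℕ} {p : ℕ → ℕ → ℝ} (hD : Dig H k D η σ p) {b : ℕ} (hb : 2 ≤ b)
    (θ : ℝ) (j : ℕ) (hj : j < k) (hjD : (j : ℝ) + D * Real.log k ≤ k)
    (hfar : 1 / (2 * (b : ℝ)) < nd ((b : ℝ) ^ j * ((H.factorial : ℝ) * θ))) :
    η ≤ fp (sI 1 b σ j) (pI 1 b p j) (1 / (2 * b * H.factorial)) θ := by
  classical
  have hb0 : (0 : ℝ) < b := by exact_mod_cast (by omega : 0 < b)
  have hF0 : (0 : ℝ) < (H.factorial : ℝ) := by exact_mod_cast Nat.factorial_pos H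
  have hp0 : ∀ a ∈ σ j, 0 ≤ p j a := fun a ha => (hD.sub j hj a ha).2
  unfold fp
  have e1 : ∑ x ∈ sI 1 b σ j, ∑ y ∈ sI 1 b σ j, (if 1 / (2 * b * H.factorial) <
      |((x - y : ℤ) : ℝ) * θ - round (((x - y : ℤ) : ℝ) * θ)| then pI 1 b p j x * pI 1 b p j y else 0) =
      ∑ a ∈ σ j, ∑ a' ∈ σ j, (if 1 / (2 * b * H.factorial) <
        |((em 1 b j a - em 1 b j a' : ℤ) : ℝ) * θ - round (((em 1 b j a - em 1 b j a' : ℤ) : ℝ) * θ)|
        then p j a * p j a' else 0) := by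
    unfold sI
    rw [sum_image (fun a _ a' _ h => em_inj le_rfl (by omega) h)]
    apply sum_congr rfl
    intro a _
    rw [sum_image (fun a _ a' _ h => em_inj le_rfl (by omega) h)]
    apply sum_congr rfl
    intro a' _
    rw [pI_em le_rfl (by omega), pI_em le_rfl (by omega)]
  rw [e1]
  have key : ∀ a ∈ σ j, ∀ a' ∈ σ j, a ≠ a' → 1 / (2 * b * H.factorial) <
        |((em 1 b j a - em 1 b j a' : ℤ) : ℝ) * θ - round (((em 1 b j a - em 1 b j a' : ℤ) : ℝ) * θ)| := by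
    intro a ha a' ha' hne
    rw [← rd_natAbs]
    obtain ⟨h, hh⟩ : ∃ h : ℕ, h = ((a : ℤ) - a').natAbs := ⟨_, rfl⟩
    have h1 : 1 ≤ h := by omega
    have h2 : h < H := by
      have := (hD.sub j hj a ha).1
      have := (hD.sub j hj a' ha').1
      omega
    have h3 : ((em 1 b j a - em 1 b j a').natAbs : ℕ) = b ^ j * h := by
      unfold em
      have : ((1 * b ^ j * a : ℕ) : ℤ) - ((1 * b ^ j * a' : ℕ) : ℤ) = ((b ^ j : ℕ) : ℤ) * ((a : ℤ) - a') := by
        push_cast; ring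
      rw [this, Int.natAbs_mul, Int.natAbs_natCast, hh]
    rw [h3]
    obtain ⟨g, hg⟩ : h ∣ H.factorial := Nat.dvd_factorial (by omega) (by omega)
    have hg0 : 0 < g := by
      rcases Nat.eq_zero_or_pos g with h0 | h0
      · rw [h0, mul_zero] at hg
        exact absurd hg (Nat.factorial_pos H).ne'
      · exact h0
    have hgle : g ≤ H.factorial := by
      rw [hg]
      exact Nat.le_mul_of_pos_left _ h1
    have h4 : (b : ℝ) ^ j * ((H.factorial : ℝ) * θ) = (g : ℝ) * (((b ^ j * h : ℕ) : ℝ) * θ) := by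
      rw [hg]
      push_cast
      ring
    rw [h4] at hfar
    have h5 := nd_mul g (((b ^ j * h : ℕ) : ℝ) * θ)
    have h6 : (g : ℝ) * nd (((b ^ j * h : ℕ) : ℝ) * θ) ≤ H.factorial * nd (((b ^ j * h : ℕ) : ℝ) * θ) :=
      mul_le_mul_of_nonneg_right (by exact_mod_cast hgle) (nd_nonneg _)
    have h7 : 1 / (2 * (b : ℝ)) < H.factorial * nd (((b ^ j * h : ℕ) : ℝ) * θ) := lt_of_lt_of_le hfar (h5.trans h6)
    have h8 : 1 / (2 * b * (H.factorial : ℝ)) = 1 / (2 * (b : ℝ)) / H.factorial := by field_simp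
    rw [h8, div_lt_iff₀ hF0]
    unfold nd at h7
    linarith [h7]
  have h1 : ∑ a ∈ σ j, ∑ a' ∈ σ j, (if a = a' then 0 else p j a * p j a') ≤
      ∑ a ∈ σ j, ∑ a' ∈ σ j, (if 1 / (2 * b * H.factorial) <
        |((em 1 b j a - em 1 b j a' : ℤ) : ℝ) * θ - round (((em 1 b j a - em 1 b j a' : ℤ) : ℝ) * θ)|
        then p j a * p j a' else 0) := by
    apply sum_le_sum
    intro a ha
    apply sum_le_sum
    intro a' ha'
    have hpos := mul_nonneg (hp0 a ha) (hp0 a' ha')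
    by_cases h : a = a'
    · rw [if_pos h]
      split_ifs
      · exact hpos
      · exact le_rfl
    · rw [if_neg h, if_pos (key a ha a' ha' h)]
  refine le_trans ?_ h1
  have h2 : ∀ a ∈ σ j, p j a * η ≤ ∑ a' ∈ σ j, (if a = a' then 0 else p j a * p j a') := by
    intro a ha
    have h3 : ∑ a' ∈ σ j, (if a = a' then 0 else p j a * p j a') = p j a * ∑ a' ∈ σ j, p j a' - p j a * p j a := by
      have h4 : ∀ a' ∈ σ j, (if a = a' then 0 else p j a * p j a') = p j a * p j a' - (if a = a' then p j a * p j a' else 0) := by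
        intro a' _
        split_ifs <;> ring
      rw [sum_congr rfl h4, sum_sub_distrib, ← mul_sum, sum_ite_eq, if_pos ha]
    rw [h3, hD.one j hj]
    have h5 := hD.far j hj hjD a ha
    nlinarith [hp0 a ha]
  have h3 := sum_le_sum h2
  rw [← sum_mul, hD.one j hj, one_mul] at h3
  exact h3

end Pool.Agent.K9h59.OM
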