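import Pool.Agent.K9h59.OM.Av

set_option autoImplicit false

/-! The normalised counts for a random shift. -/

namespace Pool.Agent.K9h59.OM

open Finset Filter
open Pool.Agent.H387R2.Uni (nuT locT CT CT_hasProd CT_nonneg)
open Pool.Agent.H373R2.T7 (pz mem_pz Vz Vz_pos)
open Pool.Agent.K9h54.TF (sg ratio Vz_le_one fin_calc)

/-- a prime larger than `w` is coprime to the product of the primes up to `w` -/
lemma cop_W {w q : ℕ} (hq : q.Prime) (hwq : w < q) : Nat.Coprime q (∏ r ∈ pz w, r) := by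
  rw [Nat.coprime_prod_right_iff]
  intro r hr
  rw [Nat.coprime_primes hq (mem_pz.1 hr).2]
  have := (mem_pz.1 hr).1
  omega

open Classical in
/-- THE NORMALISED COUNTS -/
theorem comb (u b H D D' : ℕ) (hb : 2 ≤ b) (η : ℝ) (hη : 0 < η) (C5 : ℝ) (hC5 : 1 ≤ C5) (ε : ℝ) (hε : 0 < ε) :
    ∃ ν : ℝ, 0 < ν ∧ ∃ w1 : ℕ, ∀ w : ℕ, w1 ≤ w → ∀ B : ℕ, ∃ k₀ : ℕ, ∀ k : ℕ, k₀ ≤ k →
    ∀ (σ : ℕ → Finset ℕ) (p : ℕ → ℕ → ℝ), Dig H k D η σ p → ∀ x z : ℕ, b ^ k ≤ k ^ D' * x → x ≤ D' * b ^ k →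
    2 * w + 2 ≤ z → Real.log x ^ 2 ≤ z → (z : ℝ) ≤ (k : ℝ) ^ B → ∀ T : Finset ℕ, T.card = u →
    (∀ p, p.Prime → nuT T p < p) → (∀ h ∈ T, h ≤ x) → 0 < CT T → ∀ a : ℝ, 0 ≤ a →
    a ≤ C5 * (CT T * (x / Real.log x ^ u)) → ∀ c : ℕ, (∀ r ∈ pz w, ∃ h ∈ T, h % r = c % r) →
    (∀ ξ ∈ Om k σ, c + (∏ q ∈ pz w, q) * val b ξ ≤ x) → ∀ Bf : ℕ → ℝ,
    ∑ ξ ∈ (Om k σ).filter (fun ξ => 3 * ν * (CT T * (x / Real.log x ^ u)) <
      |Real.log x * Bf (c + (∏ q ∈ pz w, q) * val b ξ) - (Vz w)⁻¹ * a|), wt k p ξ ≤ ν →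
    ∑ ξ ∈ (Om k σ).filter (fun ξ => c + (∏ q ∈ pz w, q) * val b ξ ∈ T ∨
      ¬ (0 < CT (insert (c + (∏ q ∈ pz w, q) * val b ξ) T) ∧
        |Bf (c + (∏ q ∈ pz w, q) * val b ξ) * Real.log x ^ (u + 1) /
          (CT (insert (c + (∏ q ∈ pz w, q) * val b ξ) T) * x) - a * Real.log x ^ u / (CT T * x)| ≤ ε)), wt k p ξ ≤ ε := by
  obtain ⟨e, he⟩ : ∃ e, e = min ε 1 := ⟨_, rfl⟩
  have he0 : 0 < e := by rw [he]; exact lt_min hε one_pos
  have he1 : e ≤ 1 := by rw [he]; exact min_le_right _ _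
  have heε : e ≤ ε := by rw [he]; exact min_le_left _ _
  obtain ⟨ν, hν⟩ : ∃ ν, ν = e / 12 := ⟨_, rfl⟩
  have hν0 : 0 < ν := by rw [hν]; positivity
  obtain ⟨ρ, hρ⟩ : ∃ ρ, ρ = e / (4 * C5) := ⟨_, rfl⟩
  have hρ0 : 0 < ρ := by rw [hρ]; positivity
  have hρC : C5 * ρ = e / 4 := by rw [hρ]; field_simp
  have hρ2 : ρ ≤ 1 / 4 := by nlinarith
  obtain ⟨δ, hδ⟩ : ∃ δ, δ = ρ / 4 := ⟨_, rfl⟩
  have hδ0 : 0 < δ := by rw [hδ]; positivity
  have hδ1 : δ ≤ 1 := by rw [hδ]; linarith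
  refine ⟨ν, hν0, max (max b H) (⌈4 * u / ρ⌉₊ + ⌈12 * u / (δ * e)⌉₊ + 4 * u + 4), fun w hw B => ?_⟩
  have hbw : b ≤ w := (le_max_left _ _).trans ((le_max_left _ _).trans hw)
  have hHw : H ≤ w := (le_max_right _ _).trans ((le_max_left _ _).trans hw)
  have hw' := (le_max_right _ _).trans hw
  have hwa : 4 * u / ρ ≤ w := by
    have h1 : ⌈4 * u / ρ⌉₊ ≤ w := by omega
    exact (Nat.le_ceil _).trans (by exact_mod_cast h1)
  have hwb : 12 * u / (δ * e) ≤ w := by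
    have h1 : ⌈12 * u / (δ * e)⌉₊ ≤ w := by omega
    exact (Nat.le_ceil _).trans (by exact_mod_cast h1)
  have hwc : 4 * u + 4 ≤ w := by omega
  have hw0r : (0 : ℝ) < w := by exact_mod_cast (by omega : 0 < w)
  obtain ⟨K1, hK1⟩ : ∃ K1 : ℝ, K1 = δ * e / (12 * (u + 1)) := ⟨_, rfl⟩
  have hK10 : 0 < K1 := by rw [hK1]; positivity
  have hK1a : (u : ℝ) / δ * K1 ≤ e / 12 := by
    have e1 : (u : ℝ) / δ * K1 = u / (u + 1) * (e / 12) := by
      rw [hK1]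
      field_simp
    rw [e1]
    apply mul_le_of_le_one_left (by positivity)
    rw [div_le_one (by positivity)]
    linarith
  have hK1b : (u : ℝ) * K1 ≤ e / 12 := by
    refine le_trans ?_ hK1a
    apply mul_le_mul_of_nonneg_right _ hK10.le
    exact le_div_self (Nat.cast_nonneg _) hδ0 hδ1
  obtain ⟨k₁, hsm⟩ := small b D' w B hb K1 hK10
  obtain ⟨k₂, hcl⟩ := clsD b H D hb η hη B
  refine ⟨max k₁ k₂, fun k hk σ p hD x z hx1 hx2 hzw hlz hzB T hT hadm hTx hCT a ha haM c hcov hdx Bf hmain => ?_⟩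
  have hz1 : 1 ≤ z := by omega
  obtain ⟨q1, q2, hsz⟩ := hsm k x z ((le_max_left _ _).trans hk) hx1 hx2 hlz hz1 hzB
  have hcl := hcl k ((le_max_right _ _).trans hk) σ p hD
  obtain ⟨W, hW⟩ : ∃ W : ℕ, W = ∏ q ∈ pz w, q := ⟨_, rfl⟩
  rw [← hW] at hdx hmain ⊢
  obtain ⟨V, hV⟩ : ∃ V, V = (Vz w)⁻¹ := ⟨_, rfl⟩
  have hV1 : 1 ≤ V := by rw [hV]; exact (one_le_inv₀ (Vz_pos w)).2 (Vz_le_one w)
  rw [← hV] at hmain
  obtain ⟨s1, s2, s3, s4, s5, s6, s7, s8, s9⟩ := hsz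
  have hx0 : (0 : ℝ) < x := by exact_mod_cast s2
  obtain ⟨l, hl⟩ : ∃ l, l = Real.log x := ⟨_, rfl⟩
  rw [← hl] at s9 haM hmain hlz q1 ⊢
  have hl0 : 0 < l := by linarith
  obtain ⟨κ, hκ⟩ : ∃ κ, κ = Real.exp (-√(k : ℝ)) := ⟨_, rfl⟩
  have hκ0 : 0 ≤ κ := by rw [hκ]; positivity
  rw [← hκ] at q1 q2 hcl
  obtain ⟨d, hd⟩ : ∃ d : (Fin k → ℕ) → ℕ, d = fun ξ => c + W * val b ξ := ⟨_, rfl⟩
  have hdv : ∀ ξ, c + W * val b ξ = d ξ := fun ξ => by rw [hd]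
  have hP0 := wt_nonneg hD
  have hqc : ∀ q : ℕ, q.Prime → w < q → q ≤ z → ∀ F ⊆ Om k σ, (∃ r : ℕ, ∀ ξ ∈ F, r % q = d ξ % q) →
      ∑ ξ ∈ F, wt k p ξ ≤ 1 / (q : ℝ) + κ := by
    intro q hq hwq hqz F hF ⟨r, hr⟩
    apply hcl W w c hbw hHw q hq hwq (by rw [hW]; exact cop_W hq hwq) (by
      refine le_trans ?_ hzB
      exact_mod_cast hqz) F hF
    exact ⟨r, fun ξ hξ => by rw [hdv]; exact hr ξ hξ⟩
  simp only [hdv] at hdx hmain ⊢
  -- the tuple is hit with small probability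
  have p1 : ∑ ξ ∈ (Om k σ).filter (fun ξ => d ξ ∈ T), wt k p ξ ≤ e / 12 := by
    obtain ⟨q, hq, hq1, hq2⟩ := Nat.exists_prime_lt_and_le_two_mul (z / 2) (by omega)
    have g1 : ∑ ξ ∈ (Om k σ).filter (fun ξ => d ξ ∈ T), wt k p ξ ≤
        ∑ h ∈ T, ∑ ξ ∈ (Om k σ).filter (fun ξ => h % q = d ξ % q), wt k p ξ := by
      have g2 : ∑ h ∈ T, ∑ ξ ∈ (Om k σ).filter (fun ξ => h % q = d ξ % q), wt k p ξ =
          ∑ ξ ∈ Om k σ, ∑ h ∈ T, (if h % q = d ξ % q then wt k p ξ else 0) := by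
        rw [sum_comm]
        apply sum_congr rfl
        intro h _
        rw [sum_filter]
      rw [g2, sum_filter]
      apply sum_le_sum
      intro ξ hξ
      have g3 : ∀ h ∈ T, 0 ≤ (if h % q = d ξ % q then wt k p ξ else 0) := by
        intro h _
        split_ifs
        · exact hP0 ξ hξ
        · exact le_rfl
      split_ifs with g4
      · have g5 := single_le_sum g3 g4
        rw [if_pos rfl] at g5
        exact g5
      · exact sum_nonneg g3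
    have g2 : ∀ h ∈ T, ∑ ξ ∈ (Om k σ).filter (fun ξ => h % q = d ξ % q), wt k p ξ ≤ 1 / (q : ℝ) + κ := by
      intro h _
      exact hqc q hq (by omega) (by omega) _ (filter_subset _ _) ⟨h, fun ξ hξ => (mem_filter.1 hξ).2⟩
    have g3 := sum_le_sum g2
    rw [sum_const, nsmul_eq_mul, hT] at g3
    have hz0 : (0 : ℝ) < z := by exact_mod_cast hz1
    have g4 : 1 / (q : ℝ) ≤ 2 / z := by
      rw [div_le_div_iff₀ (by exact_mod_cast hq.pos) hz0]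
      have : (z : ℝ) ≤ 2 * q := by exact_mod_cast (by omega : z ≤ 2 * q)
      linarith
    have g5 : (u : ℝ) * (1 / (q : ℝ) + κ) ≤ u * K1 := mul_le_mul_of_nonneg_left (by linarith) (Nat.cast_nonneg _)
    linarith
  -- the ratio of the singular series
  have p2 : ∑ ξ ∈ ((Om k σ).filter (fun ξ => d ξ ∉ T)).filter (fun ξ => δ < sg T w x (d ξ)), wt k p ξ ≤ e / 6 := by
    have g1 := avgL T u w x z hT hTx (by omega) hz1 ((Om k σ).filter (fun ξ => d ξ ∉ T)) (wt k p) d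
      (fun ξ hξ => hP0 ξ (mem_filter.1 hξ).1) (by
        refine le_trans (sum_le_sum_of_subset_of_nonneg (filter_subset _ _) fun ξ hξ _ => hP0 ξ hξ) ?_
        exact (wt_sum hD).le) (fun ξ hξ => ⟨hdx ξ (mem_filter.1 hξ).1, (mem_filter.1 hξ).2⟩) κ hκ0 (by
        intro q hq hwq hqz h
        exact hqc q hq hwq hqz _ ((filter_subset _ _).trans (filter_subset _ _)) ⟨h, fun ξ hξ => (mem_filter.1 hξ).2⟩) δ hδ0
    rw [← hl] at g1
    refine g1.trans ?_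
    have g2 : (u : ℝ) / δ * (1 / w) ≤ e / 12 := by
      rw [div_le_iff₀ (by positivity)] at hwb
      rw [div_mul_div_comm, mul_one, div_le_iff₀ (by positivity)]
      linarith
    have g3 : (u : ℝ) / δ * (κ * (1 + Real.log z) + 2 * l / z) ≤ e / 12 :=
      (mul_le_mul_of_nonneg_left q1 (by positivity)).trans hK1a
    rw [mul_add]
    linarith
  have h4kw : (4 * u : ℝ) / w ≤ ρ := by
    rw [div_le_iff₀ hρ0] at hwa
    rw [div_le_iff₀ hw0r]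
    linarith
  have hsub : (Om k σ).filter (fun ξ => d ξ ∈ T ∨ ¬ (0 < CT (insert (d ξ) T) ∧
        |Bf (d ξ) * l ^ (u + 1) / (CT (insert (d ξ) T) * x) - a * l ^ u / (CT T * x)| ≤ ε)) ⊆
      ((Om k σ).filter (fun ξ => d ξ ∈ T) ∪
        ((Om k σ).filter (fun ξ => d ξ ∉ T)).filter (fun ξ => δ < sg T w x (d ξ))) ∪
      (Om k σ).filter (fun ξ => 3 * ν * (CT T * (x / l ^ u)) < |l * Bf (d ξ) - V * a|) := by
    intro ξ hξ
    rw [mem_filter] at hξ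
    obtain ⟨hξ1, hξ2⟩ := hξ
    rw [mem_union, mem_union, mem_filter, mem_filter, mem_filter, mem_filter]
    by_contra hcon
    push Not at hcon
    obtain ⟨⟨g1, g2⟩, g3⟩ := hcon
    have g1 := g1 hξ1
    have g2 := g2 ⟨hξ1, g1⟩
    have g3 := g3 hξ1
    rcases hξ2 with h | h
    · exact g1 h
    apply h
    have hcovd : ∀ r ∈ pz w, ∃ h ∈ T, h % r = d ξ % r := by
      intro r hr
      obtain ⟨h, hh, hhc⟩ := hcov r hr
      refine ⟨h, hh, ?_⟩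
      rw [hhc, hd]
      have h7 : r ∣ W * val b ξ := by
        apply Dvd.dvd.mul_right
        rw [hW]
        exact dvd_prod_of_mem _ hr
      exact ((Nat.modEq_iff_dvd' (Nat.le_add_right c _)).2 (by simpa using h7))
    have h1 := ratio (w := w) (x := x) hT hadm g1 (hdx ξ hξ1) hTx (by omega) (by omega) hcovd
    rw [← hV] at h1
    have r1 : (1 - ρ) * V * CT T ≤ CT (insert (d ξ) T) := by
      refine le_trans ?_ h1.1
      have h2 : 0 ≤ V * CT T := by positivity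
      nlinarith
    have r3 : CT (insert (d ξ) T) ≤ (1 + ρ) * V * CT T := by
      refine h1.2.trans ?_
      have h1 : Real.exp (2 * sg T w x (d ξ)) ≤ 1 + ρ := by
        have h2 : Real.exp (2 * sg T w x (d ξ)) ≤ Real.exp (2 * δ) := Real.exp_le_exp.2 (by linarith)
        have h3 := Pool.Agent.K9h54.TF.exp_le_two (t := 2 * δ) (by positivity) (by rw [hδ]; linarith)
        rw [hδ] at h3 h2
        linarith
      have h2 : 0 ≤ V * CT T := by positivity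
      nlinarith
    constructor
    · have h2 : 0 < (1 - ρ) * V * CT T := by
        have : 0 < 1 - ρ := by linarith
        positivity
      linarith
    · have g9 := fin_calc (k := u) hl0 hx0 hV1 hCT ha hν0.le hρ0.le (by linarith) haM g3 r1 r3
      have g10 : 2 * (3 * ν + C5 * ρ) ≤ ε := by
        rw [hρC, hν]
        linarith
      linarith
  have hU : ∀ S1 S2 : Finset (Fin k → ℕ), S1 ⊆ Om k σ → S2 ⊆ Om k σ →
      ∑ ξ ∈ S1 ∪ S2, wt k p ξ ≤ ∑ ξ ∈ S1, wt k p ξ + ∑ ξ ∈ S2, wt k p ξ := by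
    intro S1 S2 h1 _
    have h := sum_union_inter (s₁ := S1) (s₂ := S2) (f := wt k p)
    have h2 : 0 ≤ ∑ ξ ∈ S1 ∩ S2, wt k p ξ := sum_nonneg fun ξ hξ => hP0 ξ (h1 (mem_inter.1 hξ).1)
    linarith
  have t1 : (Om k σ).filter (fun ξ => d ξ ∈ T) ⊆ Om k σ := filter_subset _ _
  have t2 : ((Om k σ).filter (fun ξ => d ξ ∉ T)).filter (fun ξ => δ < sg T w x (d ξ)) ⊆ Om k σ :=
    (filter_subset _ _).trans (filter_subset _ _)
  have t3 : (Om k σ).filter (fun ξ => 3 * ν * (CT T * (x / l ^ u)) < |l * Bf (d ξ) - V * a|) ⊆ Om k σ := filter_subset _ _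
  have u1 := hU _ _ (union_subset t1 t2) t3
  have u2 := hU _ _ t1 t2
  refine le_trans (sum_le_sum_of_subset_of_nonneg hsub fun ξ hξ _ => hP0 ξ ?_) ?_
  · exact (union_subset (union_subset t1 t2) t3) hξ
  · linarith

end Pool.Agent.K9h59.OM
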