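import Pool.Agent.K9h59.OM.Ex
import Pool.Agent.K9h54.TF.Core2

set_option autoImplicit false

/-! One more prime for a random shift: the core. -/

namespace Pool.Agent.K9h59.OM

open Finset Filter
open scoped ArithmeticFunction.vonMangoldt
open Pool.Agent.H387R2.Uni (nuT)
open Pool.Agent.H373R2.T7 (lamz pz mem_pz Vz Vz_pos)
open Pool.Agent.K9h54.TF (Sf PiT fac_pos IsP EX mert PiT_low Vz_split split Big big evlog)
open Pool.Agent.K9h54.MP (pow_le_exp)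

theorem choose_w' (C : ℝ) (η : ℝ) (hη : 0 < η) : ∃ w1 : ℕ, ∀ w : ℕ, w1 ≤ w → 4 ≤ w ∧
    1328 * (C * Real.log w) ^ 2 ≤ η ^ 3 * w := by
  obtain ⟨X, hX⟩ := evlog (P := fun l => 1328 * C ^ 2 / η ^ 3 * l ^ 2 ≤ Real.exp (1 * l))
    (pow_le_exp (1328 * C ^ 2 / η ^ 3) 1 2 one_pos)
  refine ⟨max X 4, fun w hw => ⟨(le_max_right _ _).trans hw, ?_⟩⟩
  have h1 := hX w ((le_max_left _ _).trans hw)
  have hw4 : 4 ≤ w := (le_max_right _ _).trans hw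
  have hw0 : (0 : ℝ) < w := by exact_mod_cast (by omega : 0 < w)
  rw [one_mul, Real.exp_log hw0] at h1
  have h2 : η ^ 3 * (1328 * C ^ 2 / η ^ 3 * Real.log w ^ 2) ≤ η ^ 3 * w := mul_le_mul_of_nonneg_left h1 (by positivity)
  refine le_trans (le_of_eq ?_) h2
  field_simp

/-- Chebyshev's inequality -/
theorem chebL {ι : Type} (s : Finset ι) (P f : ι → ℝ) (hP : ∀ i ∈ s, 0 ≤ P i) (θ E : ℝ) (hθ : 0 < θ)
    (h : ∑ i ∈ s, P i * f i ^ 2 ≤ E) : ∑ i ∈ s.filter (fun i => θ < |f i|), P i ≤ E / θ ^ 2 := by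
  rw [le_div_iff₀ (by positivity), sum_mul]
  refine le_trans ?_ h
  refine le_trans ?_ (sum_le_sum_of_subset_of_nonneg (filter_subset (fun i => θ < |f i|) s) fun i hi _ => mul_nonneg (hP i hi) (sq_nonneg _))
  apply sum_le_sum
  intro i hi
  rw [mem_filter] at hi
  apply mul_le_mul_of_nonneg_left _ (hP i hi.1)
  rw [← sq_abs (f i)]
  exact pow_le_pow_left₀ hθ.le hi.2.le 2

/-- Markov's inequality -/
theorem markL {ι : Type} (s : Finset ι) (P f : ι → ℝ) (hP : ∀ i ∈ s, 0 ≤ P i) (θ E : ℝ) (hθ : 0 < θ)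
    (h : ∑ i ∈ s, P i * |f i| ≤ E) : ∑ i ∈ s.filter (fun i => θ < |f i|), P i ≤ E / θ := by
  rw [le_div_iff₀ hθ, sum_mul]
  refine le_trans ?_ h
  refine le_trans ?_ (sum_le_sum_of_subset_of_nonneg (filter_subset (fun i => θ < |f i|) s) fun i hi _ => mul_nonneg (hP i hi) (abs_nonneg _))
  apply sum_le_sum
  intro i hi
  rw [mem_filter] at hi
  exact mul_le_mul_of_nonneg_left hi.2.le (hP i hi.1)

/-- THE CORE for a random shift -/
theorem coreL (k : ℕ) (hk : 1 ≤ k) : ∃ K0 : ℕ, 2 ≤ K0 ∧ ∀ K : ℕ, K0 ≤ K → ∀ η : ℝ, 0 < η → ∃ w1 : ℕ, ∀ w : ℕ, w1 ≤ w →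
    4 ≤ w ∧ ∀ B : ℕ, ∃ x1 : ℕ,
    ∀ x : ℕ, x1 ≤ x → ∀ y : ℕ, y ^ K ≤ x → x < (y + 1) ^ K → ∀ T : Finset ℕ, T.card ≤ k →
    (∀ p, p.Prime → nuT T p < p) → ∀ A ⊆ Icc 1 x, (∀ n ∈ A, ∀ h ∈ T, IsP ((n : ℤ) - h)) →
    ∀ z : ℕ, w ≤ z → (z : ℝ) ≤ Real.log x ^ B →
    ∀ (ι : Type) (Ω : Finset ι) (P : ι → ℝ) (t : ι → ℕ) (a : ℤ), (∀ ω ∈ Ω, 0 ≤ P ω) → ∑ ω ∈ Ω, P ω = 1 →
      SvP Ω P t z w (1 / Real.log x ^ 6) →
      ∑ ω ∈ Ω, P ω * |∑ n ∈ A, EX z (2 * x) (n + (a + (∏ q ∈ pz w, q : ℕ) * t ω))| ≤ x / Real.log x ^ (2 * k + 2) →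
      (∀ n ∈ A, ∀ ω ∈ Ω, 1 ≤ (n : ℤ) + a + (∏ q ∈ pz w, q : ℕ) * t ω ∧
        (n : ℤ) + a + (∏ q ∈ pz w, q : ℕ) * t ω ≤ 2 * x) →
      ∑ ω ∈ Ω.filter (fun ω => η * (x * PiT T y) <
        |∑ n ∈ A, Λ ((n : ℤ) + a + (∏ q ∈ pz w, q : ℕ) * t ω).toNat -
          (Vz w)⁻¹ * ((A.filter (fun n : ℕ => Sf (pz w) (n + a))).card : ℝ)|), P ω ≤ η := by
  classical
  obtain ⟨K1, x0, hK1, hex2⟩ := exL k hk
  obtain ⟨C1, hC1, hlow⟩ := PiT_low k
  obtain ⟨C2, hC2, hM⟩ := mert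
  refine ⟨max K1 2, le_max_right _ _, fun K hK η hη => ?_⟩
  have hK2 : 2 ≤ K := (le_max_right _ _).trans hK
  obtain ⟨w1, hw1⟩ := choose_w' C2 η hη
  refine ⟨max (2 * k) w1, fun w hwk1 => ?_⟩
  obtain ⟨hw4, hw⟩ := hw1 w ((le_max_right _ _).trans hwk1)
  refine ⟨hw4, fun B => ?_⟩
  have hwk : 2 * k ≤ w := (le_max_left _ _).trans hwk1
  obtain ⟨X, hX⟩ := evlog ((big k K B 0 w x0 0 C1 C2 η (by omega) hη).and
    ((eventually_ge_atTop (4 * C1 / η ^ 2)).and (eventually_ge_atTop (4 : ℝ))))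
  refine ⟨max X 3, fun x hx y hyx hxy T hT hadm A hA hAT z hwz hzl ι Ω P t a hP0 hP1 hSv hE1 hr => ?_⟩
  obtain ⟨hb, hη2, _⟩ := hX x ((le_max_left _ _).trans hx)
  have hx3 : 3 ≤ x := (le_max_right _ _).trans hx
  have hx0 : (0 : ℝ) < x := by exact_mod_cast (by omega : 0 < x)
  obtain ⟨l, hl⟩ : ∃ l, l = Real.log x := ⟨_, rfl⟩
  rw [← hl] at hb hη2 hzl hSv hE1
  obtain ⟨l1, a1, a2, a3, a4, a5, a6, a7, a8, a9, a10⟩ := hb
  have hxe : Real.exp l = x := by rw [hl, Real.exp_log hx0]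
  have hl0 : 0 < l := by linarith
  have hw0 : (0 : ℝ) < w := by exact_mod_cast (by omega : 0 < w)
  have hsq : √(x : ℝ) = Real.exp (l / 2) := by
    rw [← hxe, Real.sqrt_eq_rpow, ← Real.exp_mul]
    congr 1
    ring
  have hss : √(x : ℝ) * √(x : ℝ) = x := Real.mul_self_sqrt hx0.le
  have hsq0 : 0 < √(x : ℝ) := Real.sqrt_pos.2 hx0
  rw [← hsq] at a1 a2 a5 a7
  -- the parameter `y`
  have hK0 : (0 : ℝ) < K := by exact_mod_cast (by omega : 0 < K)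
  have hy1 : Real.exp (l / K) < y + 1 := by
    have h1 : (x : ℝ) < ((y : ℝ) + 1) ^ K := by exact_mod_cast hxy
    have h2 : Real.exp (l / K) ^ K = x := by
      rw [← Real.exp_nat_mul, ← hxe]
      congr 1
      field_simp
    rw [← h2] at h1
    exact lt_of_pow_lt_pow_left₀ K (by positivity) h1
  have h2B0 : (0 : ℝ) ≤ (2 * l) ^ B := by positivity
  have hx0y : x0 ≤ y := by
    have : (x0 : ℝ) ≤ y := by linarith
    exact_mod_cast this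
  have hy3 : 3 ≤ y := by
    have h3 : (0 : ℝ) ≤ x0 := Nat.cast_nonneg _
    have : (3 : ℝ) ≤ y := by linarith
    exact_mod_cast this
  have hyK1 : y ^ K1 ≤ x := (Nat.pow_le_pow_right (by omega) ((le_max_left _ _).trans hK)).trans hyx
  have hy2 : (y : ℝ) ≤ √(x : ℝ) := by
    apply Real.le_sqrt_of_sq_le
    have : y ^ 2 ≤ x := (Nat.pow_le_pow_right (by omega) hK2).trans hyx
    exact_mod_cast this
  have hyl : Real.log y ≤ l := by
    rw [hl]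
    apply Real.log_le_log (by exact_mod_cast (by omega : 0 < y))
    have h4 : y ≤ x := by
      calc y = y ^ 1 := (pow_one y).symm
        _ ≤ y ^ K := Nat.pow_le_pow_right (by omega) (by omega)
        _ ≤ x := hyx
    exact_mod_cast h4
  -- the sieving limit
  have hzy : z ≤ y := by
    have h3 : (0 : ℝ) ≤ x0 := Nat.cast_nonneg _
    have h4 : l ^ B ≤ (2 * l) ^ B := pow_le_pow_left₀ hl0.le (by linarith) B
    have : (z : ℝ) ≤ y := by linarith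
    exact_mod_cast this
  -- the density
  obtain ⟨hPi, hPi1⟩ := hlow y hy3 T hT hadm
  obtain ⟨Q, hQ⟩ : ∃ Q, Q = PiT T y := ⟨_, rfl⟩
  have hQl : Q⁻¹ ≤ C1 * l ^ (2 * k) := by
    rw [hQ]
    refine hPi1.trans ?_
    have h5 : 0 ≤ Real.log y := Real.log_natCast_nonneg _
    gcongr
  rw [← hQ] at hPi
  have hQ1 : 1 ≤ Q * (C1 * l ^ (2 * k)) := by
    rw [inv_le_iff_one_le_mul₀ hPi] at hQl
    linarith [mul_comm Q (C1 * l ^ (2 * k))]
  have hVz : (Vz z)⁻¹ ≤ C2 * l := by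
    refine (hM z (by omega)).2.trans ?_
    apply mul_le_mul_of_nonneg_left _ (by linarith)
    refine le_trans ?_ hyl
    apply Real.log_le_log (by exact_mod_cast (by omega : 0 < z))
    exact_mod_cast hzy
  have hVz0 := Vz_pos z
  -- the truncation
  obtain ⟨M, hMd⟩ : ∃ M, M = ⌈l ^ (2 * k + 3)⌉₊ := ⟨_, rfl⟩
  have hlk1 : (1 : ℝ) ≤ l ^ (2 * k + 3) := one_le_pow₀ (by linarith)
  have hM1 : l ^ (2 * k + 3) ≤ M := by rw [hMd]; exact Nat.le_ceil _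
  have hM2 : (M : ℝ) ≤ x := by
    have h1 := Nat.ceil_lt_add_one (show 0 ≤ l ^ (2 * k + 3) by positivity)
    rw [← hMd] at h1
    rw [hxe] at a10
    linarith
  have hM0 : 1 ≤ M := by
    have : (1 : ℝ) ≤ M := hlk1.trans hM1
    exact_mod_cast this
  obtain ⟨γ, hγ⟩ : ∃ γ : ℝ, γ = √(x : ℝ) + k * y + x / M + 1 := ⟨_, rfl⟩
  have hγ0 : 0 ≤ γ := by rw [hγ]; positivity
  have hγ1 : γ ≤ (k + 2) * √(x : ℝ) + x / l ^ (2 * k + 3) := by
    rw [hγ]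
    have h1 : (k : ℝ) * y ≤ k * √(x : ℝ) := mul_le_mul_of_nonneg_left hy2 (Nat.cast_nonneg _)
    have h2 : (x : ℝ) / M ≤ x / l ^ (2 * k + 3) := div_le_div_of_nonneg_left hx0.le (by positivity) hM1
    have h3 : 1 ≤ √(x : ℝ) := by
      rw [Real.one_le_sqrt]
      exact_mod_cast (by omega : 1 ≤ x)
    nlinarith
  have hγ2 : γ * (Vz z)⁻¹ ≤ x * PiT T y / w := by
    rw [← hQ, le_div_iff₀ hw0]
    have h1 : γ * (Vz z)⁻¹ * w ≤ γ * (C2 * l) * w := by gcongr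
    refine h1.trans ?_
    have h2 : γ * (C2 * l) * w * (C1 * l ^ (2 * k)) ≤ x := by
      have h3 : γ * (C2 * l) * w * (C1 * l ^ (2 * k)) = C1 * C2 * w * l ^ (2 * k + 1) * γ := by ring
      rw [h3]
      have h4 : C1 * C2 * w * l ^ (2 * k + 1) * γ ≤
          C1 * C2 * w * l ^ (2 * k + 1) * ((k + 2) * √(x : ℝ) + x / l ^ (2 * k + 3)) := by
        apply mul_le_mul_of_nonneg_left hγ1
        positivity
      refine h4.trans ?_
      have h5 : C1 * C2 * w * l ^ (2 * k + 1) * (x / l ^ (2 * k + 3)) ≤ x / 2 := by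
        have e : C1 * C2 * w * l ^ (2 * k + 1) * (x / l ^ (2 * k + 3)) = C1 * C2 * w / l ^ 2 * x := by
          have : l ^ (2 * k + 3) = l ^ (2 * k + 1) * l ^ 2 := by ring
          rw [this]
          field_simp
        rw [e]
        have h6 : C1 * C2 * w / l ^ 2 ≤ 1 / 2 := by
          rw [div_le_iff₀ (by positivity)]
          linarith
        nlinarith
      have h7 : C1 * C2 * w * l ^ (2 * k + 1) * ((k + 2) * √(x : ℝ)) ≤ x / 2 := by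
        have e : C1 * C2 * w * l ^ (2 * k + 1) * ((k + 2) * √(x : ℝ)) =
            (C1 * C2 * w * ((k + 2) * l ^ (2 * k + 1))) * √(x : ℝ) := by ring
        rw [e]
        have h8 := mul_le_mul_of_nonneg_right a7 hsq0.le
        rw [hss] at h8
        linarith
      linarith [h5, h7]
    have h9 : 0 ≤ γ * (C2 * l) * w := by positivity
    calc γ * (C2 * l) * w ≤ γ * (C2 * l) * w * (Q * (C1 * l ^ (2 * k))) := le_mul_of_one_le_right h9 hQ1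
      _ = γ * (C2 * l) * w * (C1 * l ^ (2 * k)) * Q := by ring
      _ ≤ x * Q := mul_le_mul_of_nonneg_right h2 hPi.le
  have hVκ : 1200 * ((Vz z)⁻¹) ^ 2 * w * (1 / l ^ 6) ≤ 16 := by
    have h1 : ((Vz z)⁻¹) ^ 2 ≤ (C2 * l) ^ 2 := pow_le_pow_left₀ (by positivity) hVz 2
    have h3 : 1200 * ((Vz z)⁻¹) ^ 2 * w ≤ 1200 * (C2 * l) ^ 2 * w := by gcongr
    have h4 : 1200 * (C2 * l) ^ 2 * w = (1200 * C2 ^ 2 * w) * l ^ 2 := by ring
    have h5 : (1200 * C2 ^ 2 * w) * l ^ 2 ≤ l ^ 2 * l ^ 2 := by gcongr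
    have h6 : l ^ 2 * l ^ 2 ≤ 16 * l ^ 6 := by
      have h7 : (1 : ℝ) ≤ l ^ 2 := one_le_pow₀ (by linarith)
      have h8 : 0 ≤ l ^ 2 * l ^ 2 := by positivity
      calc l ^ 2 * l ^ 2 ≤ l ^ 2 * l ^ 2 * l ^ 2 := le_mul_of_one_le_right h8 h7
        _ = l ^ 6 := by ring
        _ ≤ 16 * l ^ 6 := by
          have : 0 ≤ l ^ 6 := by positivity
          linarith
    rw [mul_one_div, div_le_iff₀ (by positivity)]
    linarith
  obtain ⟨S, hS⟩ : ∃ S : Finset ℕ, S = (pz z).filter (fun p => w < p) := ⟨_, rfl⟩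
  have hSm : ∀ p, p ∈ S ↔ p ∈ pz z ∧ w < p := fun p => by rw [hS, mem_filter]
  obtain ⟨W, hW⟩ : ∃ W : ℕ, W = ∏ q ∈ pz w, q := ⟨_, rfl⟩
  obtain ⟨A', hA'⟩ : ∃ A', A' = A.filter (fun n : ℕ => Sf (pz w) (n + a)) := ⟨_, rfl⟩
  -- the second exceptional set
  have hs2 := (hex2 x y z M w hx0y hyK1 (by omega) hwk hw4 hwz hzy hM0
    (by exact_mod_cast hM2) T hT hadm A' (by rw [hA']; exact (filter_subset _ _).trans hA)
    (by rw [hA']; exact fun n hn => hAT n (mem_filter.1 hn).1) γ hγ hγ2 ι Ω P t (1 / l ^ 6) hSv hP1 (by positivity)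
    hVκ a S hSm).1
  rw [← hQ] at hs2
  have hxQ : 0 < x * Q := by positivity
  have hVw0 := Vz_pos w
  have c1 := markL Ω P _ hP0 (η / 2 * (x * Q)) _ (by positivity) hE1
  have c2 := chebL Ω P _ hP0 (η / 2 * Vz w * (x * Q)) _ (by positivity) hs2
  -- the union
  have hsub : Ω.filter (fun ω => η * (x * PiT T y) <
        |∑ n ∈ A, Λ ((n : ℤ) + a + (∏ q ∈ pz w, q : ℕ) * t ω).toNat -
          (Vz w)⁻¹ * ((A.filter (fun n : ℕ => Sf (pz w) (n + a))).card : ℝ)|) ⊆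
      Ω.filter (fun ω => η / 2 * (x * Q) < |∑ n ∈ A, EX z (2 * x) (n + (a + (∏ q ∈ pz w, q : ℕ) * t ω))|) ∪
      Ω.filter (fun ω => η / 2 * Vz w * (x * Q) < |(∏ p ∈ S, (1 - 1 / (p : ℝ)))⁻¹ *
          ((A'.filter (fun n : ℕ => Sf S (n + a + (∏ q ∈ pz w, q : ℕ) * t ω))).card : ℝ) - A'.card|) := by
    intro ω hω
    rw [mem_filter] at hω
    obtain ⟨ht1, ht2⟩ := hω
    have h1 := split hwz hSm A a (t ω) (N := 2 * x) (fun n hn => by
      have := hr n hn ω ht1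
      push_cast at this ⊢
      exact this)
    rw [h1] at ht2
    rw [mem_union, mem_filter, mem_filter]
    by_contra hcon
    push Not at hcon
    have h2 := hcon.1 ht1
    have h3 := hcon.2 ht1
    rw [← hQ, ← hA'] at ht2
    have h4 : |(Vz w)⁻¹ * ((∏ p ∈ S, (1 - 1 / (p : ℝ)))⁻¹ *
        ((A'.filter (fun n : ℕ => Sf S (n + a + (∏ q ∈ pz w, q : ℕ) * t ω))).card : ℝ) - A'.card)| ≤ η / 2 * (x * Q) := by
      rw [abs_mul, abs_of_pos (inv_pos.2 hVw0)]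
      calc (Vz w)⁻¹ * |(∏ p ∈ S, (1 - 1 / (p : ℝ)))⁻¹ *
          ((A'.filter (fun n : ℕ => Sf S (n + a + (∏ q ∈ pz w, q : ℕ) * t ω))).card : ℝ) - A'.card| ≤
          (Vz w)⁻¹ * (η / 2 * Vz w * (x * Q)) := mul_le_mul_of_nonneg_left h3 (inv_pos.2 hVw0).le
        _ = η / 2 * (x * Q) := by field_simp
    have h5 := abs_add_le (∑ n ∈ A, EX z (2 * x) (n + (a + (∏ q ∈ pz w, q : ℕ) * t ω)))
      ((Vz w)⁻¹ * ((∏ p ∈ S, (1 - 1 / (p : ℝ)))⁻¹ *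
        ((A'.filter (fun n : ℕ => Sf S (n + a + (∏ q ∈ pz w, q : ℕ) * t ω))).card : ℝ) - A'.card))
    linarith
  have h6 : ∑ ω ∈ Ω.filter (fun ω => η * (x * PiT T y) <
        |∑ n ∈ A, Λ ((n : ℤ) + a + (∏ q ∈ pz w, q : ℕ) * t ω).toNat -
          (Vz w)⁻¹ * ((A.filter (fun n : ℕ => Sf (pz w) (n + a))).card : ℝ)|), P ω ≤
      x / l ^ (2 * k + 2) / (η / 2 * (x * Q)) + 166 * (x * Q) ^ 2 / w / (η / 2 * Vz w * (x * Q)) ^ 2 := by
    refine le_trans (sum_le_sum_of_subset_of_nonneg hsub fun ω hω _ => ?_) (le_trans (sum_union_le Ω P hP0 _ _) (add_le_add c1 c2))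
    rcases mem_union.1 hω with h | h
    · exact hP0 ω (mem_filter.1 h).1
    · exact hP0 ω (mem_filter.1 h).1
  refine h6.trans ?_
  have d2 : 166 * (x * Q) ^ 2 / w / (η / 2 * Vz w * (x * Q)) ^ 2 ≤ η / 2 := by
    have e : 166 * (x * Q) ^ 2 / w / (η / 2 * Vz w * (x * Q)) ^ 2 = 664 * ((Vz w)⁻¹) ^ 2 / (w * η ^ 2) := by
      field_simp
      ring
    rw [e, div_le_iff₀ (by positivity)]
    have h7 : ((Vz w)⁻¹) ^ 2 ≤ (C2 * Real.log w) ^ 2 :=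
      pow_le_pow_left₀ (by positivity) (hM w (by omega)).2 2
    have h8 : η / 2 * (w * η ^ 2) = η ^ 3 * w / 2 := by ring
    rw [h8]
    linarith
  have d1 : x / l ^ (2 * k + 2) / (η / 2 * (x * Q)) ≤ η / 2 := by
    have e : (x : ℝ) / l ^ (2 * k + 2) / (η / 2 * (x * Q)) = 2 / (η * (Q * l ^ (2 * k + 2))) := by
      field_simp
    rw [e, div_le_iff₀ (by positivity)]
    have h7 : 4 * C1 ≤ η ^ 2 * l := by
      rw [div_le_iff₀ (by positivity)] at hη2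
      linarith
    have h8 : l ≤ l ^ 2 := by nlinarith
    have h9 : l ^ 2 ≤ Q * C1 * l ^ (2 * k + 2) := by
      have : Q * C1 * l ^ (2 * k + 2) = Q * (C1 * l ^ (2 * k)) * l ^ 2 := by ring
      rw [this]
      exact le_mul_of_one_le_left (by positivity) hQ1
    have hC10 : 0 < C1 := by linarith
    have h10 : 4 * C1 ≤ C1 * (η ^ 2 * (Q * l ^ (2 * k + 2))) := by
      calc 4 * C1 ≤ η ^ 2 * l := h7
        _ ≤ η ^ 2 * (Q * C1 * l ^ (2 * k + 2)) := mul_le_mul_of_nonneg_left (h8.trans h9) (by positivity)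
        _ = C1 * (η ^ 2 * (Q * l ^ (2 * k + 2))) := by ring
    have h11 : 4 ≤ η ^ 2 * (Q * l ^ (2 * k + 2)) := by
      rw [mul_comm 4 C1] at h10
      exact le_of_mul_le_mul_left h10 hC10
    have h12 : η / 2 * (η * (Q * l ^ (2 * k + 2))) = η ^ 2 * (Q * l ^ (2 * k + 2)) / 2 := by ring
    rw [h12]
    linarith
  linarith
where
  sum_union_le {ι : Type} (Ω : Finset ι) (P : ι → ℝ) (hP : ∀ ω ∈ Ω, 0 ≤ P ω) (f g : ι → Prop) [DecidableEq ι] [DecidablePred f]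
      [DecidablePred g] : ∑ ω ∈ Ω.filter f ∪ Ω.filter g, P ω ≤ ∑ ω ∈ Ω.filter f, P ω + ∑ ω ∈ Ω.filter g, P ω := by
    have h := sum_union_inter (s₁ := Ω.filter f) (s₂ := Ω.filter g) (f := P)
    have h2 : 0 ≤ ∑ ω ∈ Ω.filter f ∩ Ω.filter g, P ω :=
      sum_nonneg fun ω hω => hP ω (mem_filter.1 (mem_inter.1 hω).1).1
    linarith

end Pool.Agent.K9h59.OM
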