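import Pool.Agent.K9h59.OM.Equ
import Pool.Agent.Y885.WI1
import Pool.Agent.K9h54.TF.LL

set_option autoImplicit false

/-! Random digits: the large spectrum is thin, and the consequence for the primes. -/

namespace Pool.Agent.K9h59.OM

open Finset Filter
open Pool.Agent.H807R2.Dav
open Pool.Agent.Y885
open Pool.Agent.H373R2.T7 (lamI lamzI lamz)
open Pool.Agent.K9h54.TF (EX)

lemma rich_dig (D : ℕ) : ∃ k₁ : ℕ, ∀ k : ℕ, k₁ ≤ k → ∀ J : Finset ℕ, (∀ j, j ∈ J ↔ j < k ∧ (j : ℝ) + D * Real.log k ≤ k) →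
    Rich (1 / 10) (D + 1) k J := by
  have hg : ∀ᶠ k : ℕ in atTop, (D : ℝ) * Real.log k + 1 ≤ 3 / 10 * k := by
    have h1 := (Real.isLittleO_log_id_atTop).bound (show (0 : ℝ) < 1 / (10 * D + 1) by positivity)
    have h2 := tendsto_natCast_atTop_atTop (R := ℝ) |>.eventually h1
    filter_upwards [h2, eventually_ge_atTop 5] with k h3 h4
    have hk : (5 : ℝ) ≤ k := by exact_mod_cast h4
    simp only [id] at h3
    rw [Real.norm_of_nonneg (Real.log_nonneg (by linarith)), Real.norm_of_nonneg (by linarith),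
      one_div, inv_mul_eq_div, le_div_iff₀ (by positivity)] at h3
    have h5 := Real.log_nonneg (show (1 : ℝ) ≤ k by linarith)
    nlinarith
  obtain ⟨k₀, hk₀⟩ := eventually_atTop.1 hg
  refine ⟨max k₀ 4, fun k hk J hJ => ?_⟩
  have h1 := hk₀ k ((le_max_left _ _).trans hk)
  have hk4 : (4 : ℝ) ≤ k := by exact_mod_cast (le_max_right _ _).trans hk
  have hlk : 1 ≤ Real.log k := by
    rw [Real.le_log_iff_exp_le (by linarith)]
    have := Real.exp_one_lt_d9
    linarith
  obtain ⟨r, hr⟩ : ∃ r : ℕ, r = ⌈(D : ℝ) * Real.log k⌉₊ := ⟨_, rfl⟩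
  have hD0 : 0 ≤ (D : ℝ) * Real.log k := by positivity
  have hr1 : (D : ℝ) * Real.log k ≤ r := by rw [hr]; exact Nat.le_ceil _
  have hr2 : (r : ℝ) ≤ D * Real.log k + 1 := by
    rw [hr]
    exact (Nat.ceil_lt_add_one hD0).le
  have hr3 : (r : ℝ) ≤ ((D + 1 : ℕ) : ℝ) * Real.log k := by
    push_cast
    linarith
  have hin : ∀ j, j + r < k → j ∈ J := by
    intro j hj
    rw [hJ]
    refine ⟨by omega, ?_⟩
    have : (j : ℝ) + r ≤ k := by exact_mod_cast hj.le
    linarith
  refine ⟨fun j hj => ((hJ j).1 hj).1, fun m hm => ?_, fun m hm => ?_, ?_⟩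
  · have h2 : (range (m - r)).card ≤ (J.filter (fun j => j < m)).card := by
      apply card_le_card
      intro j hj
      rw [mem_range] at hj
      rw [mem_filter]
      exact ⟨hin j (by omega), by omega⟩
    rw [card_range] at h2
    have h3 : (m : ℝ) ≤ ((J.filter (fun j => j < m)).card : ℝ) + r := by
      exact_mod_cast (by omega : m ≤ (J.filter (fun j => j < m)).card + r)
    have h4 : (0 : ℝ) ≤ m := Nat.cast_nonneg _
    linarith
  · have h2 : (Ico (k - m) (k - r)).card ≤ (J.filter (fun j => k - m ≤ j)).card := by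
      apply card_le_card
      intro j hj
      rw [mem_Ico] at hj
      rw [mem_filter]
      exact ⟨hin j (by omega), by omega⟩
    rw [Nat.card_Ico] at h2
    have h3 : (m : ℝ) ≤ ((J.filter (fun j => k - m ≤ j)).card : ℝ) + r := by
      exact_mod_cast (by omega : m ≤ (J.filter (fun j => k - m ≤ j)).card + r)
    have h4 : (0 : ℝ) ≤ m := Nat.cast_nonneg _
    linarith
  · have h2 : (range (k - r)).card ≤ J.card := by
      apply card_le_card
      intro j hj
      rw [mem_range] at hj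
      exact hin j (by omega)
    rw [card_range] at h2
    have h3 : (k : ℝ) ≤ (J.card : ℝ) + r := by
      exact_mod_cast (by omega : k ≤ J.card + r)
    linarith

/-- THE LAW -/
theorem dlaw (b H D : ℕ) (hb : 2 ≤ b) (η : ℝ) (hη : 0 < η) (m : ℕ) (hm : 1 ≤ m) : ∃ E : ℕ, 1 ≤ E ∧ ∀ e V : ℕ, ∃ c k₀ : ℕ,
    ∀ k : ℕ, k₀ ≤ k → ∀ (σ : ℕ → Finset ℕ) (p : ℕ → ℕ → ℝ), Dig H k D η σ p → ∀ C : ℤ,
    TLaw b E c V (k + e) (Om k σ) (wt k p) (fun ξ => C + ((m * val b ξ : ℕ) : ℤ)) := by
  classical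
  obtain ⟨E, hE, h⟩ := rand_law b hb (m * H + 2) (D + 1) (by omega) η (1 / 10) hη (by norm_num)
  obtain ⟨k₁, hk₁⟩ := rich_dig D
  refine ⟨E, hE, fun e V => ?_⟩
  obtain ⟨c, k₀, h⟩ := h e V
  refine ⟨c, max k₀ k₁, fun k hk σ p hD C => ?_⟩
  have hb1 : 1 ≤ b := by omega
  obtain ⟨J, hJ⟩ : ∃ J : Finset ℕ, J = (range k).filter (fun j : ℕ => (j : ℝ) + D * Real.log k ≤ k) := ⟨_, rfl⟩
  have hJm : ∀ j, j ∈ J ↔ j < k ∧ (j : ℝ) + D * Real.log k ≤ k := by
    intro j
    rw [hJ, mem_filter, mem_range]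
  have h1 := h k ((le_max_left _ _).trans hk) J (sI m b σ) (pI m b p) C (hk₁ k ((le_max_right _ _).trans hk) J hJm) (by
    intro j hj
    constructor
    · intro x hx
      unfold sI at hx
      obtain ⟨a, ha, rfl⟩ := mem_image.1 hx
      rw [pI_em hm hb1]
      refine ⟨(hD.sub j hj a ha).2, ?_⟩
      have h2 := (hD.sub j hj a ha).1
      unfold em
      rw [Nat.abs_cast]
      have h3 : m * b ^ j * a ≤ (m * H + 2) * b ^ j := by
        calc m * b ^ j * a = m * a * b ^ j := by ring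
          _ ≤ (m * H + 2) * b ^ j := by
            apply Nat.mul_le_mul_right
            have : m * a ≤ m * H := Nat.mul_le_mul_left _ h2.le
            omega
      exact_mod_cast h3
    · rw [sI_sum hm hb1]
      exact hD.one j hj) (by
    intro j hj y
    have hj' := (hJm j).1 hj
    have hp0 : ∀ a ∈ σ j, 0 ≤ p j a := fun a ha => (hD.sub j hj'.1 a ha).2
    have hfar := hD.far j hj'.1 hj'.2
    have hη1 : 0 ≤ 1 - η := by
      have hne : (σ j).Nonempty := by
        rw [nonempty_iff_ne_empty]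
        intro h0
        have h2 := hD.one j hj'.1
        rw [h0, sum_empty] at h2
        norm_num at h2
      obtain ⟨a, ha⟩ := hne
      exact (hp0 a ha).trans (hfar a ha)
    unfold sI
    rw [sum_image (fun a _ a' _ h => em_inj hm hb1 h)]
    have e1 : ∑ a ∈ σ j, (if y ≤ em m b j a ∧ ((m * H + 2 : ℕ) : ℤ) * (em m b j a - y) ≤ (b : ℤ) ^ j then
        pI m b p j (em m b j a) else 0) =
        ∑ a ∈ (σ j).filter (fun a => y ≤ em m b j a ∧ ((m * H + 2 : ℕ) : ℤ) * (em m b j a - y) ≤ (b : ℤ) ^ j), p j a := by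
      rw [sum_filter]
      apply sum_congr rfl
      intro a _
      rw [pI_em hm hb1]
    rw [e1]
    rcases ((σ j).filter (fun a => y ≤ em m b j a ∧
      ((m * H + 2 : ℕ) : ℤ) * (em m b j a - y) ≤ (b : ℤ) ^ j)).eq_empty_or_nonempty with h0 | ⟨a, ha⟩
    · rw [h0, sum_empty]
      exact hη1
    · have h2 : (σ j).filter (fun a => y ≤ em m b j a ∧
          ((m * H + 2 : ℕ) : ℤ) * (em m b j a - y) ≤ (b : ℤ) ^ j) = {a} := by
        rw [eq_singleton_iff_unique_mem]
        refine ⟨ha, fun a' ha' => ?_⟩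
        by_contra hne
        rw [mem_filter] at ha ha'
        obtain ⟨_, g1, g2⟩ := ha
        obtain ⟨_, g3, g4⟩ := ha'
        have hbj : (0 : ℤ) < (b : ℤ) ^ j := by positivity
        have hm0 : (1 : ℤ) ≤ m := by exact_mod_cast hm
        have hH0 : (0 : ℤ) ≤ H := by positivity
        have key : ∀ u v : ℕ, u < v → y ≤ em m b j u → ((m * H + 2 : ℕ) : ℤ) * (em m b j v - y) ≤ (b : ℤ) ^ j → False := by
          intro u v huv k1 k2
          have k3 : (b : ℤ) ^ j ≤ em m b j v - em m b j u := by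
            unfold em
            push_cast
            have k4 : (1 : ℤ) ≤ (v : ℤ) - u := by
              have : (u : ℤ) < v := by exact_mod_cast huv
              linarith
            have k5 : (m : ℤ) * (b : ℤ) ^ j * v - m * (b : ℤ) ^ j * u = (b : ℤ) ^ j * (m * (v - u)) := by ring
            rw [k5]
            have k6 : (1 : ℤ) ≤ m * (v - u) := by nlinarith
            nlinarith
          have k7 : (b : ℤ) ^ j ≤ em m b j v - y := by linarith
          push_cast at k2
          have k8 : (2 : ℤ) ≤ m * H + 2 := by nlinarith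
          nlinarith
        rcases lt_or_gt_of_ne hne with h3 | h3
        · exact key a' a h3 g3 g2
        · exact key a a' h3 g1 g4
      rw [h2, sum_singleton]
      exact hfar a (mem_filter.1 ha).1)
  refine ⟨wt_nonneg hD, (wt_sum hD).le, ?_⟩
  have h2 := h1.thin
  have h3 : Spec b V (k + e) (Fintype.piFinset (fun j : Fin k => sI m b σ j)) (fun ω => ∏ j : Fin k, pI m b p j (ω j))
      (fun ω => C + ∑ j : Fin k, ω j) = Spec b V (k + e) (Om k σ) (wt k p) (fun ξ => C + ((m * val b ξ : ℕ) : ℤ)) := by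
    unfold Spec
    apply filter_congr
    intro t _
    have h4 := conv (k := k) hm hb1 σ p (fun ω => ee (((C + ∑ j : Fin k, ω j : ℤ) : ℝ) * ((t : ℝ) / ((b ^ (k + e + 1) : ℕ) : ℝ))))
    rw [h4]
    have h5 : ∀ ξ : Fin k → ℕ, (C + ∑ j : Fin k, em m b j (ξ j) : ℤ) = C + ((m * val b ξ : ℕ) : ℤ) := by
      intro ξ
      rw [sum_em]
    simp only [h5]
    rfl
  rw [h3] at h2
  exact h2

end Pool.Agent.K9h59.OM
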