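import Pool.Agent.K9h59.OM.Dn

set_option autoImplicit false

/-! One more prime for a random shift downwards with random digits: the normalised counts. -/

namespace Pool.Agent.K9h59.OM

open Finset Filter
open Pool.Agent.H387R2.Uni (nuT CT)
open Pool.Agent.H373R2.T7 (pz mem_pz Vz)

open Classical in
/-- ONE MORE PRIME, shifts downwards with random digits -/
theorem fdn (u : ℕ) (hu : 1 ≤ u) (b H D D' : ℕ) (hb : 2 ≤ b) (η : ℝ) (hη : 0 < η) (ε : ℝ) (hε : 0 < ε) :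
    ∃ w1 : ℕ, ∀ w : ℕ, w1 ≤ w → ∃ k₀ : ℕ, ∀ k : ℕ, k₀ ≤ k → ∀ (σ : ℕ → Finset ℕ) (p : ℕ → ℕ → ℝ), Dig H k D η σ p →
    ∀ x : ℕ, b ^ k ≤ k ^ D' * x → x ≤ D' * b ^ k → ∀ T : Finset ℕ, T.card = u → (∀ p, p.Prime → nuT T p < p) →
    (∀ h ∈ T, h ≤ x) → ∀ A ⊆ Icc 1 x, (∀ n ∈ A, ∀ h ∈ T, (n - h).Prime) → ∀ c : ℕ,
    (∀ ξ ∈ Om k σ, ((c + (∏ q ∈ pz w, q) * val b ξ : ℕ) : ℝ) * Real.log x ^ 2 ≤ x) →
    (∀ r ∈ pz w, ∃ h ∈ T, h % r = c % r) →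
    ∑ ξ ∈ (Om k σ).filter (fun ξ => c + (∏ q ∈ pz w, q) * val b ξ ∈ T ∨
      ¬ (0 < CT (insert (c + (∏ q ∈ pz w, q) * val b ξ) T) ∧
        |((A.filter (fun n : ℕ => (n - (c + (∏ q ∈ pz w, q) * val b ξ)).Prime)).card : ℝ) * Real.log x ^ (u + 1) /
          (CT (insert (c + (∏ q ∈ pz w, q) * val b ξ) T) * x) - A.card * Real.log x ^ u / (CT T * x)| ≤ ε)), wt k p ξ ≤ ε := by
  obtain ⟨C5, hC5, hmdn⟩ := mdn u hu b H D hb η hη D'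
  obtain ⟨ν, hν, w1, hcomb⟩ := comb u b H D D' hb η hη C5 hC5 ε hε
  obtain ⟨w2, hmdn⟩ := hmdn ν hν
  obtain ⟨w3, hw3⟩ : ∃ w3 : ℕ, w3 = max w1 w2 := ⟨_, rfl⟩
  refine ⟨w3, fun w hw => ?_⟩
  obtain ⟨B, k₁, hmdn⟩ := hmdn w ((le_max_right _ _).trans (hw3.symm.le.trans hw))
  obtain ⟨k₂, hcomb⟩ := hcomb w ((le_max_left _ _).trans (hw3.symm.le.trans hw)) B
  obtain ⟨k₃, hsz⟩ := sizes b D' w hb
  refine ⟨max (max k₁ k₂) k₃, fun k hk σ p hD x hx1 hx2 T hT hadm hTx A hA hAT c hrange hcov => ?_⟩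
  obtain ⟨s1, s2, s3, s4, s5, s6, s7, s8, s9⟩ := hsz k x ((le_max_right _ _).trans hk) hx1 hx2
  obtain ⟨z, hz1, hz2, hz3, hm⟩ := hmdn k ((le_max_left _ _).trans ((le_max_left _ _).trans hk)) σ p hD x hx1 hx2
  obtain ⟨a3, a1, hm⟩ := hm T hT hadm A hA hAT
  have hm := hm c hrange hcov
  exact hcomb k ((le_max_right _ _).trans ((le_max_left _ _).trans hk)) σ p hD x z hx1 hx2 hz1 hz2 hz3 T hT hadm hTx a3
    A.card (Nat.cast_nonneg _) a1 c hcov (by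
      intro ξ hξ
      have h1 := hrange ξ hξ
      have h2 : (1 : ℝ) ≤ Real.log x ^ 2 := by nlinarith
      have h3 : ((c + (∏ q ∈ pz w, q) * val b ξ : ℕ) : ℝ) ≤ x :=
        (le_mul_of_one_le_right (Nat.cast_nonneg _) h2).trans h1
      exact_mod_cast h3) (fun d => ((A.filter (fun n : ℕ => (n - d).Prime)).card : ℝ)) hm

end Pool.Agent.K9h59.OM
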