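import Pool.Agent.K9h59.OM.Chr

set_option autoImplicit false

/-! Random digits: the distribution in the residue classes of moduli without small prime factors. -/

namespace Pool.Agent.K9h59.OM

open Finset Filter
open Pool.Agent.H807R2.Dav
open Pool.Agent.Y885 (fp char_all rd_natAbs)

/-- the sample space -/
abbrev Om (k : ℕ) (σ : ℕ → Finset ℕ) : Finset (Fin k → ℕ) := Fintype.piFinset (fun j : Fin k => σ j)

/-- the weights -/
noncomputable def wt (k : ℕ) (p : ℕ → ℕ → ℝ) (ξ : Fin k → ℕ) : ℝ := ∏ j : Fin k, p j (ξ j)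

lemma wt_sum {H k D : ℕ} {η : ℝ} {σ : ℕ → Finset ℕ} {p : ℕ → ℕ → ℝ} (hD : Dig H k D η σ p) :
    ∑ ξ ∈ Om k σ, wt k p ξ = 1 := by
  unfold wt Om
  rw [← Finset.prod_univ_sum (fun j : Fin k => σ j) (fun j a => p j a)]
  exact prod_eq_one fun j _ => hD.one j j.2

lemma wt_nonneg {H k D : ℕ} {η : ℝ} {σ : ℕ → Finset ℕ} {p : ℕ → ℕ → ℝ} (hD : Dig H k D η σ p) :
    ∀ ξ ∈ Om k σ, 0 ≤ wt k p ξ := by
  intro ξ hξ
  rw [Fintype.mem_piFinset] at hξ
  exact prod_nonneg fun j _ => (hD.sub j j.2 _ (hξ j)).2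

lemma fp_nonneg (s : Finset ℤ) (p : ℤ → ℝ) (hp : ∀ x ∈ s, 0 ≤ p x) (κ θ : ℝ) : 0 ≤ fp s p κ θ := by
  unfold fp
  apply sum_nonneg
  intro x hx
  apply sum_nonneg
  intro y hy
  split_ifs
  · exact mul_nonneg (hp x hx) (hp y hy)
  · exact le_rfl

/-- the characteristic function at `a / q` -/
lemma chr_rat {H k D : ℕ} {η : ℝ} {σ : ℕ → Finset ℕ} {p : ℕ → ℕ → ℝ} (hD : Dig H k D η σ p) {b : ℕ} (hb : 2 ≤ b)
    (hη : 0 ≤ η) (k1 L q a : ℕ) (hk1 : k1 ≤ k) (hk1' : (k1 : ℝ) + D * Real.log k ≤ k) (hq : 2 ≤ q) (hL : q ≤ b ^ L)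
    (hcop : Nat.Coprime q (b * H.factorial)) (ha : 1 ≤ a) (haq : a < q) :
    ‖∑ ξ ∈ Om k σ, ((wt k p ξ : ℝ) : ℂ) * ee ((val b ξ : ℝ) * ((a : ℝ) / q))‖ ≤
      Real.exp (-(4 * (1 / (2 * b * H.factorial)) ^ 2 * (η * (k1 / (L + 1) : ℕ)))) := by
  classical
  have hb0 : (0 : ℝ) < b := by exact_mod_cast (by omega : 0 < b)
  have hF0 : (0 : ℝ) < (H.factorial : ℝ) := by exact_mod_cast Nat.factorial_pos H
  have hq0 : (0 : ℝ) < q := by exact_mod_cast (by omega : 0 < q)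
  have h1 := char_all k (sI 1 b σ) (pI 1 b p) (by
    intro j hj x hx
    unfold sI at hx
    obtain ⟨a, ha, rfl⟩ := mem_image.1 hx
    rw [pI_em le_rfl (by omega)]
    exact (hD.sub j hj a ha).2) (by
    intro j hj
    rw [sI_sum le_rfl (by omega)]
    exact hD.one j hj) 0 ((a : ℝ) / q) (1 / (2 * b * H.factorial)) (by positivity)
  have h2 := conv (m := 1) (b := b) (k := k) le_rfl (by omega) σ p
    (fun ω => ee (((0 + ∑ j : Fin k, ω j : ℤ) : ℝ) * ((a : ℝ) / q)))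
  rw [h2] at h1
  have h3 : ∀ ξ : Fin k → ℕ, ((0 + ∑ j : Fin k, em 1 b j (ξ j) : ℤ) : ℝ) = (val b ξ : ℝ) := by
    intro ξ
    rw [zero_add, sum_em, one_mul]
    push_cast
    rfl
  have h4 : ∑ ξ ∈ Om k σ, ((wt k p ξ : ℝ) : ℂ) * ee ((val b ξ : ℝ) * ((a : ℝ) / q)) =
      ∑ ξ ∈ Fintype.piFinset (fun j : Fin k => σ j), (((∏ j : Fin k, p j (ξ j) : ℝ)) : ℂ) *
        ee (((0 + ∑ j : Fin k, em 1 b j (ξ j) : ℤ) : ℝ) * ((a : ℝ) / q)) := by
    apply sum_congr rfl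
    intro ξ _
    rw [h3]
    rfl
  rw [h4]
  refine h1.trans (Real.exp_le_exp.2 ?_)
  have hphi : ∀ j : ℕ, 1 / (q : ℝ) ≤ nd ((b : ℝ) ^ j * ((H.factorial : ℝ) * ((a : ℝ) / q))) := by
    intro j
    have e : (b : ℝ) ^ j * ((H.factorial : ℝ) * ((a : ℝ) / q)) = ((b ^ j * H.factorial * a : ℕ) : ℝ) / q := by
      push_cast
      ring
    rw [e]
    apply nd_rat _ _ (by omega)
    intro hdvd
    have hc1 : Nat.Coprime q (b ^ j * H.factorial) := by
      have h5 := Nat.Coprime.coprime_mul_right_right hcop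
      have h6 := Nat.Coprime.coprime_mul_left_right hcop
      exact Nat.Coprime.mul_right (Nat.Coprime.pow_right j h5) h6
    have h7 := hc1.dvd_of_dvd_mul_left hdvd
    exact absurd (Nat.le_of_dvd (by omega) h7) (by omega)
  have hcf := count_far b q L k1 hb (by omega) hL ((H.factorial : ℝ) * ((a : ℝ) / q)) hphi
  have h5 : η * (k1 / (L + 1) : ℕ) ≤ ∑ j ∈ range k, fp (sI 1 b σ j) (pI 1 b p j) (1 / (2 * b * H.factorial)) ((a : ℝ) / q) := by
    have h6 : ∑ j ∈ (range k1).filter (fun j => 1 / (2 * (b : ℝ)) < nd ((b : ℝ) ^ j * ((H.factorial : ℝ) * ((a : ℝ) / q)))),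
        η ≤ ∑ j ∈ range k, fp (sI 1 b σ j) (pI 1 b p j) (1 / (2 * b * H.factorial)) ((a : ℝ) / q) := by
      have h7 : (range k1).filter (fun j => 1 / (2 * (b : ℝ)) < nd ((b : ℝ) ^ j * ((H.factorial : ℝ) * ((a : ℝ) / q)))) ⊆
          range k := by
        intro j hj
        have := mem_range.1 (mem_filter.1 hj).1
        rw [mem_range]
        omega
      refine le_trans (sum_le_sum fun j hj => ?_) (sum_le_sum_of_subset_of_nonneg h7 fun j hj _ => ?_)
      · obtain ⟨hj1, hj2⟩ := mem_filter.1 hj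
        rw [mem_range] at hj1
        apply fp_low hD hb _ j (by omega) _ hj2
        have : (j : ℝ) ≤ k1 := by exact_mod_cast hj1.le
        linarith
      · apply fp_nonneg
        intro x hx
        unfold sI at hx
        obtain ⟨c, hc, rfl⟩ := mem_image.1 hx
        rw [pI_em le_rfl (by omega)]
        exact (hD.sub j (mem_range.1 hj) c hc).2
    rw [sum_const, nsmul_eq_mul, mul_comm] at h6
    refine le_trans ?_ h6
    apply mul_le_mul_of_nonneg_left _ hη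
    exact_mod_cast hcf
  have h8 := mul_le_mul_of_nonneg_left h5 (by positivity : (0 : ℝ) ≤ 4 * (1 / (2 * b * H.factorial)) ^ 2)
  linarith

/-- the distribution modulo `q`, from the characteristic function -/
lemma equi_of {H k D : ℕ} {η : ℝ} {σ : ℕ → Finset ℕ} {p : ℕ → ℕ → ℝ} (hD : Dig H k D η σ p) {b : ℕ} (q : ℕ) (hq : 1 ≤ q)
    (B : ℝ) (hB : 0 ≤ B) (h : ∀ a : ℕ, 1 ≤ a → a < q →
      ‖∑ ξ ∈ Om k σ, ((wt k p ξ : ℝ) : ℂ) * ee ((val b ξ : ℝ) * ((a : ℝ) / q))‖ ≤ B) (c : ℕ) :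
    |∑ ξ ∈ (Om k σ).filter (fun ξ => val b ξ ≡ c [MOD q]), wt k p ξ - 1 / q| ≤ B := by
  classical
  have hq0 : (0 : ℝ) < q := by exact_mod_cast (by omega : 0 < q)
  obtain ⟨S, hS⟩ : ∃ S : ℝ, S = ∑ ξ ∈ (Om k σ).filter (fun ξ => val b ξ ≡ c [MOD q]), wt k p ξ := ⟨_, rfl⟩
  have h1 : (q : ℂ) * (S : ℂ) = ∑ a ∈ range q, ee (-(c : ℝ) * ((a : ℝ) / q)) *
      ∑ ξ ∈ Om k σ, ((wt k p ξ : ℝ) : ℂ) * ee ((val b ξ : ℝ) * ((a : ℝ) / q)) := by
    have h2 : ∀ a ∈ range q, ee (-(c : ℝ) * ((a : ℝ) / q)) *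
        ∑ ξ ∈ Om k σ, ((wt k p ξ : ℝ) : ℂ) * ee ((val b ξ : ℝ) * ((a : ℝ) / q)) =
        ∑ ξ ∈ Om k σ, ((wt k p ξ : ℝ) : ℂ) * ee ((((val b ξ : ℤ) - c : ℤ) : ℝ) * ((a : ℝ) / q)) := by
      intro a _
      rw [mul_sum]
      apply sum_congr rfl
      intro ξ _
      have e : (((val b ξ : ℤ) - c : ℤ) : ℝ) * ((a : ℝ) / q) =
          -(c : ℝ) * ((a : ℝ) / q) + (val b ξ : ℝ) * ((a : ℝ) / q) := by
        push_cast
        ring
      rw [e, ee_add]
      ring
    rw [sum_congr rfl h2, sum_comm]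
    simp_rw [← mul_sum, orth _ q hq]
    rw [hS]
    push_cast
    rw [mul_sum, sum_filter]
    apply sum_congr rfl
    intro ξ _
    have h3 : (q : ℤ) ∣ (val b ξ : ℤ) - c ↔ val b ξ ≡ c [MOD q] := by
      rw [Nat.ModEq.comm, Nat.modEq_iff_dvd]
    by_cases h4 : val b ξ ≡ c [MOD q]
    · rw [if_pos h4, if_pos (h3.2 h4)]
      ring
    · rw [if_neg h4, if_neg (fun h5 => h4 (h3.1 h5))]
      ring
  have h5 : (q : ℂ) * (S : ℂ) - 1 = ∑ a ∈ (range q).erase 0, ee (-(c : ℝ) * ((a : ℝ) / q)) *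
      ∑ ξ ∈ Om k σ, ((wt k p ξ : ℝ) : ℂ) * ee ((val b ξ : ℝ) * ((a : ℝ) / q)) := by
    rw [h1, ← add_sum_erase _ _ (mem_range.2 (by omega : 0 < q))]
    have h6 : ∑ ξ ∈ Om k σ, ((wt k p ξ : ℝ) : ℂ) * ee ((val b ξ : ℝ) * (((0 : ℕ) : ℝ) / q)) = 1 := by
      have h7 : ∀ ξ ∈ Om k σ, ((wt k p ξ : ℝ) : ℂ) * ee ((val b ξ : ℝ) * (((0 : ℕ) : ℝ) / q)) = ((wt k p ξ : ℝ) : ℂ) := by
        intro ξ _
        rw [Nat.cast_zero, zero_div, mul_zero, ee_zero, mul_one]
      rw [sum_congr rfl h7, ← Complex.ofReal_sum, wt_sum hD, Complex.ofReal_one]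
    rw [h6]
    have h8 : ee (-(c : ℝ) * (((0 : ℕ) : ℝ) / q)) = 1 := by
      rw [Nat.cast_zero, zero_div, mul_zero, ee_zero]
    rw [h8]
    ring
  have h6 : ‖(q : ℂ) * (S : ℂ) - 1‖ ≤ q * B := by
    rw [h5]
    refine (norm_sum_le _ _).trans ?_
    have h7 : ∀ a ∈ (range q).erase 0, ‖ee (-(c : ℝ) * ((a : ℝ) / q)) *
        ∑ ξ ∈ Om k σ, ((wt k p ξ : ℝ) : ℂ) * ee ((val b ξ : ℝ) * ((a : ℝ) / q))‖ ≤ B := by
      intro a ha
      rw [mem_erase, mem_range] at ha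
      rw [norm_mul, norm_ee, one_mul]
      exact h a (by omega) ha.2
    refine (sum_le_card_nsmul _ _ _ h7).trans ?_
    rw [nsmul_eq_mul]
    apply mul_le_mul_of_nonneg_right _ hB
    have : ((range q).erase 0).card ≤ q := (card_erase_le).trans (by rw [card_range])
    exact_mod_cast this
  have h7 : (q : ℂ) * (S : ℂ) - 1 = ((q * S - 1 : ℝ) : ℂ) := by push_cast; ring
  rw [h7, Complex.norm_real, Real.norm_eq_abs] at h6
  rw [← hS]
  have h8 : S - 1 / q = (q * S - 1) / q := by field_simp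
  rw [h8, abs_div, abs_of_pos hq0, div_le_iff₀ hq0]
  linarith

/-- THE DISTRIBUTION in residue classes -/
theorem equi (b H D : ℕ) (hb : 2 ≤ b) (η : ℝ) (hη : 0 < η) (C : ℝ) (hC : 0 ≤ C) :
    ∃ k₀ : ℕ, ∀ k : ℕ, k₀ ≤ k → ∀ (σ : ℕ → Finset ℕ) (p : ℕ → ℕ → ℝ), Dig H k D η σ p →
    ∀ q : ℕ, 1 ≤ q → (q : ℝ) ≤ Real.exp (C * Real.log k ^ 2) → Nat.Coprime q (b * H.factorial) → ∀ c : ℕ,
      |∑ ξ ∈ (Om k σ).filter (fun ξ => val b ξ ≡ c [MOD q]), wt k p ξ - 1 / q| ≤ Real.exp (-√(k : ℝ)) := by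
  obtain ⟨κ, hκ⟩ : ∃ κ : ℝ, κ = 4 * (1 / (2 * b * H.factorial)) ^ 2 * η := ⟨_, rfl⟩
  have hb0 : (0 : ℝ) < b := by exact_mod_cast (by omega : 0 < b)
  have hF0 : (0 : ℝ) < (H.factorial : ℝ) := by exact_mod_cast Nat.factorial_pos H
  have hκ0 : 0 < κ := by rw [hκ]; positivity
  -- growth
  have hg1 : ∀ᶠ k : ℕ in atTop, (2 * D : ℝ) * Real.log k ≤ k - 2 := by
    have h1 := (Real.isLittleO_log_id_atTop).bound (show (0 : ℝ) < 1 / (4 * D + 1) by positivity)
    have h2 := tendsto_natCast_atTop_atTop (R := ℝ) |>.eventually h1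
    filter_upwards [h2, eventually_ge_atTop 4] with k h3 h4
    have hk : (4 : ℝ) ≤ k := by exact_mod_cast h4
    simp only [id] at h3
    rw [Real.norm_of_nonneg (Real.log_nonneg (by linarith)), Real.norm_of_nonneg (by linarith),
      one_div, inv_mul_eq_div, le_div_iff₀ (by positivity)] at h3
    have h5 := Real.log_nonneg (show (1 : ℝ) ≤ k by linarith)
    nlinarith
  have hg2 : ∀ᶠ k : ℕ in atTop, (√(k : ℝ) + κ) * ((2 * C * Real.log k ^ 2 + 2) * 4) ≤ κ * k := by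
    have h1 : Tendsto (fun k : ℕ => (√(k : ℝ) + κ) * ((2 * C * Real.log k ^ 2 + 2) * 4) / k) atTop (nhds 0) := by
      have h2 : Tendsto (fun x : ℝ => (√x + κ) * ((2 * C * Real.log x ^ 2 + 2) * 4) / x) atTop (nhds 0) := by
        have h3 : ∀ a : ℝ, 0 ≤ a → ∀ m : ℕ, Tendsto (fun x : ℝ => a * (Real.log x ^ m / x ^ ((1 : ℝ) / 2))) atTop (nhds 0) := by
          intro a _ m
          have h4 := isLittleO_log_rpow_rpow_atTop (r := (m : ℝ)) (s := (1 : ℝ) / 2) (by norm_num)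
          have h5 := h4.tendsto_div_nhds_zero
          have h6 : Tendsto (fun x : ℝ => Real.log x ^ m / x ^ ((1 : ℝ) / 2)) atTop (nhds 0) := by
            refine h5.congr fun x => ?_
            rw [Real.rpow_natCast]
          simpa using h6.const_mul a
        have h4 := (((h3 (8 * C) (by positivity) 2).add (h3 8 (by norm_num) 0)).add
          ((h3 (8 * C * κ) (by positivity) 2).add (h3 (8 * κ) (by positivity) 0)))
        rw [add_zero, add_zero] at h4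
        refine squeeze_zero' ?_ ?_ h4
        · filter_upwards [eventually_ge_atTop 1] with x hx
          have : 0 ≤ Real.log x := Real.log_nonneg hx
          positivity
        · filter_upwards [eventually_ge_atTop 1] with x hx
          have hx0 : 0 < x := by linarith
          have hl : 0 ≤ Real.log x := Real.log_nonneg hx
          have e1 : x ^ ((1 : ℝ) / 2) = √x := (Real.sqrt_eq_rpow x).symm
          rw [e1, pow_zero]
          have hs : 0 < √x := Real.sqrt_pos.2 hx0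
          have hs1 : 1 ≤ √x := by rw [Real.one_le_sqrt]; exact hx
          have hss : √x * √x = x := Real.mul_self_sqrt hx0.le
          have e2 : (√x + κ) * ((2 * C * Real.log x ^ 2 + 2) * 4) / x =
              8 * C * (Real.log x ^ 2 / √x) + 8 * (1 / √x) + (8 * C * κ * (Real.log x ^ 2 / x) + 8 * κ * (1 / x)) := by
            have h5 : (√x) / x = 1 / √x := by
              rw [div_eq_div_iff hx0.ne' hs.ne', one_mul, hss]
            have h6 : (√x + κ) * ((2 * C * Real.log x ^ 2 + 2) * 4) / x =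
              (8 * C * Real.log x ^ 2 + 8) * (√x / x) + κ * ((8 * C * Real.log x ^ 2 + 8) / x) := by
              field_simp
              ring
            rw [h6, h5]
            field_simp
          rw [e2]
          have h7 : Real.log x ^ 2 / x ≤ Real.log x ^ 2 / √x := by
            apply div_le_div_of_nonneg_left (by positivity) hs
            nlinarith
          have h8 : 1 / x ≤ 1 / √x := by
            apply one_div_le_one_div_of_le hs
            nlinarith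
          have h9 : 8 * C * κ * (Real.log x ^ 2 / x) ≤ 8 * C * κ * (Real.log x ^ 2 / √x) :=
            mul_le_mul_of_nonneg_left h7 (by positivity)
          have h10 : 8 * κ * (1 / x) ≤ 8 * κ * (1 / √x) := mul_le_mul_of_nonneg_left h8 (by positivity)
          linarith
      exact h2.comp (tendsto_natCast_atTop_atTop (R := ℝ))
    have h2 := h1.eventually (gt_mem_nhds hκ0)
    filter_upwards [h2, eventually_ge_atTop 1] with k h3 h4
    have hk : (0 : ℝ) < k := by exact_mod_cast h4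
    rw [div_lt_iff₀ hk] at h3
    exact h3.le
  obtain ⟨k₀, hk₀⟩ := eventually_atTop.1 (hg1.and hg2)
  refine ⟨max k₀ 4, fun k hk σ p hD q hq hqC hcop c => ?_⟩
  obtain ⟨g1, g2⟩ := hk₀ k ((le_max_left _ _).trans hk)
  have hk4 : 4 ≤ k := (le_max_right _ _).trans hk
  have hkr : (4 : ℝ) ≤ k := by exact_mod_cast hk4
  apply equi_of hD q hq _ (Real.exp_pos _).le _ c
  intro a ha haq
  obtain ⟨L, hL⟩ : ∃ L : ℕ, L = ⌈2 * C * Real.log k ^ 2⌉₊ := ⟨_, rfl⟩
  have hL1 : 2 * C * Real.log k ^ 2 ≤ L := by rw [hL]; exact Nat.le_ceil _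
  have hL2 : (L : ℝ) ≤ 2 * C * Real.log k ^ 2 + 1 := by
    rw [hL]
    exact (Nat.ceil_lt_add_one (by positivity)).le
  have hqL : q ≤ b ^ L := by
    have h1 : (q : ℝ) ≤ (b : ℝ) ^ L := by
      refine hqC.trans ?_
      have h2 : Real.exp (C * Real.log k ^ 2) ≤ Real.exp (Real.log 2 * L) := by
        apply Real.exp_le_exp.2
        have h3 : (1 : ℝ) / 2 ≤ Real.log 2 := by
          have := Real.log_two_gt_d9
          linarith
        have h4 : (1 : ℝ) / 2 * L ≤ Real.log 2 * L := mul_le_mul_of_nonneg_right h3 (Nat.cast_nonneg _)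
        linarith
      refine h2.trans ?_
      rw [Real.exp_mul, Real.exp_log (by norm_num), Real.rpow_natCast]
      have : (2 : ℝ) ≤ b := by exact_mod_cast hb
      gcongr
    exact_mod_cast h1
  have hk1 : ((k / 2 : ℕ) : ℝ) + D * Real.log k ≤ k := by
    have h1 : ((k / 2 : ℕ) : ℝ) ≤ k / 2 := Nat.cast_div_le
    linarith
  refine (chr_rat hD hb hη.le (k / 2) L q a (by omega) hk1 (by omega) hqL hcop ha haq).trans ?_
  apply Real.exp_le_exp.2
  have h1 : (k : ℝ) / (4 * (L + 1)) - 1 ≤ ((k / 2 / (L + 1) : ℕ) : ℝ) := by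
    have h2 : k / 2 < (k / 2 / (L + 1) + 1) * (L + 1) := by
      have := Nat.lt_div_mul_add (a := k / 2) (b := L + 1) (by omega)
      nlinarith
    have h3 : (k : ℝ) / 4 ≤ ((k / 2 : ℕ) : ℝ) := by
      have h4 : k ≤ 4 * (k / 2) := by omega
      have : (k : ℝ) ≤ 4 * ((k / 2 : ℕ) : ℝ) := by exact_mod_cast h4
      linarith
    have h4 : ((k / 2 : ℕ) : ℝ) ≤ (((k / 2 / (L + 1) : ℕ) : ℝ) + 1) * (L + 1) := by exact_mod_cast h2.le
    have h5 : (k : ℝ) / (4 * (L + 1)) = k / 4 / (L + 1) := by field_simp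
    rw [h5, sub_le_iff_le_add, div_le_iff₀ (by positivity)]
    linarith
  have h2 : √(k : ℝ) ≤ κ * ((k : ℝ) / (4 * (L + 1)) - 1) := by
    have h3 : (√(k : ℝ) + κ) * (4 * (L + 1)) ≤ κ * k := by
      refine le_trans ?_ g2
      apply mul_le_mul_of_nonneg_left _ (by positivity)
      linarith
    have h4 : (√(k : ℝ) + κ) ≤ κ * ((k : ℝ) / (4 * (L + 1))) := by
      rw [← mul_div_assoc, le_div_iff₀ (by positivity)]
      exact h3
    linarith
  have h3 := mul_le_mul_of_nonneg_left h1 hκ0.le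
  have h4 : κ * ((k / 2 / (L + 1) : ℕ) : ℝ) = 4 * (1 / (2 * b * H.factorial)) ^ 2 * (η * ((k / 2 / (L + 1) : ℕ) : ℝ)) := by
    rw [hκ]; ring
  linarith

end Pool.Agent.K9h59.OM
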