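import Pool.Agent.K9h59.OM.Var
import Pool.Agent.K9h54.TF.Core1

set_option autoImplicit false

/-! The second exceptional set for a random shift. -/

namespace Pool.Agent.K9h59.OM

open Finset
open Pool.Agent.H387R2.Uni (nuT)
open Pool.Agent.H373R2.T7 (lamz pz mem_pz Vz Vz_pos)
open Pool.Agent.K9h54.TF (Sf PiT fac_pos cls comb num2 Vz_split)

/-- the second exceptional set -/
theorem exL (k : ℕ) (hk : 1 ≤ k) : ∃ K x0 : ℕ, 1 ≤ K ∧ ∀ x y z M w : ℕ, x0 ≤ y → y ^ K ≤ x →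
    1 ≤ x → 2 * k ≤ w → 4 ≤ w → w ≤ z → z ≤ y → 1 ≤ M → M ≤ x →
    ∀ T : Finset ℕ, T.card ≤ k → (∀ p, p.Prime → nuT T p < p) → ∀ A ⊆ Icc 1 x,
      (∀ n ∈ A, ∀ h ∈ T, Pool.Agent.K9h54.TF.IsP ((n : ℤ) - h)) → ∀ γ : ℝ, γ = √(x : ℝ) + k * y + x / M + 1 →
      γ * (Vz z)⁻¹ ≤ x * PiT T y / w → ∀ (ι : Type) (Ω : Finset ι) (P : ι → ℝ) (t : ι → ℕ) (κ : ℝ),
      SvP Ω P t z w κ → ∑ ω ∈ Ω, P ω = 1 → 0 < κ → 1200 * ((Vz z)⁻¹) ^ 2 * w * κ ≤ 16 →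
      ∀ (a : ℤ) (S : Finset ℕ), (∀ p, p ∈ S ↔ p ∈ pz z ∧ w < p) →
        ∑ ω ∈ Ω, P ω * ((∏ p ∈ S, (1 - 1 / (p : ℝ)))⁻¹ *
          ((A.filter (fun n : ℕ => Sf S (n + a + (∏ q ∈ pz w, q : ℕ) * t ω))).card : ℝ) - A.card) ^ 2 ≤
          166 * (x * PiT T y) ^ 2 / w ∧ (A.card : ℝ) ≤ 5 * (x * PiT T y) := by
  classical
  obtain ⟨K, x0, hK, hcls⟩ := cls k hk
  refine ⟨K, x0, hK, fun x y z M w hy hyx hx hkw hw4 hwz hzy hM hMx T hT hadm A hA hAT γ hγd hγ ι Ω P t κ hSv hP1 hκ hVκ a S hS => ?_⟩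
  have hx0 : (0 : ℝ) < x := by exact_mod_cast hx
  have hw0 : (0 : ℝ) < w := by exact_mod_cast (by omega : 0 < w)
  have hPi : 0 < PiT T y := by
    unfold PiT
    exact prod_pos fun p hp => fac_pos (mem_pz.1 hp).2 (hadm p (mem_pz.1 hp).2)
  have hγ0 : 0 ≤ γ := by rw [hγd]; positivity
  obtain ⟨V, hV⟩ : ∃ V : ℝ, V = ∏ p ∈ S, (1 - 1 / (p : ℝ)) := ⟨_, rfl⟩
  have hVs : Vz z = Vz w * V := by rw [hV]; exact Vz_split hwz hS
  have hVz0 := Vz_pos z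
  have hVw0 := Vz_pos w
  have hVw1 := Pool.Agent.H373R2.T7.Vz_le_one w
  have hV0 : 0 < V := by
    by_contra h
    push Not at h
    have : Vz w * V ≤ 0 := mul_nonpos_of_nonneg_of_nonpos hVw0.le h
    linarith
  have hVi : V⁻¹ ≤ (Vz z)⁻¹ := by
    apply inv_anti₀ hVz0
    rw [hVs]
    calc Vz w * V ≤ 1 * V := mul_le_mul_of_nonneg_right hVw1 hV0.le
      _ = V := one_mul _
  have hVi1 : 1 ≤ V⁻¹ := by
    rw [one_le_inv₀ hV0, hV]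
    apply prod_le_one
    · intro p hp
      have hpp := (mem_pz.1 ((hS p).1 hp).1).2
      have h2 : (2 : ℝ) ≤ p := by exact_mod_cast hpp.two_le
      have : 1 / (p : ℝ) ≤ 1 := (div_le_one (by linarith)).2 (by linarith)
      linarith
    · intro p _
      have : (0 : ℝ) ≤ 1 / (p : ℝ) := by positivity
      linarith
  have hPS : ∀ S' ⊆ S, ∀ p ∈ S', p.Prime ∧ w < p ∧ p ≤ y := by
    intro S' hS' p hp
    have h1 := (hS p).1 (hS' hp)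
    rw [mem_pz] at h1
    exact ⟨h1.1.2, h1.2, h1.1.1.trans hzy⟩
  have hB := fun S' (hS' : S' ⊆ S) (r : ℕ) => hcls x y hy hyx T hT hadm A hA hAT w hkw hw4 S' (hPS S' hS') M hM hMx r
  rw [← hγd] at hB
  have hγ1 : γ * V⁻¹ ≤ x * PiT T y / w := (mul_le_mul_of_nonneg_left hVi hγ0).trans hγ
  have hγ2 : γ ≤ x * PiT T y := by
    have h1 : γ ≤ γ * V⁻¹ := le_mul_of_one_le_right hγ0 hVi1
    have h2 : x * PiT T y / w ≤ x * PiT T y := by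
      apply div_le_self (by positivity)
      exact_mod_cast (by omega : 1 ≤ w)
    linarith
  have hAc : (A.card : ℝ) ≤ 5 * (x * PiT T y) := by
    have h1 := hB ∅ (empty_subset _) 0
    simp only [prod_empty, Nat.mod_one, filter_true] at h1
    linarith
  refine ⟨?_, hAc⟩
  rw [← hV]
  refine (variL hSv hP1 a A S hS V hV).trans ?_
  have h1 := comb A S k w (4 * x * PiT T y) γ hk hkw hw4 (fun p hp => ⟨(hPS S subset_rfl p hp).1,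
    (hPS S subset_rfl p hp).2.1⟩) (by positivity) hγ0 hB
  rw [← hV] at h1
  have h3 := num2 (x := x) (Q := PiT T y) (w := w) (γ := γ) (Vi := V⁻¹) (l := 16 / κ) (J := 1)
    (c := A.card) (k := k) hx0 hPi hw0 zero_le_one hVi1 (Nat.cast_nonneg _) hAc hγ1 (by
      rw [le_div_iff₀ hκ]
      refine le_trans ?_ hVκ
      have : V⁻¹ ^ 2 ≤ ((Vz z)⁻¹) ^ 2 := pow_le_pow_left₀ (by positivity) hVi 2
      gcongr) (by positivity) rfl
  have e : (V⁻¹ ^ 2 + 2 * V⁻¹) * (A.card : ℝ) ^ 2 / (16 / κ / 16) = (V⁻¹ ^ 2 + 2 * V⁻¹) * (A.card : ℝ) ^ 2 * κ := by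
    field_simp
  rw [e, one_mul, one_mul] at h3
  linarith

end Pool.Agent.K9h59.OM
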