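import Pool.Agent.K9h59.OM.Prm
import Pool.Agent.K9h54.TF.Fin0

set_option autoImplicit false

/-! One more prime for a random shift: in terms of the Hardy-Littlewood constant. -/

namespace Pool.Agent.K9h59.OM

open Finset Filter
open scoped ArithmeticFunction.vonMangoldt
open Pool.Agent.H387R2.Uni (nuT locT CT CT_hasProd CT_nonneg)
open Pool.Agent.H373R2.T7 (lamz pz mem_pz Vz Vz_pos)
open Pool.Agent.K9h54.TF (Sf PiT fac_pos IsP EX PiT_low PiT_le mert evlog fin0)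

/-- the sieving limit and the comparison of the densities -/
theorem dens (u K : ℕ) (hK2 : 2 ≤ K) : ∃ C5 : ℝ, 1 ≤ C5 ∧ ∃ x1 : ℕ, ∀ x : ℕ, x1 ≤ x → ∀ T : Finset ℕ, T.card = u →
    (∀ p, p.Prime → nuT T p < p) → ∃ y : ℕ, y ^ K ≤ x ∧ x < (y + 1) ^ K ∧
      x * PiT T y ≤ C5 * (CT T * (x / Real.log x ^ u)) ∧ 0 < PiT T y := by
  classical
  obtain ⟨C1, hC1, hlow⟩ := PiT_low u
  obtain ⟨C2, hC2, hM⟩ := mert
  have hKr : (2 : ℝ) ≤ K := by exact_mod_cast hK2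
  obtain ⟨C5, hC5⟩ : ∃ C5 : ℝ, C5 = 2 * (2 * K * C2) ^ u := ⟨_, rfl⟩
  have hC5' : 1 ≤ C5 := by
    have : 1 ≤ (2 * K * C2) ^ u := one_le_pow₀ (by nlinarith)
    rw [hC5]
    linarith
  obtain ⟨m, hm⟩ : ∃ m : ℕ, m = 2 * u ^ 2 + u + 4 := ⟨_, rfl⟩
  obtain ⟨X, hX⟩ := evlog ((eventually_ge_atTop (4 : ℝ)).and (eventually_ge_atTop (2 * K * (m + 2) : ℝ)))
  refine ⟨C5, hC5', max X 3, fun x hx T hT hadm => ?_⟩
  have hx3' : 3 ≤ x := (le_max_right _ _).trans hx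
  have hx0 : (0 : ℝ) < x := by exact_mod_cast (by omega : 0 < x)
  obtain ⟨l1, c7⟩ := hX x ((le_max_left _ _).trans hx)
  obtain ⟨l, hl⟩ : ∃ l, l = Real.log x := ⟨_, rfl⟩
  rw [← hl] at l1 c7 ⊢
  have hxe : Real.exp l = x := by rw [hl, Real.exp_log hx0]
  have hl0 : 0 < l := by linarith
  obtain ⟨y, hyx, hxy⟩ : ∃ y : ℕ, y ^ K ≤ x ∧ x < (y + 1) ^ K := by
    have hex : ∃ n : ℕ, x < (n + 1) ^ K := ⟨x, by
      calc x < x + 1 := by omega
        _ = (x + 1) ^ 1 := (pow_one _).symm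
        _ ≤ (x + 1) ^ K := Nat.pow_le_pow_right (by omega) (by omega)⟩
    refine ⟨Nat.find hex, ?_, Nat.find_spec hex⟩
    rcases Nat.eq_zero_or_pos (Nat.find hex) with h | h
    · rw [h, zero_pow (by omega)]
      omega
    · have h3 : Nat.find hex - 1 < Nat.find hex := by omega
      have := Nat.find_min hex h3
      have e : Nat.find hex - 1 + 1 = Nat.find hex := by omega
      rw [not_lt, e] at this
      exact this
  have hy1 : Real.exp (l / K) < y + 1 := by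
    have h1 : (x : ℝ) < ((y : ℝ) + 1) ^ K := by exact_mod_cast hxy
    have h2 : Real.exp (l / K) ^ K = x := by
      rw [← Real.exp_nat_mul, ← hxe]
      congr 1
      field_simp
    rw [← h2] at h1
    exact lt_of_pow_lt_pow_left₀ K (by positivity) h1
  have hs2K : (m : ℝ) + 2 ≤ l / (2 * K) := by
    rw [le_div_iff₀ (by positivity)]
    linarith
  have hy2 : Real.exp (l / (2 * K)) ≤ y := by
    have h1 : Real.exp (l / K) = Real.exp (l / (2 * K)) * Real.exp (l / (2 * K)) := by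
      rw [← Real.exp_add]
      congr 1
      field_simp
      ring
    have h2 : (2 : ℝ) ≤ Real.exp (l / (2 * K)) := by
      have h3 := Real.add_one_le_exp (l / (2 * K))
      have h4 : (0 : ℝ) ≤ m := Nat.cast_nonneg _
      linarith
    rw [h1] at hy1
    nlinarith
  have hym : m + 2 ≤ y := by
    have h3 := Real.add_one_le_exp (l / (2 * K))
    have : ((m + 2 : ℕ) : ℝ) ≤ y := by
      push_cast
      linarith
    exact_mod_cast this
  have hylog : l / (2 * K) ≤ Real.log y := by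
    rw [Real.le_log_iff_exp_le (by exact_mod_cast (by omega : 0 < y))]
    exact hy2
  obtain ⟨hPi, hPi1⟩ := hlow y (by omega) T hT.le hadm
  have hCT := PiT_le (y := y) hT hadm (by omega)
  refine ⟨y, hyx, hxy, ?_, hPi⟩
  have h1 : Vz y ≤ 2 * K * C2 / l := by
    refine (hM y (by omega)).1.trans ?_
    rw [div_le_div_iff₀ (lt_of_lt_of_le (by positivity) hylog) hl0]
    have h2 : l ≤ 2 * K * Real.log y := by
      rw [div_le_iff₀ (by positivity)] at hylog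
      linarith
    nlinarith
  have h2 : Vz y ^ u ≤ (2 * K * C2 / l) ^ u := pow_le_pow_left₀ (Vz_pos y).le h1 u
  have h3 := CT_nonneg T
  calc x * PiT T y ≤ x * (2 * CT T * Vz y ^ u) := mul_le_mul_of_nonneg_left hCT hx0.le
    _ ≤ x * (2 * CT T * (2 * K * C2 / l) ^ u) := by gcongr
    _ = C5 * (CT T * (x / l ^ u)) := by
        rw [hC5, div_pow]
        ring

open Classical in
/-- an arbitrary set of prime tuples and a random shift -/
theorem finL (u : ℕ) (hu : 1 ≤ u) : ∃ C5 : ℝ, 1 ≤ C5 ∧ ∀ ε : ℝ, 0 < ε → ∃ w1 : ℕ, ∀ w : ℕ, w1 ≤ w →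
    4 ≤ w ∧ ∀ B : ℕ, ∃ x1 : ℕ, ∀ x : ℕ, x1 ≤ x → ∀ T : Finset ℕ, T.card = u → (∀ p, p.Prime → nuT T p < p) →
    ∀ A ⊆ Icc 1 x, (∀ n ∈ A, ∀ h ∈ T, (n - h).Prime) →
      ((A.card : ℝ) ≤ C5 * (CT T * (x / Real.log x ^ u)) ∧ 0 < CT T) ∧
      ∀ z : ℕ, w ≤ z → (z : ℝ) ≤ Real.log x ^ B →
      ∀ (ι : Type) (Ω : Finset ι) (P : ι → ℝ) (t : ι → ℕ) (a : ℤ), (∀ ω ∈ Ω, 0 ≤ P ω) → ∑ ω ∈ Ω, P ω = 1 →
      SvP Ω P t z w (1 / Real.log x ^ 6) →
      ∑ ω ∈ Ω, P ω * |∑ n ∈ A, EX z (2 * x) (n + (a + (∏ q ∈ pz w, q : ℕ) * t ω))| ≤ x / Real.log x ^ (2 * u + 2) →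
      (∀ n ∈ A, ∀ ω ∈ Ω, 1 ≤ (n : ℤ) + a + (∏ q ∈ pz w, q : ℕ) * t ω ∧
        (n : ℤ) + a + (∏ q ∈ pz w, q : ℕ) * t ω ≤ 2 * x) →
      ∑ ω ∈ Ω.filter (fun ω => ε * (CT T * (x / Real.log x ^ u)) <
        |Real.log x * ((A.filter (fun n : ℕ => IsP ((n : ℤ) + a + (∏ q ∈ pz w, q : ℕ) * t ω))).card : ℝ) -
          (Vz w)⁻¹ * ((A.filter (fun n : ℕ => Sf (pz w) (n + a))).card : ℝ)|), P ω ≤ ε := by
  obtain ⟨K0, hK0, hcore⟩ := coreL u hu
  obtain ⟨K3, hpass⟩ := pass u hu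
  obtain ⟨F5, hF5, hf0⟩ := fin0 u hu
  obtain ⟨wf, _, _, hf1⟩ := hf0 1 one_pos 0
  obtain ⟨xf, hf⟩ := hf1 0
  obtain ⟨K, hKd⟩ : ∃ K, K = max K0 K3 := ⟨_, rfl⟩
  have hK0K : K0 ≤ K := by rw [hKd]; exact le_max_left _ _
  have hK3K : K3 ≤ K := by rw [hKd]; exact le_max_right _ _
  have hK2 : 2 ≤ K := hK0.trans hK0K
  obtain ⟨C5, hC5, x2, hdens⟩ := dens u K hK2
  refine ⟨F5, hF5, fun ε hε => ?_⟩
  obtain ⟨η, hη⟩ : ∃ η : ℝ, η = ε / C5 := ⟨_, rfl⟩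
  have hC50 : 0 < C5 := by linarith
  have hη0 : 0 < η := by rw [hη]; positivity
  have hηC : η * C5 = ε := by rw [hη]; field_simp
  have hηε : η ≤ ε := by
    rw [← hηC]
    exact le_mul_of_one_le_right hη0.le hC5
  obtain ⟨w1, hcore⟩ := hcore K hK0K (η / 2) (by linarith)
  refine ⟨w1, fun w hw => ?_⟩
  obtain ⟨hw4, hcore⟩ := hcore w hw
  refine ⟨hw4, fun B => ?_⟩
  obtain ⟨x1, hcore⟩ := hcore B
  obtain ⟨x3, hpass⟩ := hpass K hK3K hK2 η hη0 w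
  refine ⟨max (max x1 x2) (max x3 xf), fun x hx T hT hadm A hA hAT => ?_⟩
  have hx1 : x1 ≤ x := (le_max_left _ _).trans ((le_max_left _ _).trans hx)
  have hx2 : x2 ≤ x := (le_max_right _ _).trans ((le_max_left _ _).trans hx)
  have hx3 : x3 ≤ x := (le_max_left _ _).trans ((le_max_right _ _).trans hx)
  have hxf : xf ≤ x := (le_max_right _ _).trans ((le_max_right _ _).trans hx)
  refine ⟨(hf x hxf T hT hadm A hA hAT).1, fun z hwz hzB ι Ω P t a hP0 hP1 hSv hE hr => ?_⟩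
  obtain ⟨y, hyx, hxy, hd, hPi⟩ := hdens x hx2 T hT hadm
  have hAT' : ∀ n ∈ A, ∀ h ∈ T, IsP ((n : ℤ) - h) := by
    intro n hn h hh
    have h1 := hAT n hn h hh
    unfold IsP
    have h2 : ((n : ℤ) - h).toNat = n - h := by
      have := h1.pos
      omega
    rw [h2]
    exact h1
  have h1 := hcore x hx1 y hyx hxy T hT.le hadm A hA hAT' z hwz hzB ι Ω P t a hP0 hP1 hSv hE hr
  refine le_trans (le_trans (sum_le_sum_of_subset_of_nonneg ?_ fun ω hω _ => hP0 ω (mem_filter.1 hω).1) h1) (by linarith)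
  intro ω hω
  rw [mem_filter] at hω ⊢
  refine ⟨hω.1, ?_⟩
  by_contra hcon
  push Not at hcon
  have h2 := hpass x hx3 y hyx hxy T hT.le hadm A hA hAT' a (t ω) (fun n hn => hr n hn ω hω.1)
    (A.filter (fun n : ℕ => IsP ((n : ℤ) + a + (∏ q ∈ pz w, q : ℕ) * t ω))) (filter_subset _ _)
    (fun n => by rw [mem_filter]) hcon
  have h3 : η * (x * PiT T y) ≤ ε * (CT T * (x / Real.log x ^ u)) := by
    calc η * (x * PiT T y) ≤ η * (C5 * (CT T * (x / Real.log x ^ u))) := mul_le_mul_of_nonneg_left hd hη0.le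
      _ = (η * C5) * (CT T * (x / Real.log x ^ u)) := by ring
      _ = ε * (CT T * (x / Real.log x ^ u)) := by rw [hηC]
  exact absurd hω.2 (not_lt.2 (h2.trans h3))

end Pool.Agent.K9h59.OM
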