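import Pool.Agent.K9h59.OM.Dl

set_option autoImplicit false

/-! Random digits: the primes in the shifts of an arbitrary set on average. -/

namespace Pool.Agent.K9h59.OM

open Finset Filter
open scoped ArithmeticFunction.vonMangoldt
open Pool.Agent.Y885
open Pool.Agent.H373R2.T7 (lamI lamzI lamz)
open Pool.Agent.K9h54.TF (EX)

/-- the sizes -/
structure Sz (b k x e D' w : ℕ) : Prop where
  k4 : 16 ≤ k
  xpos : 1 ≤ x
  be : 3 * x ≤ b ^ (k + e)
  bk : (b : ℝ) ^ e ≤ k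
  lk : Real.log ((b ^ (k + e) : ℕ) : ℝ) ≤ (k : ℝ) ^ 2
  lw : (w : ℝ) + 2 ≤ Real.log ((b ^ (k + e) : ℕ) : ℝ)
  lx : Real.log x ≤ Real.log ((b ^ (k + e) : ℕ) : ℝ)
  kl : (k : ℝ) ≤ Real.log x ^ 2
  l4 : 4 ≤ Real.log x

theorem sizes (b D' w : ℕ) (hb : 2 ≤ b) : ∃ k₀ : ℕ, ∀ k x : ℕ, k₀ ≤ k → b ^ k ≤ k ^ D' * x → x ≤ D' * b ^ k →
    Sz b k x (3 * D') D' w := by
  have hg : ∀ᶠ k : ℕ in atTop, (D' : ℝ) * Real.log k ≤ k / 4 := by
    have h1 := (Real.isLittleO_log_id_atTop).bound (show (0 : ℝ) < 1 / (4 * D' + 1) by positivity)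
    have h2 := tendsto_natCast_atTop_atTop (R := ℝ) |>.eventually h1
    filter_upwards [h2, eventually_ge_atTop 5] with k h3 h4
    have hk : (5 : ℝ) ≤ k := by exact_mod_cast h4
    simp only [id] at h3
    rw [Real.norm_of_nonneg (Real.log_nonneg (by linarith)), Real.norm_of_nonneg (by linarith),
      one_div, inv_mul_eq_div, le_div_iff₀ (by positivity)] at h3
    have h5 := Real.log_nonneg (show (1 : ℝ) ≤ k by linarith)
    nlinarith
  obtain ⟨k₀, hk₀⟩ := eventually_atTop.1 hg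
  refine ⟨max k₀ (b ^ (3 * D') + 2 * b + 3 * D' + 2 * w + 16), fun k x hk h1 h2 => ?_⟩
  have hk2 : b ^ (3 * D') + 2 * b + 3 * D' + 2 * w + 16 ≤ k := (le_max_right _ _).trans hk
  have hg1 := hk₀ k ((le_max_left _ _).trans hk)
  have hkr : (b : ℝ) ^ (3 * D') + 2 * b + 3 * D' + 2 * w + 16 ≤ k := by exact_mod_cast hk2
  have hbr : (2 : ℝ) ≤ b := by exact_mod_cast hb
  have hbe0 : (0 : ℝ) < (b : ℝ) ^ (3 * D') := by positivity
  have hD0 : (0 : ℝ) ≤ D' := Nat.cast_nonneg _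
  have hw0 : (0 : ℝ) ≤ w := Nat.cast_nonneg _
  have hk16 : (16 : ℝ) ≤ k := by linarith
  have hbk0 : 0 < b ^ k := Nat.pow_pos (by omega)
  have hx1 : 1 ≤ x := by
    rcases Nat.eq_zero_or_pos x with h0 | h0
    · rw [h0, mul_zero] at h1
      omega
    · exact h0
  have hx0 : (0 : ℝ) < x := by exact_mod_cast hx1
  have hbe : 3 * x ≤ b ^ (k + 3 * D') := by
    have h3 : 3 * D' ≤ b ^ (3 * D') := (Nat.lt_pow_self (by omega)).le
    calc 3 * x ≤ 3 * (D' * b ^ k) := Nat.mul_le_mul_left _ h2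
      _ = b ^ k * (3 * D') := by ring
      _ ≤ b ^ k * b ^ (3 * D') := Nat.mul_le_mul_left _ h3
      _ = b ^ (k + 3 * D') := by rw [pow_add]
  have hlb : (1 : ℝ) / 2 ≤ Real.log b := by
    have h2 := Real.log_two_gt_d9
    have h3 : Real.log 2 ≤ Real.log b := Real.log_le_log (by norm_num) hbr
    linarith
  have hlb2 : Real.log b ≤ b := by
    have := Real.log_le_sub_one_of_pos (show (0 : ℝ) < b by linarith)
    linarith
  have hL : Real.log ((b ^ (k + 3 * D') : ℕ) : ℝ) = (k + 3 * D') * Real.log b := by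
    push_cast
    rw [Real.log_pow]
    push_cast
    ring
  have hxl : Real.log x ≤ Real.log ((b ^ (k + 3 * D') : ℕ) : ℝ) := by
    apply Real.log_le_log hx0
    exact_mod_cast (by omega : x ≤ b ^ (k + 3 * D'))
  have hlow : (k : ℝ) / 4 ≤ Real.log x := by
    have h3 : ((b ^ k : ℕ) : ℝ) ≤ ((k ^ D' * x : ℕ) : ℝ) := by exact_mod_cast h1
    have h4 := Real.log_le_log (by exact_mod_cast hbk0) h3
    push_cast at h4
    rw [Real.log_pow, Real.log_mul (by positivity) hx0.ne', Real.log_pow] at h4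
    have h5 : (k : ℝ) * (1 / 2) ≤ k * Real.log b := mul_le_mul_of_nonneg_left hlb (by linarith)
    linarith
  refine ⟨by omega, hx1, hbe, by linarith, ?_, ?_, hxl, ?_, by linarith⟩
  · rw [hL]
    have h3 : ((k : ℝ) + 3 * D') ≤ 2 * k := by linarith
    have h4 : ((k : ℝ) + 3 * D') * Real.log b ≤ 2 * k * b :=
      mul_le_mul h3 hlb2 (by linarith) (by linarith)
    nlinarith
  · rw [hL]
    have h3 : (k : ℝ) * (1 / 2) ≤ ((k : ℝ) + 3 * D') * Real.log b :=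
      mul_le_mul (by linarith) hlb (by norm_num) (by linarith)
    linarith
  · nlinarith

/-- THE PRIMES IN THE SHIFTS, on average over the digits -/
theorem exD (b H D : ℕ) (hb : 2 ≤ b) (η : ℝ) (hη : 0 < η) (m : ℕ) (hm : 1 ≤ m) (D' U w : ℕ) : ∃ B k₀ : ℕ,
    ∀ k : ℕ, k₀ ≤ k → ∀ (σ : ℕ → Finset ℕ) (p : ℕ → ℕ → ℝ), Dig H k D η σ p → ∀ x : ℕ, b ^ k ≤ k ^ D' * x →
    x ≤ D' * b ^ k → ∃ z : ℕ, w ≤ z ∧ Real.log x ^ 2 ≤ z ∧ (z : ℝ) ≤ (k : ℝ) ^ B ∧ (z : ℝ) ≤ Real.log x ^ B ∧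
      ∀ A ⊆ Icc 1 x, ∀ a s : ℤ, (s = 1 ∨ s = -1) →
      (∀ n ∈ A, ∀ ξ ∈ Om k σ, 1 ≤ (n : ℤ) + (a + s * ((m * val b ξ : ℕ) : ℤ)) ∧
        (n : ℤ) + (a + s * ((m * val b ξ : ℕ) : ℤ)) ≤ 2 * x) →
      ∑ ξ ∈ Om k σ, wt k p ξ * |∑ n ∈ A, EX z (2 * x) ((n : ℤ) + (a + s * ((m * val b ξ : ℕ) : ℤ)))| ≤
        x / Real.log x ^ U := by
  classical
  obtain ⟨e, he⟩ : ∃ e : ℕ, e = 3 * D' := ⟨_, rfl⟩
  obtain ⟨U', hU'⟩ : ∃ U' : ℕ, U' = D' + 1 + 2 * U := ⟨_, rfl⟩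
  obtain ⟨E, hE, hlaw⟩ := dlaw b H D hb η hη m hm
  obtain ⟨c, k₁, hlaw⟩ := hlaw e (2 * U' + 6)
  obtain ⟨B0, htl⟩ := tl_dif b E c hb hE U'
  obtain ⟨k₂, htl⟩ := htl (B0 + 3)
  obtain ⟨k₃, hsz⟩ := sizes b D' w hb
  rw [← he] at hsz
  refine ⟨4 * (B0 + 3), max (max k₁ k₂) k₃, fun k hk σ p hD x hx1 hx2 => ?_⟩
  have hk1 : k₁ ≤ k := (le_max_left _ _).trans ((le_max_left _ _).trans hk)
  have hk2 : k₂ ≤ k + e := ((le_max_right _ _).trans ((le_max_left _ _).trans hk)).trans (by omega)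
  obtain ⟨s1, s2, s3, s4, s5, s6, s7, s8, s9⟩ := hsz k x ((le_max_right _ _).trans hk) hx1 hx2
  obtain ⟨L, hL⟩ : ∃ L, L = Real.log ((b ^ (k + e) : ℕ) : ℝ) := ⟨_, rfl⟩
  obtain ⟨l, hl⟩ : ∃ l, l = Real.log x := ⟨_, rfl⟩
  rw [← hL] at s5 s6 s7
  rw [← hl] at s7 s8 s9 ⊢
  have hkr : (16 : ℝ) ≤ k := by exact_mod_cast s1
  have hx0 : (0 : ℝ) < x := by exact_mod_cast s2
  have hL1 : 1 ≤ L := by
    have : (0 : ℝ) ≤ w := Nat.cast_nonneg _
    linarith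
  obtain ⟨z, hz⟩ : ∃ z : ℕ, z = ⌈L ^ (B0 + 2)⌉₊ + w := ⟨_, rfl⟩
  have hz1 : L ^ (B0 + 2) ≤ z := by
    rw [hz]
    push_cast
    have := Nat.le_ceil (L ^ (B0 + 2))
    have : (0 : ℝ) ≤ w := Nat.cast_nonneg _
    linarith
  have hLp : (1 : ℝ) ≤ L ^ (B0 + 2) := one_le_pow₀ hL1
  have hz2 : (z : ℝ) ≤ L ^ (B0 + 3) := by
    have h1 := Nat.ceil_lt_add_one (show 0 ≤ L ^ (B0 + 2) by positivity)
    have h2 : (z : ℝ) ≤ L ^ (B0 + 2) + 1 + w := by
      rw [hz]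
      push_cast
      linarith
    have h3 : L ^ (B0 + 3) = L ^ (B0 + 2) * L := pow_succ _ _
    rw [h3]
    have h4 : L ^ (B0 + 2) * (w + 2) ≤ L ^ (B0 + 2) * L := mul_le_mul_of_nonneg_left s6 (by positivity)
    have h5 : 1 * ((w : ℝ) + 1) ≤ L ^ (B0 + 2) * (w + 1) := mul_le_mul_of_nonneg_right hLp (by positivity)
    linarith
  have hzk : (z : ℝ) ≤ (k : ℝ) ^ (2 * (B0 + 3)) := by
    refine hz2.trans ?_
    rw [pow_mul]
    exact pow_le_pow_left₀ (by linarith) s5 _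
  refine ⟨z, by omega, ?_, ?_, ?_, fun A hA a s hs hr => ?_⟩
  · calc l ^ 2 ≤ L ^ 2 := pow_le_pow_left₀ (by linarith) s7 2
      _ ≤ L ^ (B0 + 2) := pow_le_pow_right₀ hL1 (by omega)
      _ ≤ z := hz1
  · refine hzk.trans (pow_le_pow_right₀ (by linarith) (by omega))
  · refine hzk.trans ?_
    have e1 : 4 * (B0 + 3) = 2 * (2 * (B0 + 3)) := by ring
    rw [e1, pow_mul l 2]
    exact pow_le_pow_left₀ (by linarith) s8 _
  · rcases A.eq_empty_or_nonempty with hA0 | ⟨n₀, hn₀⟩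
    · rw [hA0]
      simp only [sum_empty, abs_zero, mul_zero]
      rw [sum_const_zero]
      positivity
    obtain ⟨Y, hY⟩ : ∃ Y : (Fin k → ℕ) → ℤ, Y = fun ξ => a + s * ((m * val b ξ : ℕ) : ℤ) := ⟨_, rfl⟩
    have hlawY : TLaw b E c (2 * U' + 6) (k + e) (Om k σ) (wt k p) Y := by
      rcases hs with rfl | rfl
      · have h1 := hlaw k hk1 σ p hD a
        have e1 : Y = fun ξ => a + ((m * val b ξ : ℕ) : ℤ) := by
          rw [hY]
          funext ξ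
          ring
        rw [e1]
        exact h1
      · have h1 := (hlaw k hk1 σ p hD (-a)).neg
        have e1 : Y = fun ξ => -(-a + ((m * val b ξ : ℕ) : ℤ)) := by
          rw [hY]
          funext ξ
          ring
        rw [e1]
        exact h1
    have hbe : ((b ^ (k + e) : ℕ) : ℤ) = (b : ℤ) ^ (k + e) := by push_cast; ring
    have h3x : 3 * (x : ℤ) ≤ (b : ℤ) ^ (k + e) := by
      rw [← hbe]
      exact_mod_cast s3
    have hx1' : (1 : ℤ) ≤ x := by exact_mod_cast s2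
    have h1 := htl (k + e) hk2 z (by
      rw [← hL]
      exact (pow_le_pow_right₀ hL1 (by omega)).trans hz1) (by
      rw [← hL]
      exact hz2) (Fin k → ℕ) (Om k σ) (wt k p) Y hlawY x (by linarith) (by
      intro ξ hξ
      have h2 := hr n₀ hn₀ ξ hξ
      have h3 := mem_Icc.1 (hA hn₀)
      have h4 : (1 : ℤ) ≤ n₀ := by exact_mod_cast h3.1
      have h5 : (n₀ : ℤ) ≤ x := by exact_mod_cast h3.2
      rw [hY]
      simp only
      constructor <;> linarith) 1 one_pos (fun n => if n ∈ A then 1 else 0) (by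
      intro n _
      split_ifs <;> simp)
    have h2 : ∑ ξ ∈ Om k σ, wt k p ξ * |∑ n ∈ A, EX z (2 * x) ((n : ℤ) + (a + s * ((m * val b ξ : ℕ) : ℤ)))| =
        ∑ ω ∈ Om k σ, wt k p ω * |∑ n ∈ Icc 1 x, (if n ∈ A then (1 : ℝ) else 0) *
          (lamI ((n : ℤ) + Y ω) - lamzI z ((n : ℤ) + Y ω))| := by
      apply sum_congr rfl
      intro ξ hξ
      congr 2
      simp only [ite_mul, one_mul, zero_mul]
      rw [← sum_filter, filter_mem_eq_inter, inter_eq_right.2 hA]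
      apply sum_congr rfl
      intro n hn
      obtain ⟨g1, g2⟩ := hr n hn ξ hξ
      rw [hY]
      simp only
      unfold EX lamI lamzI
      rw [if_pos ⟨g1, by push_cast; exact g2⟩, if_pos g1, if_pos g1]
    rw [h2]
    refine h1.trans ?_
    rw [one_mul]
    have hke : ((k + e : ℕ) : ℝ) = (k : ℝ) + e := by push_cast; ring
    have hkk : (k : ℝ) ^ U' ≤ ((k + e : ℕ) : ℝ) ^ U' := by
      apply pow_le_pow_left₀ (by linarith)
      rw [hke]
      have : (0 : ℝ) ≤ e := Nat.cast_nonneg _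
      linarith
    rw [div_le_div_iff₀ (by positivity) (by positivity)]
    refine le_trans ?_ (mul_le_mul_of_nonneg_left hkk hx0.le)
    have h3 : l ^ U ≤ (k : ℝ) ^ (2 * U) := by
      rw [pow_mul]
      exact pow_le_pow_left₀ (by linarith) (s7.trans s5) _
    have h4 : ((b ^ (k + e) : ℕ) : ℝ) ≤ (k : ℝ) ^ D' * x * k := by
      push_cast
      rw [pow_add]
      have h5 : ((b : ℝ)) ^ k ≤ (k : ℝ) ^ D' * x := by exact_mod_cast hx1
      exact mul_le_mul h5 s4 (by positivity) (by positivity)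
    calc ((b ^ (k + e) : ℕ) : ℝ) * l ^ U ≤ ((k : ℝ) ^ D' * x * k) * (k : ℝ) ^ (2 * U) :=
          mul_le_mul h4 h3 (by positivity) (by positivity)
      _ = x * (k : ℝ) ^ U' := by
          rw [hU', pow_add, pow_add, pow_one]
          ring

end Pool.Agent.K9h59.OM
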