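import Pool.Agent.K9h59.OM.Sv
import Pool.Agent.K9h59.OM.Fin
import Pool.Agent.K9h59.OM.Xd

set_option autoImplicit false

/-! Random digits: the sieve property of the value and of its complement; classes of the shifts modulo a prime. -/

namespace Pool.Agent.K9h59.OM

open Finset Filter
open Pool.Agent.H373R2.T7 (nuB PerB pz mem_pz)

/-- the class of the complement -/
lemma compl_class {q Tm v c : ℕ} (hq : 1 ≤ q) (hv : v ≤ Tm) : Tm - v ≡ c [MOD q] ↔ v ≡ Tm + (q - 1) * c [MOD q] := by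
  rw [Nat.modEq_iff_dvd, Nat.modEq_iff_dvd]
  have e1 : ((Tm - v : ℕ) : ℤ) = (Tm : ℤ) - v := Nat.cast_sub hv
  have e2 : ((Tm + (q - 1) * c : ℕ) : ℤ) = Tm + ((q : ℤ) - 1) * c := by
    push_cast [Nat.cast_sub hq]
    ring
  rw [e1, e2]
  have e3 : (Tm : ℤ) + ((q : ℤ) - 1) * c - v = q * c - (c - ((Tm : ℤ) - v)) := by ring
  have e4 : (c : ℤ) - ((Tm : ℤ) - v) = q * c - ((Tm : ℤ) + ((q : ℤ) - 1) * c - v) := by ring
  constructor
  · intro h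
    rw [e3]
    exact dvd_sub (dvd_mul_right _ _) h
  · intro h
    rw [e4]
    exact dvd_sub (dvd_mul_right _ _) h

/-- a prime larger than `b` and `H` is coprime to `b * H!` -/
lemma cop_big {b H w r : ℕ} (hb : 1 ≤ b) (hbw : b ≤ w) (hHw : H ≤ w) (hr : r.Prime) (hwr : w < r) :
    Nat.Coprime r (b * H.factorial) := by
  rw [hr.coprime_iff_not_dvd]
  intro h
  rcases (Nat.Prime.dvd_mul hr).1 h with h1 | h1
  · exact absurd (Nat.le_of_dvd (by omega) h1) (by omega)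
  · exact absurd ((Nat.Prime.dvd_factorial hr).1 h1) (by omega)

/-- THE SIEVE PROPERTY for random digits -/
theorem svD (b H D : ℕ) (hb : 2 ≤ b) (η : ℝ) (hη : 0 < η) (E U : ℕ) : ∃ k₀ : ℕ, ∀ k : ℕ, k₀ ≤ k →
    ∀ (σ : ℕ → Finset ℕ) (p : ℕ → ℕ → ℝ), Dig H k D η σ p → ∀ z w : ℕ, 1 ≤ z → (z : ℝ) ≤ (k : ℝ) ^ E → b ≤ w → H ≤ w →
    SvP (Om k σ) (wt k p) (val b) z w (1 / (k : ℝ) ^ U) ∧
    ∀ Tm : ℕ, (∀ ξ ∈ Om k σ, val b ξ ≤ Tm) → SvP (Om k σ) (wt k p) (fun ξ => Tm - val b ξ) z w (1 / (k : ℝ) ^ U) := by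
  classical
  obtain ⟨C3, k₁, h1⟩ := svg E U
  obtain ⟨k₂, h2⟩ := equi b H D hb η hη C3 (Nat.cast_nonneg _)
  refine ⟨max k₁ k₂, fun k hk σ p hD z w hz hzE hbw hHw => ?_⟩
  have hk1 := (le_max_left _ _).trans hk
  have hk2 := (le_max_right _ _).trans hk
  have hgen : ∀ t : (Fin k → ℕ) → ℕ, (∀ q : ℕ, 1 ≤ q → (q : ℝ) ≤ Real.exp (C3 * Real.log k ^ 2) →
      Nat.Coprime q (b * H.factorial) → ∀ c : ℕ,
      |∑ ξ ∈ (Om k σ).filter (fun ξ => t ξ ≡ c [MOD q]), wt k p ξ - 1 / q| ≤ Real.exp (-√(k : ℝ))) →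
      SvP (Om k σ) (wt k p) t z w (1 / (k : ℝ) ^ U) := by
    intro t ht Q hQ hQw F hF
    have h3 := h1 k hk1 (Fin k → ℕ) (Om k σ) (wt k p) t (b * H.factorial) (wt_nonneg hD) ht z hz hzE Q hQ (by
      intro r hr hcop
      apply hQw r hr
      by_contra hrw
      exact hcop (cop_big (by omega) hbw hHw (mem_pz.1 hr).2 (by omega)))
    have h4 : F = (Om k σ).filter (fun ξ => ∀ r ∈ pz z, ¬ Q r (t ξ)) := by
      ext ξ
      rw [hF, mem_filter]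
    rw [h4]
    exact h3
  refine ⟨hgen (val b) (fun q hq1 hq2 hq3 c => h2 k hk2 σ p hD q hq1 hq2 hq3 c), fun Tm hTm => ?_⟩
  apply hgen
  intro q hq1 hq2 hq3 c
  have h3 := h2 k hk2 σ p hD q hq1 hq2 hq3 (Tm + (q - 1) * c)
  have h4 : (Om k σ).filter (fun ξ => Tm - val b ξ ≡ c [MOD q]) =
      (Om k σ).filter (fun ξ => val b ξ ≡ Tm + (q - 1) * c [MOD q]) := by
    apply filter_congr
    intro ξ hξ
    exact compl_class hq1 (hTm ξ hξ)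
  rw [h4]
  exact h3

/-- the classes of `c + W * val` modulo a prime -/
theorem clsD (b H D : ℕ) (hb : 2 ≤ b) (η : ℝ) (hη : 0 < η) (E : ℕ) : ∃ k₀ : ℕ, ∀ k : ℕ, k₀ ≤ k →
    ∀ (σ : ℕ → Finset ℕ) (p : ℕ → ℕ → ℝ), Dig H k D η σ p → ∀ W w c : ℕ, b ≤ w → H ≤ w → ∀ q : ℕ, q.Prime → w < q →
    Nat.Coprime q W → (q : ℝ) ≤ (k : ℝ) ^ E → ∀ F ⊆ Om k σ, (∃ r : ℕ, ∀ ξ ∈ F, r % q = (c + W * val b ξ) % q) →
    ∑ ξ ∈ F, wt k p ξ ≤ 1 / (q : ℝ) + Real.exp (-√(k : ℝ)) := by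
  classical
  obtain ⟨k₂, h2⟩ := equi b H D hb η hη E (Nat.cast_nonneg _)
  refine ⟨max k₂ 3, fun k hk σ p hD W w c hbw hHw q hq hwq hqW hqk F hF ⟨r, hr⟩ => ?_⟩
  have hk2 := (le_max_left _ _).trans hk
  have hk3 : (3 : ℝ) ≤ k := by exact_mod_cast (le_max_right _ _).trans hk
  have hlk : 1 ≤ Real.log k := by
    rw [Real.le_log_iff_exp_le (by linarith)]
    have := Real.exp_one_lt_d9
    linarith
  rcases F.eq_empty_or_nonempty with h0 | ⟨ξ₀, hξ₀⟩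
  · rw [h0, sum_empty]
    positivity
  have h3 := h2 k hk2 σ p hD q hq.one_lt.le (by
    refine hqk.trans ?_
    rw [← Real.log_le_iff_le_exp (by positivity), Real.log_pow]
    have : Real.log k ≤ Real.log k ^ 2 := by nlinarith
    exact mul_le_mul_of_nonneg_left this (Nat.cast_nonneg _)) (cop_big (by omega) hbw hHw hq hwq) (val b ξ₀)
  have h4 := (abs_le.1 h3).2
  have h5 : ∑ ξ ∈ F, wt k p ξ ≤ ∑ ξ ∈ (Om k σ).filter (fun ξ => val b ξ ≡ val b ξ₀ [MOD q]), wt k p ξ := by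
    apply sum_le_sum_of_subset_of_nonneg
    · intro ξ hξ
      rw [mem_filter]
      refine ⟨hF hξ, ?_⟩
      have h6 : c + W * val b ξ ≡ c + W * val b ξ₀ [MOD q] := (hr ξ hξ).symm.trans (hr ξ₀ hξ₀)
      have h7 : W * val b ξ ≡ W * val b ξ₀ [MOD q] := Nat.ModEq.add_left_cancel' c h6
      exact Nat.ModEq.cancel_left_of_coprime hqW h7
    · intro ξ hξ _
      exact wt_nonneg hD ξ (mem_filter.1 hξ).1
  linarith

/-- the property is monotone in the error -/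
lemma SvP.mono {ι : Type} {Ω : Finset ι} {P : ι → ℝ} {t : ι → ℕ} {z w : ℕ} {κ κ' : ℝ} (h : SvP Ω P t z w κ) (hκ : κ ≤ κ') :
    SvP Ω P t z w κ' := fun Q hQ hQw F hF => (h Q hQ hQw F hF).trans hκ

end Pool.Agent.K9h59.OM
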