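import Pool.Agent.K9h59.OM.Equ
import Pool.Agent.H373R2.T7.SysCount

set_option autoImplicit false

/-! Random digits: the sieve of Brun. -/

namespace Pool.Agent.K9h59.OM

open Finset Filter
open Pool.Agent.H373R2.T7 (nuB PerB pz mem_pz nuB_le sieve_gen' es es_le card_small card_pz_le sum_pz_le choice)

/-- joint distribution in residue classes -/
theorem count_law {ι : Type} (Ω : Finset ι) (P : ι → ℝ) (t : ι → ℕ) (M : ℕ) (ρ D : ℝ)
    (hE : ∀ q c : ℕ, 1 ≤ q → (q : ℝ) ≤ D → Nat.Coprime q M → |∑ ξ ∈ Ω.filter (fun ξ => t ξ ≡ c [MOD q]), P ξ - 1 / q| ≤ ρ)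
    (A : ℕ → ℕ → Prop) [∀ p a, Decidable (A p a)] (S : Finset ℕ) (hS : ∀ p ∈ S, p.Prime ∧ Nat.Coprime p M) :
    ∀ q : ℕ, 1 ≤ q → Nat.Coprime q M → (∀ p ∈ S, ¬ p ∣ q) → (((q * ∏ p ∈ S, p : ℕ)) : ℝ) ≤ D → ∀ c : ℕ,
    |∑ ξ ∈ Ω.filter (fun ξ => t ξ ≡ c [MOD q] ∧ ∀ p ∈ S, A p (t ξ % p)), P ξ -
      1 / (q : ℝ) * ∏ p ∈ S, ((((range p).filter (fun a => A p a)).card : ℝ) / p)| ≤
      (∏ p ∈ S, (((range p).filter (fun a => A p a)).card : ℝ)) * ρ := by
  classical
  induction S using Finset.induction_on with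
  | empty =>
    intro q hq hqM _ hqD c
    have h := hE q c hq (by simpa using hqD) hqM
    simpa using h
  | insert p S hp ih =>
    intro q hq hqM hdq hqD c
    obtain ⟨hpp, hpM⟩ := hS p (mem_insert_self _ _)
    have hS' : ∀ p' ∈ S, p'.Prime ∧ Nat.Coprime p' M := fun p' h => hS p' (mem_insert_of_mem h)
    have hpq : q.Coprime p := by
      rw [Nat.coprime_comm]
      exact (Nat.Prime.coprime_iff_not_dvd hpp).2 (hdq p (mem_insert_self _ _))
    have hp0 : (0 : ℝ) < p := by exact_mod_cast hpp.pos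
    have hq0 : (0 : ℝ) < q := by exact_mod_cast hq
    rw [prod_insert hp, prod_insert hp]
    obtain ⟨ρ', hρ⟩ : ∃ ρ', ρ' = (range p).filter (fun a => A p a) := ⟨_, rfl⟩
    rw [← hρ]
    -- fibres
    have h1 : ∑ ξ ∈ Ω.filter (fun ξ => t ξ ≡ c [MOD q] ∧ ∀ p' ∈ insert p S, A p' (t ξ % p')), P ξ =
        ∑ a ∈ ρ', ∑ ξ ∈ Ω.filter (fun ξ => t ξ ≡ (Nat.chineseRemainder hpq c a : ℕ) [MOD (q * p)] ∧
          ∀ p' ∈ S, A p' (t ξ % p')), P ξ := by
      rw [← sum_fiberwise_of_maps_to (s := Ω.filter (fun ξ => t ξ ≡ c [MOD q] ∧ ∀ p' ∈ insert p S, A p' (t ξ % p')))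
        (t := ρ') (g := fun ξ => t ξ % p)]
      · apply sum_congr rfl
        intro a ha
        rw [hρ, mem_filter, mem_range] at ha
        apply sum_congr _ (fun _ _ => rfl)
        ext ξ
        simp only [mem_filter, mem_insert, forall_eq_or_imp]
        have hcr : t ξ ≡ (Nat.chineseRemainder hpq c a : ℕ) [MOD (q * p)] ↔ t ξ ≡ c [MOD q] ∧ t ξ ≡ a [MOD p] := by
          constructor
          · intro h
            have k1 := (Nat.chineseRemainder hpq c a).2.1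
            have k2 := (Nat.chineseRemainder hpq c a).2.2
            exact ⟨(h.of_mul_right p).trans k1, (h.of_mul_left q).trans k2⟩
          · rintro ⟨h1, h2⟩
            exact Nat.chineseRemainder_modEq_unique hpq h1 h2
        have hmod : t ξ ≡ a [MOD p] ↔ t ξ % p = a := by
          unfold Nat.ModEq
          rw [Nat.mod_eq_of_lt ha.1]
        rw [hcr, hmod]
        constructor
        · rintro ⟨⟨h1, h2, h3, h4⟩, h5⟩
          exact ⟨h1, ⟨h2, h5⟩, h4⟩
        · rintro ⟨h1, ⟨h2, h5⟩, h4⟩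
          exact ⟨⟨h1, h2, by rw [h5]; exact ha.2, h4⟩, h5⟩
      · intro ξ hξ
        rw [mem_filter] at hξ
        rw [hρ, mem_filter, mem_range]
        exact ⟨Nat.mod_lt _ hpp.pos, hξ.2.2 p (mem_insert_self _ _)⟩
    rw [h1]
    have h2 : 1 / (q : ℝ) * (((ρ'.card : ℝ) / p) * ∏ p' ∈ S, ((((range p').filter (fun a => A p' a)).card : ℝ) / p')) =
        ∑ a ∈ ρ', 1 / ((q * p : ℕ) : ℝ) * ∏ p' ∈ S, ((((range p').filter (fun a => A p' a)).card : ℝ) / p') := by
      rw [sum_const, nsmul_eq_mul]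
      push_cast
      field_simp
    rw [h2, ← sum_sub_distrib]
    refine (abs_sum_le_sum_abs _ _).trans ?_
    have h3 : ∀ a ∈ ρ', |∑ ξ ∈ Ω.filter (fun ξ => t ξ ≡ (Nat.chineseRemainder hpq c a : ℕ) [MOD (q * p)] ∧
          ∀ p' ∈ S, A p' (t ξ % p')), P ξ -
        1 / ((q * p : ℕ) : ℝ) * ∏ p' ∈ S, ((((range p').filter (fun a => A p' a)).card : ℝ) / p')| ≤
        (∏ p' ∈ S, (((range p').filter (fun a => A p' a)).card : ℝ)) * ρ := by
      intro a _
      apply ih hS' (q * p) (Nat.mul_pos hq hpp.pos) (Nat.Coprime.mul_left hqM hpM)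
      · intro p' hp' hd
        have hp'p := (hS' p' hp').1
        rcases (Nat.Prime.dvd_mul hp'p).1 hd with h | h
        · exact hdq p' (mem_insert_of_mem hp') h
        · rw [Nat.prime_dvd_prime_iff_eq hp'p hpp] at h
          exact hp (h ▸ hp')
      · rw [prod_insert hp, ← mul_assoc] at hqD
        exact hqD
    refine (sum_le_sum h3).trans ?_
    rw [sum_const, nsmul_eq_mul]
    apply le_of_eq
    ring

/-- the numbers -/
lemma sv_num (b : ℕ) (hb : 2 ≤ b) (C1 U : ℕ) : ∃ k₀ : ℕ, ∀ k : ℕ, k₀ ≤ k →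
    Real.log (Real.log ((b ^ k : ℕ) : ℝ)) ≤ 2 * Real.log k ∧ (k : ℝ) / 2 ≤ Real.log ((b ^ k : ℕ) : ℝ) ∧
    0 ≤ Real.log (Real.log ((b ^ k : ℕ) : ℝ)) ∧
    Real.exp (C1 * Real.log k ^ 2) * Real.exp (-√(k : ℝ)) ≤ 1 / (2 * (k : ℝ) ^ U) ∧ 4 ≤ k := by
  have hg : ∀ᶠ k : ℕ in atTop, (C1 : ℝ) * Real.log k ^ 2 + Real.log 2 + U * Real.log k ≤ √(k : ℝ) := by
    have h1 : ∀ a : ℝ, 0 ≤ a → ∀ m : ℕ, Tendsto (fun x : ℝ => a * (Real.log x ^ m / x ^ ((1 : ℝ) / 2))) atTop (nhds 0) := by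
      intro a _ m
      have h4 := isLittleO_log_rpow_rpow_atTop (r := (m : ℝ)) (s := (1 : ℝ) / 2) (by norm_num)
      have h5 := h4.tendsto_div_nhds_zero
      have h6 : Tendsto (fun x : ℝ => Real.log x ^ m / x ^ ((1 : ℝ) / 2)) atTop (nhds 0) := by
        refine h5.congr fun x => ?_
        rw [Real.rpow_natCast]
      simpa using h6.const_mul a
    have h2 := ((h1 C1 (Nat.cast_nonneg _) 2).add (h1 (Real.log 2) (Real.log_nonneg (by norm_num)) 0)).add
      (h1 U (Nat.cast_nonneg _) 1)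
    rw [add_zero, add_zero] at h2
    have h3 := (h2.comp (tendsto_natCast_atTop_atTop (R := ℝ))).eventually (gt_mem_nhds (zero_lt_one))
    filter_upwards [h3, eventually_ge_atTop 1] with k h4 h5
    have hk : (0 : ℝ) < k := by exact_mod_cast h5
    have hs : 0 < √(k : ℝ) := Real.sqrt_pos.2 hk
    simp only [Function.comp] at h4
    rw [← Real.sqrt_eq_rpow] at h4
    have h6 := mul_lt_mul_of_pos_right h4 hs
    rw [one_mul] at h6
    refine le_trans (le_of_eq ?_) h6.le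
    field_simp
  obtain ⟨k₀, hk₀⟩ := eventually_atTop.1 hg
  refine ⟨max k₀ (max b 4), fun k hk => ?_⟩
  have h1 := hk₀ k ((le_max_left _ _).trans hk)
  have hkb : b ≤ k := (le_max_left _ _).trans ((le_max_right _ _).trans hk)
  have hk4 : 4 ≤ k := (le_max_right _ _).trans ((le_max_right _ _).trans hk)
  have hkr : (4 : ℝ) ≤ k := by exact_mod_cast hk4
  have hbr : (2 : ℝ) ≤ b := by exact_mod_cast hb
  have hkbr : (b : ℝ) ≤ k := by exact_mod_cast hkb
  have hlog : Real.log ((b ^ k : ℕ) : ℝ) = k * Real.log b := by push_cast; rw [Real.log_pow]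
  have hlb : (1 : ℝ) / 2 ≤ Real.log b := by
    have h2 := Real.log_two_gt_d9
    have h3 : Real.log 2 ≤ Real.log b := Real.log_le_log (by norm_num) hbr
    linarith
  have hlb2 : Real.log b ≤ k := by
    have := Real.log_le_sub_one_of_pos (show (0 : ℝ) < b by linarith)
    linarith
  refine ⟨?_, ?_, ?_, ?_, hk4⟩
  · rw [hlog]
    have h2 : (k : ℝ) * Real.log b ≤ k * k := mul_le_mul_of_nonneg_left hlb2 (by linarith)
    have h3 := Real.log_le_log (by positivity) h2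
    have h4 : Real.log ((k : ℝ) * k) = 2 * Real.log k := by
      rw [Real.log_mul (by positivity) (by positivity)]
      ring
    linarith
  · rw [hlog]
    nlinarith
  · rw [hlog]
    apply Real.log_nonneg
    nlinarith
  · rw [← Real.exp_add, one_div, ← Real.exp_log (show (0 : ℝ) < (2 * (k : ℝ) ^ U)⁻¹ by positivity)]
    apply Real.exp_le_exp.2
    rw [Real.log_inv, Real.log_mul (by norm_num) (by positivity), Real.log_pow]
    linarith

open Classical in
/-- THE SIEVE for a law with a good distribution in residue classes -/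
theorem svg (E U : ℕ) : ∃ C3 k₀ : ℕ, ∀ k : ℕ, k₀ ≤ k → ∀ (ι : Type) (Ω : Finset ι) (P : ι → ℝ) (t : ι → ℕ) (M : ℕ),
    (∀ ξ ∈ Ω, 0 ≤ P ξ) →
    (∀ q : ℕ, 1 ≤ q → (q : ℝ) ≤ Real.exp (C3 * Real.log k ^ 2) → Nat.Coprime q M → ∀ c : ℕ,
      |∑ ξ ∈ Ω.filter (fun ξ => t ξ ≡ c [MOD q]), P ξ - 1 / q| ≤ Real.exp (-√(k : ℝ))) →
    ∀ z : ℕ, 1 ≤ z → (z : ℝ) ≤ (k : ℝ) ^ E → ∀ Q : ℕ → ℕ → Prop, PerB Q 2 →
    (∀ r ∈ pz z, ¬ Nat.Coprime r M → ∀ n, ¬ Q r n) →
    |∑ ξ ∈ Ω.filter (fun ξ => ∀ r ∈ pz z, ¬ Q r (t ξ)), P ξ -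
      ∏ r ∈ pz z, (1 - (nuB Q r : ℝ) / r)| ≤ 1 / (k : ℝ) ^ U := by
  obtain ⟨N0, h0⟩ := choice 2 (2 * E) (2 * U + 4) 1
  obtain ⟨C2, hC2⟩ : ∃ C2, C2 = 3 * (2 * (1 + 2 * E)) + (2 * U + 4) + 1 := ⟨_, rfl⟩
  rw [← hC2] at h0
  -- the size of the moduli
  obtain ⟨C3, hC3⟩ : ∃ C3 : ℕ, C3 = 3 * C2 * (2 * (E + 4)) := ⟨_, rfl⟩
  obtain ⟨b, hbb⟩ : ∃ b : ℕ, b = 2 := ⟨_, rfl⟩
  have hb : 2 ≤ b := hbb.ge
  obtain ⟨k2, h2⟩ := sv_num b hb C3 U
  refine ⟨C3, max N0 k2, fun k hk ι Ω P t M hP hequi z hz hzE Q hQ hQM => ?_⟩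
  have hkN : N0 ≤ k := (le_max_left _ _).trans hk
  have hk2 : k2 ≤ k := (le_max_right _ _).trans hk
  obtain ⟨n1, n2, n3, n4, n5⟩ := h2 k hk2
  obtain ⟨L, hL⟩ : ∃ L, L = Real.log ((b ^ k : ℕ) : ℝ) := ⟨_, rfl⟩
  rw [← hL] at n1 n2 n3
  have hkr : (4 : ℝ) ≤ k := by exact_mod_cast n5
  have hL2 : 2 ≤ L := by linarith
  have hzL : (z : ℝ) ≤ L ^ (2 * E) := by
    refine hzE.trans ?_
    rw [pow_mul]
    apply pow_le_pow_left₀ (by positivity)
    nlinarith
  have hbk : N0 ≤ b ^ k := hkN.trans (Nat.lt_pow_self (by omega)).le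
  obtain ⟨r, hr1, _, hr3⟩ := h0 (b ^ k) hbk z (by rw [← hL]; exact hzL)
  rw [← hL] at hr1 hr3
  -- the size of r
  have hrl : (r : ℝ) ≤ 3 * C2 * Real.log L := by
    have h3 := hr3 3
    have h4 := Real.log_le_log (by positivity) h3
    rw [Real.log_pow, Real.log_pow] at h4
    have h5 : (1 : ℝ) ≤ Real.log ((3 : ℕ) : ℝ) := by
      rw [Real.le_log_iff_exp_le (by norm_num)]
      have := Real.exp_one_lt_d9
      push_cast
      linarith
    have h6 : (r : ℝ) * 1 ≤ r * Real.log ((3 : ℕ) : ℝ) := mul_le_mul_of_nonneg_left h5 (Nat.cast_nonneg _)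
    push_cast at h4 h6
    nlinarith
  have hrk : (r : ℝ) ≤ 3 * C2 * (2 * Real.log k) := by
    refine hrl.trans ?_
    apply mul_le_mul_of_nonneg_left n1
    positivity
  have hlk : 1 ≤ Real.log k := by
    rw [Real.le_log_iff_exp_le (by linarith)]
    have := Real.exp_one_lt_d9
    linarith
  -- powers of z
  have hzpow : ((2 : ℝ) * (z + 1)) ^ r ≤ Real.exp (C3 * Real.log k ^ 2) := by
    have h3 : (2 : ℝ) * (z + 1) ≤ (k : ℝ) ^ (E + 4) := by
      have h4 : (1 : ℝ) ≤ (k : ℝ) ^ E := one_le_pow₀ (by linarith)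
      have h5 : (4 : ℝ) ≤ (k : ℝ) ^ 4 := by
        calc (4 : ℝ) ≤ k := hkr
          _ = (k : ℝ) ^ 1 := (pow_one _).symm
          _ ≤ (k : ℝ) ^ 4 := pow_le_pow_right₀ (by linarith) (by norm_num)
      rw [pow_add]
      calc (2 : ℝ) * (z + 1) ≤ 2 * ((k : ℝ) ^ E + (k : ℝ) ^ E) := by linarith
        _ = (k : ℝ) ^ E * 4 := by ring
        _ ≤ (k : ℝ) ^ E * (k : ℝ) ^ 4 := mul_le_mul_of_nonneg_left h5 (by positivity)
    have h4 : ((2 : ℝ) * (z + 1)) ^ r ≤ ((k : ℝ) ^ (E + 4)) ^ r := pow_le_pow_left₀ (by positivity) h3 r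
    refine h4.trans ?_
    rw [← Real.log_le_iff_le_exp (by positivity), Real.log_pow, Real.log_pow]
    calc (r : ℝ) * (((E + 4 : ℕ) : ℝ) * Real.log k) ≤ (3 * C2 * (2 * Real.log k)) * (((E + 4 : ℕ) : ℝ) * Real.log k) := by
          gcongr
      _ = C3 * Real.log k ^ 2 := by
          rw [hC3]
          push_cast
          ring
  have key := sieve_gen' Ω P hP (fun r ξ => Q r (t ξ)) (pz z)
    (fun r => (nuB Q r : ℝ) / r) (fun r hr => by
      have hp0 : (0 : ℝ) < r := by exact_mod_cast (mem_pz.1 hr).2.pos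
      constructor
      · positivity
      · rw [div_le_one hp0]
        exact_mod_cast nuB_le Q r) (1 : ℝ) zero_le_one
    (fun _ => (2 : ℝ) ^ r * Real.exp (-√(k : ℝ))) r (by
      intro S hS hr
      by_cases hSM : ∀ q ∈ S, Nat.Coprime q M
      · have hSp : ∀ q ∈ S, q.Prime ∧ Nat.Coprime q M := fun q hq => ⟨(mem_pz.1 (hS hq)).2, hSM q hq⟩
        have h3 := count_law Ω P t M (Real.exp (-√(k : ℝ)))
          (Real.exp (C3 * Real.log k ^ 2)) (fun q c hq1 hq2 hq3 => hequi q hq1 hq2 hq3 c) (fun q a => Q q a) S hSp 1 le_rfl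
          (Nat.coprime_one_left _) (fun q hq hd => (hSp q hq).1.one_lt.ne' (Nat.dvd_one.1 hd)) (by
            rw [one_mul]
            have h4 : ∏ q ∈ S, q ≤ z ^ S.card := by
              apply prod_le_pow_card
              intro q hq
              exact (mem_pz.1 (hS hq)).1
            have h5 : (z : ℝ) ^ S.card ≤ ((2 : ℝ) * (z + 1)) ^ r := by
              have hz1 : (1 : ℝ) ≤ z := by exact_mod_cast hz
              calc (z : ℝ) ^ S.card ≤ (z : ℝ) ^ r := pow_le_pow_right₀ hz1 hr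
                _ ≤ ((2 : ℝ) * (z + 1)) ^ r := pow_le_pow_left₀ (by positivity) (by linarith) r
            calc ((∏ q ∈ S, q : ℕ) : ℝ) ≤ ((z ^ S.card : ℕ) : ℝ) := by exact_mod_cast h4
              _ = (z : ℝ) ^ S.card := by push_cast; rfl
              _ ≤ _ := h5.trans hzpow) 0
        have e1 : ∑ i ∈ Ω.filter (fun ξ => ∀ q ∈ S, Q q (t ξ)), P i =
            ∑ ξ ∈ Ω.filter (fun ξ => t ξ ≡ 0 [MOD 1] ∧ ∀ q ∈ S, Q q (t ξ % q)), P ξ := by
          apply sum_congr _ (fun _ _ => rfl)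
          apply filter_congr
          intro ξ _
          constructor
          · intro h
            exact ⟨Nat.modEq_one, fun q hq => (hQ.per q _).1 (h q hq)⟩
          · rintro ⟨_, h⟩ q hq
            exact (hQ.per q _).2 (h q hq)
        rw [e1]
        have e2 : (1 : ℝ) * ∏ q ∈ S, ((nuB Q q : ℝ) / q) = 1 / ((1 : ℕ) : ℝ) * ∏ q ∈ S, ((((range q).filter (fun a => Q q a)).card : ℝ) / q) := by
          rw [Nat.cast_one, div_one]
          rfl
        rw [e2]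
        refine h3.trans ?_
        apply mul_le_mul_of_nonneg_right _ (Real.exp_pos _).le
        calc ∏ q ∈ S, (((range q).filter (fun a => Q q a)).card : ℝ) ≤ ∏ _q ∈ S, (2 : ℝ) := by
              apply prod_le_prod (fun _ _ => Nat.cast_nonneg _)
              intro q hq
              exact_mod_cast hQ.few q (hSp q hq).1
          _ = (2 : ℝ) ^ S.card := by rw [prod_const]
          _ ≤ (2 : ℝ) ^ r := pow_le_pow_right₀ (by norm_num) hr
      · push Not at hSM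
        obtain ⟨q, hqS, hqM⟩ := hSM
        have hno := hQM q (hS hqS) hqM
        have e1 : Ω.filter (fun ξ => ∀ q ∈ S, Q q (t ξ)) = ∅ := by
          rw [filter_eq_empty_iff]
          intro ξ _ h
          exact hno _ (h q hqS)
        have e2 : ∏ q ∈ S, ((nuB Q q : ℝ) / q) = 0 := by
          apply prod_eq_zero hqS
          have : nuB Q q = 0 := by
            unfold nuB
            rw [card_eq_zero, filter_eq_empty_iff]
            intro a _
            exact hno a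
          rw [this, Nat.cast_zero, zero_div]
        rw [e1, e2, sum_empty, mul_zero, sub_zero, abs_zero]
        positivity)
  rw [one_mul] at key
  refine key.trans ?_
  have e1 : ∑ j ∈ range (r + 1), ∑ _S ∈ (pz z).powersetCard j, (2 : ℝ) ^ r * Real.exp (-√(k : ℝ)) =
      ((∑ j ∈ range (r + 1), ((pz z).powersetCard j).card : ℕ) : ℝ) * ((2 : ℝ) ^ r * Real.exp (-√(k : ℝ))) := by
    push_cast
    rw [sum_mul]
    apply sum_congr rfl
    intro j _
    rw [sum_const, nsmul_eq_mul]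
  rw [e1]
  have h3 := card_small (pz z) r
  have h4 : (((pz z).card : ℝ) + 1) ^ r ≤ ((z : ℝ) + 1) ^ r := by
    have : ((pz z).card : ℝ) ≤ z := by exact_mod_cast card_pz_le z
    gcongr
  have g1 : ((∑ j ∈ range (r + 1), ((pz z).powersetCard j).card : ℕ) : ℝ) * ((2 : ℝ) ^ r * Real.exp (-√(k : ℝ))) ≤
      1 / (2 * (k : ℝ) ^ U) := by
    refine le_trans ?_ n4
    have h6 : ((∑ j ∈ range (r + 1), ((pz z).powersetCard j).card : ℕ) : ℝ) * ((2 : ℝ) ^ r * Real.exp (-√(k : ℝ))) ≤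
        ((z : ℝ) + 1) ^ r * ((2 : ℝ) ^ r * Real.exp (-√(k : ℝ))) :=
      mul_le_mul_of_nonneg_right (h3.trans h4) (by positivity)
    refine h6.trans ?_
    rw [← mul_assoc]
    apply mul_le_mul_of_nonneg_right _ (Real.exp_pos _).le
    refine le_trans (le_of_eq ?_) hzpow
    rw [mul_pow]
    ring
  have h5 : es (fun q => (nuB Q q : ℝ) / q) (pz z) r ≤ 1 / L ^ (2 * U + 4) := by
    refine (es_le (fun q _ => by positivity) r).trans (le_trans ?_ hr1)
    apply Real.exp_le_exp.2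
    have h6 : ∑ q ∈ pz z, (nuB Q q : ℝ) / q ≤ 2 * (1 + Real.log z) := by
      have h7 : ∀ q ∈ pz z, (nuB Q q : ℝ) / q ≤ 2 * (1 / (q : ℝ)) := by
        intro q hq
        rw [mul_one_div]
        apply div_le_div_of_nonneg_right _ (Nat.cast_nonneg _)
        exact_mod_cast hQ.few q (mem_pz.1 hq).2
      refine (sum_le_sum h7).trans ?_
      rw [← mul_sum]
      exact mul_le_mul_of_nonneg_left (sum_pz_le z) (by norm_num)
    push_cast
    linarith
  have g2 : 2 * (1 : ℝ) * es (fun q => (nuB Q q : ℝ) / q) (pz z) r ≤ 1 / (2 * (k : ℝ) ^ U) := by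
    have h6 : (4 : ℝ) * (k : ℝ) ^ U ≤ L ^ (2 * U + 4) := by
      have h7 : (k : ℝ) ≤ L ^ 2 := by nlinarith
      have h8 : (k : ℝ) ^ U ≤ (L ^ 2) ^ U := pow_le_pow_left₀ (by positivity) h7 U
      have h9 : (4 : ℝ) ≤ L ^ 4 := by
        have : (2 : ℝ) ^ 4 ≤ L ^ 4 := pow_le_pow_left₀ (by norm_num) hL2 4
        norm_num at this
        linarith
      calc (4 : ℝ) * (k : ℝ) ^ U ≤ L ^ 4 * (L ^ 2) ^ U := mul_le_mul h9 h8 (by positivity) (by positivity)
        _ = L ^ (2 * U + 4) := by rw [← pow_mul, ← pow_add]; congr 1; ring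
    have h7 : 1 / L ^ (2 * U + 4) ≤ 1 / (4 * (k : ℝ) ^ U) := one_div_le_one_div_of_le (by positivity) h6
    calc 2 * (1 : ℝ) * es (fun q => (nuB Q q : ℝ) / q) (pz z) r ≤ 2 * 1 * (1 / (4 * (k : ℝ) ^ U)) := by
          apply mul_le_mul_of_nonneg_left (h5.trans h7) (by norm_num)
      _ = 1 / (2 * (k : ℝ) ^ U) := by
          field_simp
          norm_num
  have g3 : 1 / (2 * (k : ℝ) ^ U) + 1 / (2 * (k : ℝ) ^ U) = 1 / (k : ℝ) ^ U := by
    field_simp
    norm_num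
  linarith

end Pool.Agent.K9h59.OM
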