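import Pool.Agent.K9h59.OM.Dn
import Pool.Agent.K9h54.TF.Up2

set_option autoImplicit false

/-! One more prime for a random shift upwards with random digits. -/

namespace Pool.Agent.K9h59.OM

open Finset Filter
open Pool.Agent.H387R2.Uni (nuT locT CT CT_hasProd CT_nonneg)
open Pool.Agent.H373R2.T7 (pz mem_pz Vz Vz_pos)
open Pool.Agent.K9h54.TF (Sf PiT IsP EX evlog CT_low big4 few_bad_up cop_iff card_refl nu_refl CT_refl Vz_le_one)

open Classical in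
/-- the shifts upwards -/
theorem mup (u : ℕ) (hu : 1 ≤ u) (b H D : ℕ) (hb : 2 ≤ b) (η : ℝ) (hη : 0 < η) (D' : ℕ) : ∃ C5 : ℝ, 1 ≤ C5 ∧
    ∀ ε : ℝ, 0 < ε → ∃ w1 : ℕ, ∀ w : ℕ, w1 ≤ w → ∃ B k₀ : ℕ, ∀ k : ℕ, k₀ ≤ k → ∀ (σ : ℕ → Finset ℕ)
    (p : ℕ → ℕ → ℝ), Dig H k D η σ p → ∀ x : ℕ, b ^ k ≤ k ^ D' * x → x ≤ D' * b ^ k →
    ∃ z : ℕ, 2 * w + 2 ≤ z ∧ Real.log x ^ 2 ≤ z ∧ (z : ℝ) ≤ (k : ℝ) ^ B ∧
    ∀ T : Finset ℕ, T.card = u → (∀ p, p.Prime → nuT T p < p) → (∀ h ∈ T, h ≤ x) →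
    ∀ A ⊆ Icc 1 x, (∀ n ∈ A, ∀ h ∈ T, (n + h).Prime) →
      0 < CT T ∧ (A.card : ℝ) ≤ C5 * (CT T * (x / Real.log x ^ u)) ∧
      ∀ c : ℕ, (∀ ξ ∈ Om k σ, c + (∏ q ∈ pz w, q) * val b ξ ≤ x) →
      (∀ r ∈ pz w, ∃ h ∈ T, h % r = c % r) →
      ∑ ξ ∈ (Om k σ).filter (fun ξ => 3 * ε * (CT T * (x / Real.log x ^ u)) <
        |Real.log x * ((A.filter (fun n : ℕ => (n + (c + (∏ q ∈ pz w, q) * val b ξ)).Prime)).card : ℝ) -
          (Vz w)⁻¹ * A.card|), wt k p ξ ≤ ε := by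
  obtain ⟨C5, hC5, hfinL⟩ := finL u hu
  obtain ⟨c0, hc0, hCTl⟩ := CT_low u
  refine ⟨2 * C5, by linarith, fun ε hε => ?_⟩
  obtain ⟨ν, hν⟩ : ∃ ν : ℝ, ν = ε / 3 := ⟨_, rfl⟩
  have hν0 : 0 < ν := by rw [hν]; positivity
  obtain ⟨w1, hfinL⟩ := hfinL ν hν0
  refine ⟨max w1 (max b H), fun w hw => ?_⟩
  have hbw : b ≤ w := (le_max_left _ _).trans ((le_max_right _ _).trans hw)
  have hHw : H ≤ w := (le_max_right _ _).trans ((le_max_right _ _).trans hw)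
  obtain ⟨hw4, hfinL⟩ := hfinL w ((le_max_left _ _).trans hw)
  obtain ⟨W, hW⟩ : ∃ W : ℕ, W = ∏ q ∈ pz w, q := ⟨_, rfl⟩
  have hW1 : 1 ≤ W := by
    rw [hW]
    exact Nat.pos_of_ne_zero (prod_ne_zero_iff.2 fun q hq => (mem_pz.1 hq).2.ne_zero)
  obtain ⟨V, hV⟩ : ∃ V, V = (Vz w)⁻¹ := ⟨_, rfl⟩
  have hV0 : 0 < V := by rw [hV]; exact inv_pos.2 (Vz_pos w)
  rw [← hW, ← hV] at hfinL
  rw [← hW, ← hV]
  obtain ⟨K1, hK1⟩ : ∃ K1, K1 = (2 * ν + 2 * V * C5) / ν := ⟨_, rfl⟩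
  obtain ⟨B, k₁, hex⟩ := exD b H D hb η hη W hW1 (2 * D') (2 * u + 2) (2 * w + 2)
  obtain ⟨x1, hfinL⟩ := hfinL B
  obtain ⟨k₂, hsv⟩ := svD b H D hb η hη B 12
  obtain ⟨k₃, hsz⟩ := sizes b D' w hb
  obtain ⟨k₃', hsz'⟩ := sizes b (2 * D') w hb
  obtain ⟨X, hX⟩ := evlog ((big4 0 (V * (u * w)) (ε * c0) V (by positivity) 0 u).and (eventually_ge_atTop K1))
  obtain ⟨X0, hX0⟩ : ∃ X0 : ℕ, X0 = max x1 X := ⟨_, rfl⟩
  refine ⟨B, max (max k₁ k₂) (max (max k₃ k₃') (X0 ^ 2)), fun k hk σ p hD x hx1 hx2 => ?_⟩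
  have hk1 : k₁ ≤ k := (le_max_left _ _).trans ((le_max_left _ _).trans hk)
  have hk2 : k₂ ≤ k := (le_max_right _ _).trans ((le_max_left _ _).trans hk)
  have hk3 : k₃ ≤ k := (le_max_left _ _).trans ((le_max_left _ _).trans ((le_max_right _ _).trans hk))
  have hk3' : k₃' ≤ k := (le_max_right _ _).trans ((le_max_left _ _).trans ((le_max_right _ _).trans hk))
  have hk4 : X0 ^ 2 ≤ k := (le_max_right _ _).trans ((le_max_right _ _).trans hk)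
  obtain ⟨s1, s2, s3, s4, s5, s6, s7, s8, s9⟩ := hsz k x hk3 hx1 hx2
  have hk0 : 1 ≤ k := by omega
  have hx1' : b ^ k ≤ k ^ (2 * D') * (2 * x) := by
    calc b ^ k ≤ k ^ D' * x := hx1
      _ ≤ k ^ (2 * D') * (2 * x) := Nat.mul_le_mul (Nat.pow_le_pow_right hk0 (by omega)) (by omega)
  have hx2' : 2 * x ≤ 2 * D' * b ^ k := by
    calc 2 * x ≤ 2 * (D' * b ^ k) := Nat.mul_le_mul_left _ hx2
      _ = 2 * D' * b ^ k := by ring
  obtain ⟨t1, t2, t3, t4, t5, t6, t7, t8, t9⟩ := hsz' k (2 * x) hk3' hx1' hx2'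
  have hxX0 : X0 ≤ x := xl hk4 s8 s9
  have hxx1 : x1 ≤ x := (le_max_left _ _).trans (hX0.symm.le.trans hxX0)
  have hxX : X ≤ x := (le_max_right _ _).trans (hX0.symm.le.trans hxX0)
  obtain ⟨⟨l1, v1, _, c2⟩, kk1⟩ := hX x hxX
  have hx0 : (0 : ℝ) < x := by exact_mod_cast s2
  rw [Real.exp_log hx0] at c2
  obtain ⟨z, hz1, hz2, hz3, hz4, hex⟩ := hex k hk1 σ p hD (2 * x) hx1' hx2'
  obtain ⟨l, hl⟩ : ∃ l, l = Real.log x := ⟨_, rfl⟩
  obtain ⟨l', hl'⟩ : ∃ l', l' = Real.log ((2 * x : ℕ) : ℝ) := ⟨_, rfl⟩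
  have hll : l' = Real.log 2 + l := by
    rw [hl', hl]
    push_cast
    rw [Real.log_mul (by norm_num) hx0.ne']
  rw [← hl'] at hz2 hz4 hex t7
  rw [← hl] at l1 v1 c2 kk1 s7 s9 ⊢
  have hl0 : 0 < l := by linarith
  have hlog2 : 0 < Real.log 2 := Real.log_pos (by norm_num)
  have hlog2' : Real.log 2 ≤ 1 := by
    have := Real.log_two_lt_d9
    linarith
  have hll1 : l ≤ l' := by linarith
  have hl0' : 0 < l' := by linarith
  refine ⟨z, hz1, (pow_le_pow_left₀ hl0.le hll1 2).trans hz2, hz3, fun T hT hadm hTx A hA hAp => ?_⟩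
  obtain ⟨A', hA'⟩ : ∃ A', A' = A.image (fun n => n + x) := ⟨_, rfl⟩
  have hAx : ∀ n ∈ A, n ≤ x := fun n hn => (mem_Icc.1 (hA hn)).2
  have hinj : Function.Injective (fun n : ℕ => n + x) := fun a b h => by simpa using h
  have hA'x : A' ⊆ Icc 1 (2 * x) := by
    intro n hn
    rw [hA', mem_image] at hn
    obtain ⟨m, hm, rfl⟩ := hn
    have := hAx m hm
    rw [mem_Icc]
    omega
  have hfin := hfinL (2 * x) (by omega)
    (T.image (fun h => x - h)) ((card_refl T x hTx).trans hT) (by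
      intro p hp
      rw [nu_refl T x p hp.ne_zero hTx]
      exact hadm p hp) A' hA'x (by
      intro n hn h hh
      rw [hA', mem_image] at hn
      obtain ⟨m, hm, rfl⟩ := hn
      rw [mem_image] at hh
      obtain ⟨g, hg, rfl⟩ := hh
      have h1 := hTx g hg
      have h2 := hAp m hm g hg
      have e : m + x - (x - g) = m + g := by omega
      rw [e]
      exact h2)
  rw [CT_refl T x hTx, ← hl'] at hfin
  obtain ⟨⟨a1, a3⟩, a4⟩ := hfin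
  obtain ⟨M, hM⟩ : ∃ M, M = CT T * (x / l ^ u) := ⟨_, rfl⟩
  have hM0 : 0 < M := by rw [hM]; positivity
  have hM2 : CT T * (((2 * x : ℕ) : ℝ) / l' ^ u) ≤ 2 * M := by
    have h1 : ((2 * x : ℕ) : ℝ) / l' ^ u ≤ 2 * (x / l ^ u) := by
      push_cast
      rw [mul_div_assoc]
      gcongr
    have h2 := mul_le_mul_of_nonneg_left h1 a3.le
    rw [hM]
    linarith
  have hAA' : A'.card = A.card := by rw [hA', card_image_of_injective _ hinj]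
  have hAM : (A.card : ℝ) ≤ 2 * C5 * M := by
    rw [hAA'] at a1
    have := mul_le_mul_of_nonneg_left hM2 (by linarith : 0 ≤ C5)
    linarith
  rw [← hM]
  refine ⟨a3, hAM, fun c hdx hcov => ?_⟩
  have hVkw : V * (u * w) ≤ ε * M := by
    have h1 : V * (u * w) * l ^ u ≤ (ε * M) * l ^ u := by
      have e1 : (ε * M) * l ^ u = x * (ε * CT T) := by
        rw [hM]
        field_simp
      rw [e1]
      refine c2.trans ?_
      have := hCTl T hT hadm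
      gcongr
    exact le_of_mul_le_mul_right h1 (by positivity)
  obtain ⟨d, hd⟩ : ∃ d : (Fin k → ℕ) → ℕ, d = fun ξ => c + W * val b ξ := ⟨_, rfl⟩
  have hdv : ∀ ξ, c + W * val b ξ = d ξ := fun ξ => by rw [hd]
  simp only [hdv] at hdx ⊢
  obtain ⟨a, ha⟩ : ∃ a : ℤ, a = (c : ℤ) - x := ⟨_, rfl⟩
  have hval : ∀ (m : ℕ) (ξ : Fin k → ℕ), ((m + x : ℕ) : ℤ) + a + (W : ℤ) * (val b ξ : ℕ) = ((m + d ξ : ℕ) : ℤ) := by
    intro m ξ
    rw [ha, hd]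
    push_cast
    ring
  have hrng : ∀ n ∈ A', ∀ ξ ∈ Om k σ, 1 ≤ (n : ℤ) + a + (W : ℤ) * (val b ξ : ℕ) ∧
      (n : ℤ) + a + (W : ℤ) * (val b ξ : ℕ) ≤ 2 * ((2 * x : ℕ) : ℤ) := by
    intro n hn ξ hξ
    rw [hA', mem_image] at hn
    obtain ⟨m, hm, rfl⟩ := hn
    rw [hval]
    have g1 := mem_Icc.1 (hA hm)
    have g2 := hdx ξ hξ
    constructor
    · exact_mod_cast (by omega : 1 ≤ m + d ξ)
    · exact_mod_cast (by omega : m + d ξ ≤ 2 * (2 * x))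
  have hE := hex A' hA'x a 1 (Or.inl rfl) (by
    intro n hn ξ hξ
    have g1 := hrng n hn ξ hξ
    have e1 : (n : ℤ) + (a + 1 * ((W * val b ξ : ℕ) : ℤ)) = (n : ℤ) + a + (W : ℤ) * (val b ξ : ℕ) := by
      push_cast
      ring
    rw [e1]
    exact g1)
  have hSv : SvP (Om k σ) (wt k p) (val b) z w (1 / l' ^ 6) := by
    refine (hsv k hk2 σ p hD z w (by omega) hz3 hbw hHw).1.mono ?_
    apply one_div_le_one_div_of_le (by positivity)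
    have h1 : l' ≤ (k : ℝ) ^ 2 := t7.trans t5
    calc l' ^ 6 ≤ ((k : ℝ) ^ 2) ^ 6 := pow_le_pow_left₀ hl0'.le h1 6
      _ = (k : ℝ) ^ 12 := by rw [← pow_mul]
  have hL := a4 z (by omega) hz4 (Fin k → ℕ) (Om k σ) (wt k p) (val b) a (wt_nonneg hD) (wt_sum hD) hSv (by
      refine le_trans (le_of_eq (sum_congr rfl fun ξ hξ => ?_)) hE
      congr 2
      apply sum_congr rfl
      intro n _
      congr 1
      push_cast
      ring) hrng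
  refine le_trans (le_trans (sum_le_sum_of_subset_of_nonneg ?_ fun ξ hξ _ => wt_nonneg hD ξ (mem_filter.1 hξ).1) hL) (by
    rw [hν]
    linarith)
  intro ξ hξ
  rw [mem_filter] at hξ ⊢
  obtain ⟨hξ1, hξ2⟩ := hξ
  refine ⟨hξ1, ?_⟩
  by_contra hcon
  push Not at hcon
  have hB : A'.filter (fun n : ℕ => IsP ((n : ℤ) + a + (W : ℤ) * (val b ξ : ℕ))) =
      (A.filter (fun n : ℕ => (n + d ξ).Prime)).image (fun n => n + x) := by
    rw [hA', filter_image]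
    congr 1
    apply filter_congr
    intro m _
    rw [hval]
    unfold IsP
    rw [Int.toNat_natCast]
  have hS : A'.filter (fun n : ℕ => Sf (pz w) ((n : ℤ) + a)) =
      (A.filter (fun n : ℕ => (n + d ξ).Coprime W)).image (fun n => n + x) := by
    rw [hA', filter_image]
    congr 1
    apply filter_congr
    intro m _
    rw [hW, cop_iff]
    unfold Sf
    have h6 : ∀ p ∈ pz w, ((p : ℤ) ∣ ((m + x : ℕ) : ℤ) + a ↔ p ∣ m + d ξ) := by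
      intro p hp
      have h7 : (p : ℤ) ∣ (W : ℤ) * (val b ξ : ℕ) := by
        apply Dvd.dvd.mul_right
        rw [hW]
        exact Int.natCast_dvd_natCast.2 (dvd_prod_of_mem _ hp)
      rw [← Int.natCast_dvd_natCast, ← hval]
      exact (Int.dvd_add_left h7).symm
    exact forall₂_congr fun p hp => not_congr (h6 p hp)
  rw [hB, hS, card_image_of_injective _ hinj, card_image_of_injective _ hinj] at hcon
  have hcovd : ∀ r ∈ pz w, ∃ h ∈ T, h % r = d ξ % r := by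
    intro r hr
    obtain ⟨h, hh, hhc⟩ := hcov r hr
    refine ⟨h, hh, ?_⟩
    rw [hhc, hd]
    have h7 : r ∣ W * val b ξ := by
      apply Dvd.dvd.mul_right
      rw [hW]
      exact dvd_prod_of_mem _ hr
    exact ((Nat.modEq_iff_dvd' (Nat.le_add_right c _)).2 (by simpa using h7))
  obtain ⟨f1, f2⟩ := few_bad_up (A := A) (T := T) (k := u) (w := w) (d := d ξ) hT hAp hcovd
  rw [← hW] at f1 f2
  obtain ⟨Bc, hBc⟩ : ∃ Bc : ℝ, Bc = ((A.filter (fun n : ℕ => (n + d ξ).Prime)).card : ℝ) := ⟨_, rfl⟩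
  obtain ⟨Sc, hSc⟩ : ∃ Sc : ℝ, Sc = ((A.filter (fun n : ℕ => (n + d ξ).Coprime W)).card : ℝ) := ⟨_, rfl⟩
  rw [← hBc, ← hSc] at hcon
  rw [← hBc] at hξ2
  rw [← hSc] at f1 f2
  have hB0 : 0 ≤ Bc := by rw [hBc]; exact Nat.cast_nonneg _
  have h5 : |l' * Bc - V * Sc| ≤ 2 * ν * M := by
    have := mul_le_mul_of_nonneg_left hM2 hν0.le
    linarith
  have h6 := abs_le.1 h5
  have h7 : l * Bc ≤ (2 * ν + 2 * V * C5) * M := by
    have h8 : V * Sc ≤ V * (2 * C5 * M) := mul_le_mul_of_nonneg_left (f2.trans hAM) hV0.le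
    have h9 : l * Bc ≤ l' * Bc := mul_le_mul_of_nonneg_right hll1 hB0
    linarith
  have h8 : Bc ≤ ν * M := by
    have h9 : (2 * ν + 2 * V * C5) * M ≤ (l * ν) * M := by
      rw [hK1, div_le_iff₀ hν0] at kk1
      exact mul_le_mul_of_nonneg_right kk1 hM0.le
    have h10 : l * Bc ≤ l * (ν * M) := by linarith
    exact le_of_mul_le_mul_left h10 hl0
  have h10 : Real.log 2 * Bc ≤ 1 * Bc := mul_le_mul_of_nonneg_right hlog2' hB0
  have h11 : 0 ≤ Real.log 2 * Bc := by positivity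
  have e1 : l' * Bc = Real.log 2 * Bc + l * Bc := by rw [hll]; ring
  have m4 : V * (A.card : ℝ) ≤ V * Sc + V * (u * w) := by
    have := mul_le_mul_of_nonneg_left f1 hV0.le
    linarith
  have m5 : V * Sc ≤ V * (A.card : ℝ) := mul_le_mul_of_nonneg_left f2 hV0.le
  have m10 : |l * Bc - V * (A.card : ℝ)| ≤ 3 * ε * M := by
    rw [e1] at h6
    have e2 : ε = 3 * ν := by rw [hν]; ring
    rw [e2] at hVkw
    rw [e2, abs_le]
    constructor <;> linarith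
  exact absurd hξ2 (not_lt.2 m10)

open Classical in
/-- ONE MORE PRIME, shifts upwards with random digits -/
theorem fup (u : ℕ) (hu : 1 ≤ u) (b H D D' : ℕ) (hb : 2 ≤ b) (η : ℝ) (hη : 0 < η) (ε : ℝ) (hε : 0 < ε) :
    ∃ w1 : ℕ, ∀ w : ℕ, w1 ≤ w → ∃ k₀ : ℕ, ∀ k : ℕ, k₀ ≤ k → ∀ (σ : ℕ → Finset ℕ) (p : ℕ → ℕ → ℝ), Dig H k D η σ p →
    ∀ x : ℕ, b ^ k ≤ k ^ D' * x → x ≤ D' * b ^ k → ∀ T : Finset ℕ, T.card = u → (∀ p, p.Prime → nuT T p < p) →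
    (∀ h ∈ T, h ≤ x) → ∀ A ⊆ Icc 1 x, (∀ n ∈ A, ∀ h ∈ T, (n + h).Prime) → ∀ c : ℕ,
    (∀ ξ ∈ Om k σ, c + (∏ q ∈ pz w, q) * val b ξ ≤ x) → (∀ r ∈ pz w, ∃ h ∈ T, h % r = c % r) →
    ∑ ξ ∈ (Om k σ).filter (fun ξ => c + (∏ q ∈ pz w, q) * val b ξ ∈ T ∨
      ¬ (0 < CT (insert (c + (∏ q ∈ pz w, q) * val b ξ) T) ∧
        |((A.filter (fun n : ℕ => (n + (c + (∏ q ∈ pz w, q) * val b ξ)).Prime)).card : ℝ) * Real.log x ^ (u + 1) /
          (CT (insert (c + (∏ q ∈ pz w, q) * val b ξ) T) * x) - A.card * Real.log x ^ u / (CT T * x)| ≤ ε)), wt k p ξ ≤ ε := by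
  obtain ⟨C5, hC5, hmup⟩ := mup u hu b H D hb η hη D'
  obtain ⟨ν, hν, w1, hcomb⟩ := comb u b H D D' hb η hη C5 hC5 ε hε
  obtain ⟨w2, hmup⟩ := hmup ν hν
  obtain ⟨w3, hw3⟩ : ∃ w3 : ℕ, w3 = max w1 w2 := ⟨_, rfl⟩
  refine ⟨w3, fun w hw => ?_⟩
  obtain ⟨B, k₁, hmup⟩ := hmup w ((le_max_right _ _).trans (hw3.symm.le.trans hw))
  obtain ⟨k₂, hcomb⟩ := hcomb w ((le_max_left _ _).trans (hw3.symm.le.trans hw)) B
  refine ⟨max k₁ k₂, fun k hk σ p hD x hx1 hx2 T hT hadm hTx A hA hAT c hrange hcov => ?_⟩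
  obtain ⟨z, hz1, hz2, hz3, hm⟩ := hmup k ((le_max_left _ _).trans hk) σ p hD x hx1 hx2
  obtain ⟨a3, a1, hm⟩ := hm T hT hadm hTx A hA hAT
  have hm := hm c hrange hcov
  exact hcomb k ((le_max_right _ _).trans hk) σ p hD x z hx1 hx2 hz1 hz2 hz3 T hT hadm hTx a3
    A.card (Nat.cast_nonneg _) a1 c hcov hrange (fun d => ((A.filter (fun n : ℕ => (n + d).Prime)).card : ℝ)) hm

end Pool.Agent.K9h59.OM
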