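import Pool.Agent.K9h54.TF.Var2

set_option autoImplicit false

/-! The variance of the sifted sums for a random shift. -/

namespace Pool.Agent.K9h59.OM

open Finset
open Pool.Agent.H387R2.Uni (nuT)
open Pool.Agent.H373R2.T7 (pz mem_pz nuB PerB)
open Pool.Agent.K9h54.TF (Sf not_dvd_prod nuT_pair perB_prog prod_prog)

/-- the sieve property of a law of the integer `t` -/
def SvP {ι : Type} (Ω : Finset ι) (P : ι → ℝ) (t : ι → ℕ) (z w : ℕ) (κ : ℝ) : Prop :=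
  ∀ Q : ℕ → ℕ → Prop, PerB Q 2 → (∀ r ∈ pz z, r ≤ w → ∀ n, ¬ Q r n) → ∀ F : Finset ι,
    (∀ ω, ω ∈ F ↔ ω ∈ Ω ∧ ∀ r ∈ pz z, ¬ Q r (t ω)) →
    |∑ ω ∈ F, P ω - ∏ r ∈ pz z, (1 - (nuB Q r : ℝ) / r)| ≤ κ

/-- the probability that a progression avoids a tuple, modulo small primes -/
theorem cntL {ι : Type} {Ω : Finset ι} {P : ι → ℝ} {t : ι → ℕ} {z w : ℕ} {κ : ℝ} (hSv : SvP Ω P t z w κ)
    (T : Finset ℕ) (hT : T.card ≤ 2) (c m : ℤ) (hR : ∀ p, p.Prime → w < p → ¬ (p : ℤ) ∣ m)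
    (S : Finset ℕ) (hS : ∀ p, p ∈ S ↔ p ∈ pz z ∧ w < p) (F : Finset ι)
    (hF : ∀ ω, ω ∈ F ↔ ω ∈ Ω ∧ ∀ p ∈ pz z, ¬ (w < p ∧ ∃ h ∈ T, (p : ℤ) ∣ c + m * (t ω : ℤ) - h)) :
    |∑ ω ∈ F, P ω - ∏ p ∈ S, (1 - (nuT T p : ℝ) / p)| ≤ κ := by
  have h1 := hSv (fun p j => w < p ∧ ∃ h ∈ T, (p : ℤ) ∣ c + m * (j : ℤ) - h) (perB_prog T c m (fun p => w < p) hT hR)
    (fun r _ hr n h => by have := h.1; omega) F hF
  rw [prod_prog T c m (fun p => w < p) z hR S hS] at h1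
  exact h1

/-- the variance -/
theorem variL {ι : Type} {Ω : Finset ι} {P : ι → ℝ} {t : ι → ℕ} {z w : ℕ} {κ : ℝ} (hSv : SvP Ω P t z w κ)
    (hP1 : ∑ ω ∈ Ω, P ω = 1) (a : ℤ) (A S : Finset ℕ) (hS : ∀ p, p ∈ S ↔ p ∈ pz z ∧ w < p) (V : ℝ)
    (hV : V = ∏ p ∈ S, (1 - 1 / (p : ℝ))) :
      ∑ ω ∈ Ω, P ω * (V⁻¹ * ((A.filter (fun n : ℕ => Sf S (n + a + (∏ q ∈ pz w, q : ℕ) * t ω))).card : ℝ) - A.card) ^ 2 ≤
        ∑ n ∈ A, ∑ n' ∈ A, (∏ p ∈ S, (if n % p = n' % p then (1 - 1 / (p : ℝ))⁻¹ else 1) - 1) +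
          (V⁻¹ ^ 2 + 2 * V⁻¹) * (A.card : ℝ) ^ 2 * κ := by
  classical
  obtain ⟨W, hW⟩ : ∃ W : ℕ, W = ∏ q ∈ pz w, q := ⟨_, rfl⟩
  rw [← hW]
  have hpp : ∀ p ∈ S, p.Prime := fun p hp => (mem_pz.1 ((hS p).1 hp).1).2
  have hfac : ∀ p ∈ S, (0 : ℝ) < 1 - 1 / (p : ℝ) := by
    intro p hp
    have h2 : (2 : ℝ) ≤ p := by exact_mod_cast (hpp p hp).two_le
    have : 1 / (p : ℝ) ≤ 1 / 2 := one_div_le_one_div_of_le (by norm_num) h2
    linarith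
  have hV0 : 0 < V := by rw [hV]; exact prod_pos hfac
  have hcnt : ∀ T0 : Finset ℕ, T0.card ≤ 2 → ∀ F : Finset ι,
      (∀ ω, ω ∈ F ↔ ω ∈ Ω ∧ ∀ n ∈ T0, Sf S (n + a + W * t ω)) →
      |∑ ω ∈ F, P ω - ∏ p ∈ S, (1 - (nuT T0 p : ℝ) / p)| ≤ κ := by
    intro T0 hT0 F hF
    apply cntL hSv T0 hT0 (-a) (-(W : ℤ)) (fun p hp hwp => by rw [hW]; exact not_dvd_prod hp hwp) S hS F
    intro ω
    rw [hF]
    apply and_congr_right
    intro _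
    constructor
    · rintro h p hp ⟨h1, n, hn, h2⟩
      apply h n hn p ((hS p).2 ⟨hp, h1⟩)
      rw [← Int.dvd_neg]
      convert h2 using 1
      ring
    · intro h n hn p hp h2
      apply h p ((hS p).1 hp).1
      refine ⟨((hS p).1 hp).2, n, hn, ?_⟩
      rw [← Int.dvd_neg]
      convert h2 using 1
      ring
  -- the counts
  obtain ⟨I, hI⟩ : ∃ I : ℕ → ι → ℝ, I = fun (n : ℕ) (ω : ι) => if Sf S ((n : ℤ) + a + (W : ℤ) * (t ω : ℤ)) then (1 : ℝ) else 0 := ⟨_, rfl⟩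
  have hG : ∀ ω : ι, ((A.filter (fun n : ℕ => Sf S (n + a + W * t ω))).card : ℝ) = ∑ n ∈ A, I n ω := by
    intro ω
    rw [hI, Finset.sum_boole]
  have hsingle : ∀ n ∈ A, 1 - V⁻¹ * κ ≤ V⁻¹ * ∑ ω ∈ Ω, P ω * I n ω := by
    intro n _
    have h1 := hcnt {n} (by simp) (Ω.filter (fun ω => Sf S (n + a + W * t ω))) (by
      intro ω
      rw [mem_filter]
      simp)
    have h2 : ∏ p ∈ S, (1 - (nuT {n} p : ℝ) / p) = V := by
      rw [hV]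
      apply prod_congr rfl
      intro p _
      unfold nuT
      simp
    rw [h2] at h1
    have h3 : ∑ ω ∈ Ω.filter (fun ω => Sf S (n + a + W * t ω)), P ω = ∑ ω ∈ Ω, P ω * I n ω := by
      rw [hI, sum_filter]
      apply sum_congr rfl
      intro ω _
      by_cases h4 : Sf S ((n : ℤ) + a + (W : ℤ) * (t ω : ℤ)) <;> simp [h4]
    rw [h3] at h1
    have h4 := (abs_le.1 h1).1
    have h5 : V⁻¹ * (V - κ) ≤ V⁻¹ * ∑ ω ∈ Ω, P ω * I n ω := by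
      apply mul_le_mul_of_nonneg_left _ (inv_nonneg.2 hV0.le)
      linarith
    have h6 : V⁻¹ * (V - κ) = 1 - V⁻¹ * κ := by
      field_simp
    linarith
  have hpair : ∀ n ∈ A, ∀ n' ∈ A, V⁻¹ ^ 2 * ∑ ω ∈ Ω, P ω * (I n ω * I n' ω) ≤
      ∏ p ∈ S, (if n % p = n' % p then (1 - 1 / (p : ℝ))⁻¹ else 1) + V⁻¹ ^ 2 * κ := by
    intro n _ n' _
    have h1 := hcnt {n, n'} (card_le_two) (Ω.filter
      (fun ω => Sf S (n + a + W * t ω) ∧ Sf S (n' + a + W * t ω))) (by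
      intro ω
      rw [mem_filter]
      simp)
    have h3 : ∑ ω ∈ Ω.filter (fun ω => Sf S (n + a + W * t ω) ∧ Sf S (n' + a + W * t ω)), P ω =
        ∑ ω ∈ Ω, P ω * (I n ω * I n' ω) := by
      rw [hI, sum_filter]
      apply sum_congr rfl
      intro ω _
      by_cases h4 : Sf S (n + a + W * t ω) <;> by_cases h5 : Sf S (n' + a + W * t ω) <;> simp [h4, h5]
    rw [h3] at h1
    have h4 := (abs_le.1 h1).2
    have h5 : V⁻¹ ^ 2 * ∏ p ∈ S, (1 - (nuT {n, n'} p : ℝ) / p) ≤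
        ∏ p ∈ S, (if n % p = n' % p then (1 - 1 / (p : ℝ))⁻¹ else 1) := by
      have e : V⁻¹ ^ 2 = ∏ p ∈ S, (1 - 1 / (p : ℝ))⁻¹ ^ 2 := by
        rw [hV, ← prod_inv_distrib, prod_pow]
      rw [e, ← prod_mul_distrib]
      apply prod_le_prod
      · intro p hp
        have h7 : (2 : ℝ) ≤ p := by exact_mod_cast (hpp p hp).two_le
        apply mul_nonneg (by positivity)
        rw [nuT_pair]
        have h8 : (2 : ℝ) / p ≤ 1 := (div_le_one (by linarith)).2 h7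
        have h9 : (1 : ℝ) / p ≤ 2 / p := by
          apply div_le_div_of_nonneg_right _ (by linarith)
          norm_num
        split_ifs
        · push_cast
          linarith
        · push_cast
          linarith
      · intro p hp
        have h7 := hfac p hp
        have h8 : (2 : ℝ) ≤ p := by exact_mod_cast (hpp p hp).two_le
        rw [nuT_pair]
        split_ifs
        · push_cast
          apply le_of_eq
          field_simp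
        · push_cast
          rw [inv_pow, inv_mul_eq_div, div_le_one (by positivity)]
          have : (1 - 1 / (p : ℝ)) ^ 2 = 1 - 2 / p + (1 / p) ^ 2 := by ring
          rw [this]
          have : (0 : ℝ) ≤ (1 / (p : ℝ)) ^ 2 := by positivity
          linarith
    have h6 : V⁻¹ ^ 2 * ∑ ω ∈ Ω, P ω * (I n ω * I n' ω) ≤
        V⁻¹ ^ 2 * (∏ p ∈ S, (1 - (nuT {n, n'} p : ℝ) / p) + κ) := by
      apply mul_le_mul_of_nonneg_left _ (by positivity)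
      linarith
    refine h6.trans ?_
    rw [mul_add]
    linarith
  -- the expansion
  have hexp : ∑ ω ∈ Ω, P ω * (V⁻¹ * ((A.filter (fun n : ℕ => Sf S (n + a + W * t ω))).card : ℝ) - A.card) ^ 2 =
      ∑ n ∈ A, ∑ n' ∈ A, V⁻¹ ^ 2 * ∑ ω ∈ Ω, P ω * (I n ω * I n' ω) -
        2 * A.card * ∑ n ∈ A, V⁻¹ * ∑ ω ∈ Ω, P ω * I n ω + (A.card : ℝ) ^ 2 := by
    have h1 : ∀ ω : ι, P ω * (V⁻¹ * ((A.filter (fun n : ℕ => Sf S (n + a + W * t ω))).card : ℝ) - A.card) ^ 2 =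
        ∑ n ∈ A, ∑ n' ∈ A, V⁻¹ ^ 2 * (P ω * (I n ω * I n' ω)) - 2 * A.card * ∑ n ∈ A, V⁻¹ * (P ω * I n ω) +
          P ω * (A.card : ℝ) ^ 2 := by
      intro ω
      rw [hG]
      have h2 : ∑ n ∈ A, ∑ n' ∈ A, V⁻¹ ^ 2 * (P ω * (I n ω * I n' ω)) = P ω * (V⁻¹ * ∑ n ∈ A, I n ω) ^ 2 := by
        rw [mul_pow, sq (∑ n ∈ A, I n ω), sum_mul_sum, mul_sum, mul_sum]
        apply sum_congr rfl
        intro n _
        rw [mul_sum, mul_sum]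
        apply sum_congr rfl
        intro n' _
        ring
      have h3 : ∑ n ∈ A, V⁻¹ * (P ω * I n ω) = P ω * (V⁻¹ * ∑ n ∈ A, I n ω) := by
        rw [mul_sum, mul_sum]
        apply sum_congr rfl
        intro n _
        ring
      rw [h2, h3]
      ring
    rw [sum_congr rfl fun ω _ => h1 ω, sum_add_distrib, sum_sub_distrib, ← sum_mul, hP1, one_mul, ← mul_sum]
    congr 2
    · rw [sum_comm]
      apply sum_congr rfl
      intro n _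
      rw [sum_comm]
      apply sum_congr rfl
      intro n' _
      rw [mul_sum]
    · rw [sum_comm]
      congr 1
      apply sum_congr rfl
      intro n _
      rw [mul_sum]
  rw [hexp]
  have b1 : ∑ n ∈ A, ∑ n' ∈ A, V⁻¹ ^ 2 * ∑ ω ∈ Ω, P ω * (I n ω * I n' ω) ≤
      ∑ n ∈ A, ∑ n' ∈ A, (∏ p ∈ S, (if n % p = n' % p then (1 - 1 / (p : ℝ))⁻¹ else 1) + V⁻¹ ^ 2 * κ) :=
    sum_le_sum fun n hn => sum_le_sum fun n' hn' => hpair n hn n' hn'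
  have b2 : ∑ n ∈ A, (1 - V⁻¹ * κ) ≤ ∑ n ∈ A, V⁻¹ * ∑ ω ∈ Ω, P ω * I n ω :=
    sum_le_sum hsingle
  rw [sum_const, nsmul_eq_mul] at b2
  have b3 : ∑ n ∈ A, ∑ n' ∈ A, (∏ p ∈ S, (if n % p = n' % p then (1 - 1 / (p : ℝ))⁻¹ else 1) + V⁻¹ ^ 2 * κ) =
      ∑ n ∈ A, ∑ n' ∈ A, (∏ p ∈ S, (if n % p = n' % p then (1 - 1 / (p : ℝ))⁻¹ else 1) - 1) +
        (A.card : ℝ) ^ 2 + V⁻¹ ^ 2 * κ * (A.card : ℝ) ^ 2 := by
    simp_rw [sum_add_distrib, sum_sub_distrib, sum_const, nsmul_eq_mul]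
    ring
  rw [b3] at b1
  have b4 : 2 * (A.card : ℝ) * (A.card * (1 - V⁻¹ * κ)) ≤
      2 * A.card * ∑ n ∈ A, V⁻¹ * ∑ ω ∈ Ω, P ω * I n ω := mul_le_mul_of_nonneg_left b2 (by positivity)
  have b5 : ∑ n ∈ A, ∑ n' ∈ A, (∏ p ∈ S, (if n % p = n' % p then (1 - 1 / (p : ℝ))⁻¹ else 1) - 1) +
          (V⁻¹ ^ 2 + 2 * V⁻¹) * (A.card : ℝ) ^ 2 * κ =
      ∑ n ∈ A, ∑ n' ∈ A, (∏ p ∈ S, (if n % p = n' % p then (1 - 1 / (p : ℝ))⁻¹ else 1) - 1) +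
        V⁻¹ ^ 2 * κ * (A.card : ℝ) ^ 2 + 2 * V⁻¹ * κ * (A.card : ℝ) ^ 2 := by
    ring
  rw [b5]
  nlinarith [b1, b4]

end Pool.Agent.K9h59.OM
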