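import Pool.Agent.Y885.LW

set_option autoImplicit false

/-! Distances to the nearest integer along a geometric progression. -/

namespace Pool.Agent.K9h59.OM

open Finset
open Pool.Agent.H807R2.Dav

/-- the distance to the nearest integer -/
noncomputable def nd (x : ℝ) : ℝ := |x - round x|

lemma nd_nonneg (x : ℝ) : 0 ≤ nd x := abs_nonneg _

lemma nd_le (x : ℝ) (m : ℤ) : nd x ≤ |x - m| := round_le x m

lemma nd_mul (n : ℕ) (x : ℝ) : nd (n * x) ≤ n * nd x := by
  refine (nd_le _ ((n : ℤ) * round x)).trans (le_of_eq ?_)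
  unfold nd
  push_cast
  rw [← mul_sub, abs_mul, Nat.abs_cast]

lemma nd_near (y : ℝ) (m : ℤ) (h : |y - m| ≤ 1 / 2) : nd y = |y - m| := by
  apply le_antisymm (nd_le y m)
  by_cases hm : round y = m
  · unfold nd
    rw [hm]
  · have h1 : (1 : ℝ) ≤ |((round y - m : ℤ) : ℝ)| := by
      have : (1 : ℤ) ≤ |round y - m| := Int.one_le_abs (sub_ne_zero.2 hm)
      exact_mod_cast this
    have h2 : |((round y - m : ℤ) : ℝ)| ≤ |y - m| + nd y := by
      unfold nd
      push_cast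
      have h3 : (round y : ℝ) - m = (y - m) - (y - round y) := by ring
      rw [h3]
      exact abs_sub _ _
    linarith

lemma nd_grow (b : ℕ) (hb : 1 ≤ b) (x : ℝ) (h : nd x ≤ 1 / (2 * b)) : nd (b * x) = b * nd x := by
  have hb0 : (0 : ℝ) < b := by exact_mod_cast hb
  have h1 : |(b : ℝ) * x - ((b * round x : ℤ) : ℝ)| = b * nd x := by
    unfold nd
    push_cast
    rw [← mul_sub, abs_mul, Nat.abs_cast]
  rw [← h1]
  apply nd_near
  rw [h1]
  calc (b : ℝ) * nd x ≤ b * (1 / (2 * b)) := mul_le_mul_of_nonneg_left h hb0.le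
    _ = 1 / 2 := by field_simp

lemma nd_rat (n q : ℕ) (hq : 1 ≤ q) (h : ¬ q ∣ n) : 1 / (q : ℝ) ≤ nd ((n : ℝ) / q) := by
  have hq0 : (0 : ℝ) < q := by exact_mod_cast hq
  unfold nd
  obtain ⟨m, hm⟩ : ∃ m, m = round ((n : ℝ) / q) := ⟨_, rfl⟩
  rw [← hm]
  have h1 : (n : ℝ) / q - m = (((n : ℤ) - m * q : ℤ) : ℝ) / q := by
    push_cast
    field_simp
  rw [h1, abs_div, abs_of_pos hq0]
  apply div_le_div_of_nonneg_right _ hq0.le
  have h2 : (1 : ℤ) ≤ |(n : ℤ) - m * q| := by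
    apply Int.one_le_abs
    intro h3
    apply h
    have : (q : ℤ) ∣ n := ⟨m, by linarith⟩
    exact_mod_cast this
  exact_mod_cast h2

/-- a window contains a point far from the integers -/
lemma window (b q L : ℕ) (hb : 2 ≤ b) (hq : 1 ≤ q) (hL : q ≤ b ^ L) (φ : ℝ)
    (hφ : 1 / (q : ℝ) ≤ nd φ) : ∃ i ≤ L, 1 / (2 * (b : ℝ)) < nd ((b : ℝ) ^ i * φ) := by
  by_contra hcon
  push Not at hcon
  have hb0 : (0 : ℝ) < b := by exact_mod_cast (by omega : 0 < b)
  have hq0 : (0 : ℝ) < q := by exact_mod_cast hq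
  have h1 : ∀ i ≤ L, nd ((b : ℝ) ^ i * φ) = (b : ℝ) ^ i * nd φ := by
    intro i
    induction i with
    | zero => intro _; simp
    | succ i ih =>
      intro hi
      have h2 := ih (by omega)
      have h3 := nd_grow b (by omega) ((b : ℝ) ^ i * φ) (hcon i (by omega))
      rw [h2] at h3
      have e : (b : ℝ) ^ (i + 1) * φ = b * ((b : ℝ) ^ i * φ) := by ring
      rw [e, h3]
      ring
  have h2 := h1 L le_rfl
  have h3 := hcon L le_rfl
  rw [h2] at h3
  have h4 : (1 : ℝ) ≤ (b : ℝ) ^ L * nd φ := by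
    have h5 : (q : ℝ) ≤ (b : ℝ) ^ L := by exact_mod_cast hL
    calc (1 : ℝ) = q * (1 / q) := by field_simp
      _ ≤ (b : ℝ) ^ L * nd φ := mul_le_mul h5 hφ (by positivity) (by positivity)
  have h5 : 1 / (2 * (b : ℝ)) ≤ 1 / 2 := by
    apply one_div_le_one_div_of_le (by norm_num)
    have : (1 : ℝ) ≤ b := by exact_mod_cast (by omega : 1 ≤ b)
    linarith
  linarith

/-- the number of the points far from the integers -/
lemma count_far (b q L k : ℕ) (hb : 2 ≤ b) (hq : 1 ≤ q) (hL : q ≤ b ^ L) (φ : ℝ)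
    (hφ : ∀ j : ℕ, 1 / (q : ℝ) ≤ nd ((b : ℝ) ^ j * φ)) :
    k / (L + 1) ≤ ((range k).filter (fun j => 1 / (2 * (b : ℝ)) < nd ((b : ℝ) ^ j * φ))).card := by
  have h1 : ∀ m : ℕ, ∃ i ≤ L, 1 / (2 * (b : ℝ)) < nd ((b : ℝ) ^ (m * (L + 1) + i) * φ) := by
    intro m
    obtain ⟨i, hi, h⟩ := window b q L hb hq hL ((b : ℝ) ^ (m * (L + 1)) * φ) (hφ _)
    refine ⟨i, hi, ?_⟩
    have e : (b : ℝ) ^ (m * (L + 1) + i) * φ = (b : ℝ) ^ i * ((b : ℝ) ^ (m * (L + 1)) * φ) := by
      rw [pow_add]; ring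
    rw [e]
    exact h
  choose f hf hf2 using h1
  have h2 : (range (k / (L + 1))).card ≤ ((range k).filter (fun j => 1 / (2 * (b : ℝ)) < nd ((b : ℝ) ^ j * φ))).card := by
    apply card_le_card_of_injOn (fun m => m * (L + 1) + f m)
    · intro m hm
      simp only [coe_range, Set.mem_Iio] at hm
      simp only [coe_filter, mem_range, Set.mem_ofPred_eq]
      refine ⟨?_, hf2 m⟩
      have h3 : (m + 1) * (L + 1) ≤ k := (Nat.mul_le_mul_right _ (by omega : m + 1 ≤ k / (L + 1))).trans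
        (Nat.div_mul_le_self k (L + 1))
      have := hf m
      have e : (m + 1) * (L + 1) = m * (L + 1) + (L + 1) := by ring
      omega
    · intro m _ m' _ h
      simp only at h
      have h3 : (m * (L + 1) + f m) / (L + 1) = m := by
        rw [mul_comm, Nat.mul_add_div (by omega), Nat.div_eq_of_lt (by have := hf m; omega), add_zero]
      have h4 : (m' * (L + 1) + f m') / (L + 1) = m' := by
        rw [mul_comm, Nat.mul_add_div (by omega), Nat.div_eq_of_lt (by have := hf m'; omega), add_zero]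
      rw [← h3, h, h4]
  rwa [card_range] at h2

lemma ee_one {x : ℝ} (h : ee x = 1) : ∃ m : ℤ, x = m := by
  unfold ee at h
  rw [Complex.exp_eq_one_iff] at h
  obtain ⟨n, hn⟩ := h
  refine ⟨n, ?_⟩
  have h2 : (2 * Real.pi * Complex.I : ℂ) ≠ 0 := by
    simp [Real.pi_ne_zero, Complex.I_ne_zero]
  have h3 : (x : ℂ) = (n : ℂ) := by
    apply mul_left_cancel₀ h2
    rw [hn]
    ring
  exact_mod_cast h3

/-- orthogonality -/
lemma orth (n : ℤ) (q : ℕ) (hq : 1 ≤ q) :
    ∑ a ∈ range q, ee ((n : ℝ) * ((a : ℝ) / q)) = if (q : ℤ) ∣ n then (q : ℂ) else 0 := by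
  have hq0 : (q : ℝ) ≠ 0 := by
    have : (0 : ℝ) < q := by exact_mod_cast hq
    exact this.ne'
  have h1 : ∀ a : ℕ, ee ((n : ℝ) * ((a : ℝ) / q)) = ee ((n : ℝ) / q) ^ a := by
    intro a
    rw [← ee_pow]
    congr 1
    ring
  simp_rw [h1]
  split_ifs with h
  · obtain ⟨m, hm⟩ := h
    have h2 : (n : ℝ) / q = m := by
      rw [hm]
      push_cast
      field_simp
    rw [h2, ee_int]
    simp
  · have h2 : ee ((n : ℝ) / q) ≠ 1 := by
      intro h3
      obtain ⟨m, hm⟩ := ee_one h3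
      apply h
      refine ⟨m, ?_⟩
      rw [div_eq_iff hq0] at hm
      have : (n : ℝ) = ((q * m : ℤ) : ℝ) := by
        push_cast
        linarith
      exact_mod_cast this
    have h3 : (ee ((n : ℝ) / q) - 1) * ∑ a ∈ range q, ee ((n : ℝ) / q) ^ a = 0 := by
      rw [mul_geom_sum, ← ee_pow]
      have : (q : ℝ) * ((n : ℝ) / q) = n := by field_simp
      rw [this, ee_int, sub_self]
    rcases mul_eq_zero.1 h3 with h4 | h4
    · exact absurd (sub_eq_zero.1 h4) h2
    · exact h4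

end Pool.Agent.K9h59.OM
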